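import Pool.Agent.KN.Gs

/-! Step (6): a large set of rich pairs produces a large rectangle inside `F`. -/

namespace Pool.Agent.KN

open Finset Pool.Agent.SemRO

variable {n R : ℕ}

open Classical in
/-- the points of the class of `z` whose certificates for the players off `S` avoid `T2` -/
noncomputable def Xp (W : Finset (Fin n → Bool)) (c : Fin R → (Fin n → Bool) → Fin n → Option Bool)
    (S : Finset (Fin R)) (T1 T2 : Finset (Fin n)) (z : Fin n → Bool) : Finset (Fin n → Bool) :=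
  (fib W (uu c T1 S) z).filter (fun x => ∀ i ∈ T2, i ∉ Sᶜ.biUnion (fun j => dom (c j x)))

open Classical in
/-- the points whose certificates for the players in `S` avoid `T1` -/
noncomputable def Vp (W : Finset (Fin n → Bool)) (c : Fin R → (Fin n → Bool) → Fin n → Option Bool)
    (S : Finset (Fin R)) (T1 : Finset (Fin n)) : Finset (Fin n → Bool) :=
  W.filter (fun y => ∀ i ∈ T1, ∀ j ∈ S, i ∉ dom (c j y))

open Classical in
/-- the points of `Vp` which agree with `z` off `T2` -/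
noncomputable def Yp (W : Finset (Fin n → Bool)) (c : Fin R → (Fin n → Bool) → Fin n → Option Bool)
    (S : Finset (Fin R)) (T1 T2 : Finset (Fin n)) (z : Fin n → Bool) : Finset (Fin n → Bool) :=
  (Vp W c S T1).filter (fun y => ∀ i, i ∉ T2 → y i = z i)

variable {c : Fin R → (Fin n → Bool) → Fin n → Option Bool} {W : Finset (Fin n → Bool)}
  {S : Finset (Fin R)} {T1 T2 : Finset (Fin n)} {z : Fin n → Bool}

lemma mem_Xp {x : Fin n → Bool} : x ∈ Xp W c S T1 T2 z ↔
    (x ∈ W ∧ (∀ i, i ∉ T1 → x i = z i) ∧ ∀ j ∈ S, c j x = c j z) ∧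
      ∀ i ∈ T2, i ∉ Sᶜ.biUnion (fun j => dom (c j x)) := by
  unfold Xp
  rw [Finset.mem_filter, mem_fib, uu_eq_iff]

lemma mem_Vp {y : Fin n → Bool} : y ∈ Vp W c S T1 ↔ y ∈ W ∧ ∀ i ∈ T1, ∀ j ∈ S, i ∉ dom (c j y) := by
  unfold Vp
  rw [Finset.mem_filter]

lemma mem_Yp {y : Fin n → Bool} : y ∈ Yp W c S T1 T2 z ↔
    (y ∈ W ∧ ∀ i ∈ T1, ∀ j ∈ S, i ∉ dom (c j y)) ∧ ∀ i, i ∉ T2 → y i = z i := by
  unfold Yp
  rw [Finset.mem_filter, mem_Vp]

/-- the mixture of a point of `Xp` and a point of `Yp` is accepted -/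
lemma mix_closed (hsub : ∀ z ∈ W, ∀ j, Sub (c j z) z) {F : Set (Fin n → Bool)}
    (hclosed : ∀ u, (∀ j, ∃ w ∈ W, Sub (c j w) u) → u ∈ F)
    {x y : Fin n → Bool} (hx : x ∈ Xp W c S T1 T2 z) (hy : y ∈ Yp W c S T1 T2 z) :
    mix T1 x y ∈ F := by
  classical
  obtain ⟨⟨x1, x2, x3⟩, x4⟩ := mem_Xp.mp hx
  obtain ⟨⟨y1, y2⟩, y3⟩ := mem_Yp.mp hy
  apply hclosed
  intro j
  by_cases hj : j ∈ S
  · refine ⟨y, y1, ?_⟩
    intro i b hb
    have hi : i ∈ dom (c j y) := by rw [mem_dom, hb]; simp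
    have hi1 : i ∉ T1 := fun h => y2 i h j hj hi
    rw [mix, if_neg hi1]
    exact hsub y y1 j i b hb
  · refine ⟨x, x1, ?_⟩
    intro i b hb
    have hi : i ∈ dom (c j x) := by rw [mem_dom, hb]; simp
    have hi2 : i ∉ T2 := by
      intro h
      apply x4 i h
      rw [Finset.mem_biUnion]
      exact ⟨j, Finset.mem_compl.mpr hj, hi⟩
    unfold mix
    split_ifs with h1
    · exact hsub x x1 j i b hb
    · rw [y3 i hi2, ← x2 i h1]
      exact hsub x x1 j i b hb

lemma rect_core (hsub : ∀ z ∈ W, ∀ j, Sub (c j z) z) {F : Set (Fin n → Bool)}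
    (hclosed : ∀ u, (∀ j, ∃ w ∈ W, Sub (c j w) u) → u ∈ F) {L : ℕ} (hR : RectFree F L)
    (hT : ∀ i ∈ T2, i ∉ T1) (z : Fin n → Bool) (hX : L ≤ (Xp W c S T1 T2 z).card) :
    (Yp W c S T1 T2 z).card < L := by
  classical
  by_contra hcon
  push Not at hcon
  obtain ⟨u, hu1, hu2⟩ := exists_distinct (Xp W c S T1 T2 z) id L (by simpa using hX)
  obtain ⟨v, hv1, hv2⟩ := exists_distinct (Yp W c S T1 T2 z) id L (by simpa using hcon)
  obtain ⟨i, j, hij⟩ := hR T1 u v
    (by
      intro i j hij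
      by_contra hno
      push Not at hno
      apply hu2 i j hij
      funext k
      by_cases hk : k ∈ T1
      · exact hno k hk
      · have h1 := (mem_Xp.mp (hu1 i)).1.2.1 k hk
        have h2 := (mem_Xp.mp (hu1 j)).1.2.1 k hk
        simp only [id]
        rw [h1, h2])
    (by
      intro i j hij
      by_contra hno
      push Not at hno
      apply hv2 i j hij
      funext k
      by_cases hk : k ∈ T2
      · exact hno k (hT k hk)
      · have h1 := (mem_Yp.mp (hv1 i)).2 k hk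
        have h2 := (mem_Yp.mp (hv1 j)).2 k hk
        simp only [id]
        rw [h1, h2])
  exact hij (mix_closed hsub hclosed (hu1 i) (hv1 j))

lemma card_off_image (G : Finset (Fin n → Bool)) (T : Finset (Fin n)) [DecidableEq (Fin n → Bool)] :
    (G.image (off T)).card ≤ 2 ^ (n - T.card) := by
  classical
  have h1 : G.image (off T) ⊆ Fintype.piFinset (fun i => if i ∈ T then {false} else (Finset.univ : Finset Bool)) := by
    intro w hw
    obtain ⟨z, _, rfl⟩ := Finset.mem_image.mp hw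
    rw [Fintype.mem_piFinset]
    intro i
    unfold off
    split_ifs with h
    · simp
    · simp
  refine (Finset.card_le_card h1).trans ?_
  rw [Fintype.card_piFinset]
  have h2 : ∀ i : Fin n, (if i ∈ T then ({false} : Finset Bool) else (Finset.univ : Finset Bool)).card =
      if i ∈ Tᶜ then 2 else 1 := by
    intro i
    by_cases h : i ∈ T
    · simp [h]
    · simp [h]
  rw [Finset.prod_congr rfl fun i _ => h2 i, Finset.prod_ite_mem, Finset.univ_inter, Finset.prod_const,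
    Finset.card_compl, Fintype.card_fin]

/-- few points have a small group -/
lemma few_small (L t2 : ℕ) (hT : T2.card = t2) [DecidablePred fun z => (Yp W c S T1 T2 z).card < L] :
    ((Vp W c S T1).filter (fun z => (Yp W c S T1 T2 z).card < L)).card ≤ L * 2 ^ (n - t2) := by
  classical
  refine (Finset.card_le_mul_card_image (f := off T2) _ L ?_).trans ?_
  · intro b hb
    obtain ⟨z, hz, rfl⟩ := Finset.mem_image.mp hb
    obtain ⟨hz1, hz2⟩ := Finset.mem_filter.mp hz
    refine le_trans (Finset.card_le_card ?_) hz2.le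
    intro y hy
    obtain ⟨hy1, hy2⟩ := Finset.mem_filter.mp hy
    rw [mem_Yp]
    exact ⟨mem_Vp.mp (Finset.mem_filter.mp hy1).1, off_eq_iff.mp hy2⟩
  · refine Nat.mul_le_mul_left _ ?_
    rw [← hT]
    exact card_off_image _ _

/-- averaging over `T2` -/
lemma many_T2 {L : ℕ} (a t1 t2 : ℕ) (ρ : ℝ) (K1 : ℝ)
    (ha : ∀ z ∈ W, (Sᶜ.biUnion (fun j => dom (c j z))).card ≤ a)
    (hρ' : ρ * (n - t1).choose t2 ≤ ((n - t1 - a).choose t2 : ℝ)) (hρ : 0 < ρ) (hL : 2 * (L : ℝ) ≤ ρ * K1)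
    (hz : z ∈ W) (hT1 : T1.card = t1) (hK : K1 ≤ (fib W (uu c T1 S) z).card)
    [DecidablePred fun T2 => L ≤ (Xp W c S T1 T2 z).card] :
    ρ * (n - t1).choose t2 ≤
      2 * ((((Finset.univ \ T1).powersetCard t2).filter (fun T2 => L ≤ (Xp W c S T1 T2 z).card)).card : ℝ) := by
  classical
  set X0 := fib W (uu c T1 S) z with hX0
  have hX0pos : (0 : ℝ) < X0.card := fib_pos' hz
  set Q := (Finset.univ \ T1).powersetCard t2 with hQ
  have hQc : Q.card = (n - t1).choose t2 := by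
    rw [hQ, Finset.card_powersetCard, Finset.card_sdiff_of_subset (Finset.subset_univ _), Finset.card_univ,
      Fintype.card_fin, hT1]
  set Q' := Q.filter (fun T2 => L ≤ (Xp W c S T1 T2 z).card) with hQ'
  -- lower bound for the double sum
  have h1 : ∀ x ∈ X0, (n - t1 - a).choose t2 ≤
      (Q.filter (fun T2 => ∀ i ∈ T2, i ∉ Sᶜ.biUnion (fun j => dom (c j x)))).card := by
    intro x hx
    have hxW : x ∈ W := (mem_fib.mp hx).1
    have hsubs : ((Finset.univ \ T1) \ Sᶜ.biUnion (fun j => dom (c j x))).powersetCard t2 ⊆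
        Q.filter (fun T2 => ∀ i ∈ T2, i ∉ Sᶜ.biUnion (fun j => dom (c j x))) := by
      intro T hT
      obtain ⟨hT1', hT2'⟩ := Finset.mem_powersetCard.mp hT
      rw [Finset.mem_filter, hQ, Finset.mem_powersetCard]
      exact ⟨⟨hT1'.trans Finset.sdiff_subset, hT2'⟩, fun i hi => (Finset.mem_sdiff.mp (hT1' hi)).2⟩
    refine le_trans ?_ (Finset.card_le_card hsubs)
    rw [Finset.card_powersetCard]
    apply Nat.choose_le_choose
    have e1 := Finset.le_card_sdiff (Sᶜ.biUnion (fun j => dom (c j x))) (Finset.univ \ T1)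
    rw [Finset.card_sdiff_of_subset (Finset.subset_univ _), Finset.card_univ, Fintype.card_fin, hT1] at e1
    have e2 := ha x hxW
    omega
  have h2 : ∑ T2 ∈ Q, (Xp W c S T1 T2 z).card =
      ∑ x ∈ X0, (Q.filter (fun T2 => ∀ i ∈ T2, i ∉ Sᶜ.biUnion (fun j => dom (c j x)))).card := by
    have e1 : ∀ T2 ∈ Q, (Xp W c S T1 T2 z).card =
        ∑ x ∈ X0, if (∀ i ∈ T2, i ∉ Sᶜ.biUnion (fun j => dom (c j x))) then 1 else 0 := by
      intro T2 _
      unfold Xp
      rw [← hX0, Finset.card_filter]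
    rw [Finset.sum_congr rfl e1, Finset.sum_comm]
    refine Finset.sum_congr rfl fun x _ => ?_
    rw [Finset.card_filter]
  have h3 : X0.card * (n - t1 - a).choose t2 ≤ ∑ T2 ∈ Q, (Xp W c S T1 T2 z).card := by
    rw [h2, ← smul_eq_mul]
    exact Finset.card_nsmul_le_sum _ _ _ h1
  -- upper bound
  have h4 : ∀ T2 ∈ Q, ((Xp W c S T1 T2 z).card : ℝ) ≤
      (if L ≤ (Xp W c S T1 T2 z).card then (X0.card : ℝ) else 0) + L := by
    intro T2 _
    have hle : (Xp W c S T1 T2 z).card ≤ X0.card := by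
      unfold Xp
      exact Finset.card_le_card (Finset.filter_subset _ _)
    split_ifs with h
    · have : ((Xp W c S T1 T2 z).card : ℝ) ≤ X0.card := by exact_mod_cast hle
      have hL0 : (0 : ℝ) ≤ L := Nat.cast_nonneg _
      linarith
    · push Not at h
      have : ((Xp W c S T1 T2 z).card : ℝ) ≤ L := by exact_mod_cast h.le
      linarith
  have h5 : ∑ T2 ∈ Q, ((Xp W c S T1 T2 z).card : ℝ) ≤ (Q'.card : ℝ) * X0.card + Q.card * L := by
    refine (Finset.sum_le_sum h4).trans ?_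
    rw [Finset.sum_add_distrib, ← Finset.sum_filter, Finset.sum_const, Finset.sum_const, nsmul_eq_mul,
      nsmul_eq_mul]
  have h6 : (X0.card : ℝ) * ((n - t1 - a).choose t2 : ℝ) ≤ (Q'.card : ℝ) * X0.card + Q.card * L := by
    refine le_trans ?_ h5
    exact_mod_cast h3
  rw [hQc] at h6
  have hC : (0 : ℝ) ≤ ((n - t1).choose t2 : ℝ) := Nat.cast_nonneg _
  have h7 : (X0.card : ℝ) * (ρ * (n - t1).choose t2) ≤ (X0.card : ℝ) * ((n - t1 - a).choose t2 : ℝ) :=
    mul_le_mul_of_nonneg_left hρ' hX0pos.le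
  have h8 : 2 * (L : ℝ) ≤ ρ * X0.card := hL.trans (mul_le_mul_of_nonneg_left hK hρ.le)
  have h9 : ((n - t1).choose t2 : ℝ) * (2 * L) ≤ ((n - t1).choose t2 : ℝ) * (ρ * X0.card) :=
    mul_le_mul_of_nonneg_left h8 hC
  have h10 : (X0.card : ℝ) * (ρ * (n - t1).choose t2) ≤ (X0.card : ℝ) * (2 * Q'.card) := by
    nlinarith [h6, h7, h9]
  exact le_of_mul_le_mul_left h10 hX0pos

/-- **Rectangles from rich pairs.** -/
theorem rectangle {n R : ℕ} {c : Fin R → (Fin n → Bool) → Fin n → Option Bool}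
    {W : Finset (Fin n → Bool)}
    (hsub : ∀ z ∈ W, ∀ j, Sub (c j z) z) {F : Set (Fin n → Bool)}
    (hclosed : ∀ u, (∀ j, ∃ w ∈ W, Sub (c j w) u) → u ∈ F) {L : ℕ} (hR : RectFree F L)
    (M : Finset (Fin n)) (S : Finset (Fin R)) (a t1 t2 : ℕ) (ρ K1 : ℝ) (hρ : 0 < ρ)
    (ha : ∀ z ∈ W, (Sᶜ.biUnion (fun j => dom (c j z))).card ≤ a)
    (hρ' : ρ * (n - t1).choose t2 ≤ ((n - t1 - a).choose t2 : ℝ)) (ht : t1 + t2 ≤ n)
    (hL : 2 * (L : ℝ) ≤ ρ * K1)
    (P : Finset ((Fin n → Bool) × Finset (Fin n)))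
    (hP : ∀ p ∈ P, p.1 ∈ W ∧ p.2 ⊆ M ∧ p.2.card = t1 ∧ (∀ i ∈ p.2, ∀ j ∈ S, i ∉ dom (c j p.1)) ∧
      K1 ≤ (fib W (uu c p.2 S) p.1).card) :
    (P.card : ℝ) * ρ ≤ 2 * (M.card.choose t1) * L * 2 ^ (n - t2) := by
  classical
  have hCpos : (0 : ℝ) < ((n - t1).choose t2 : ℝ) := by
    exact_mod_cast Nat.choose_pos (by omega)
  -- pairs counted with T2
  have h1 : (P.card : ℝ) * (ρ * (n - t1).choose t2) ≤
      ∑ p ∈ P, 2 * ((((Finset.univ \ p.2).powersetCard t2).filter
        (fun T2 => L ≤ (Xp W c S p.2 T2 p.1).card)).card : ℝ) := by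
    rw [← nsmul_eq_mul]
    apply Finset.card_nsmul_le_sum
    intro p hp
    obtain ⟨p1, p2, p3, p4, p5⟩ := hP p hp
    exact many_T2 a t1 t2 ρ K1 ha hρ' hρ hL p1 p3 p5
  have h2 : ∑ p ∈ P, (((Finset.univ \ p.2).powersetCard t2).filter
        (fun T2 => L ≤ (Xp W c S p.2 T2 p.1).card)).card ≤
      ∑ T1 ∈ M.powersetCard t1, ∑ T2 ∈ (Finset.univ \ T1).powersetCard t2,
        ((Vp W c S T1).filter (fun z => L ≤ (Xp W c S T1 T2 z).card)).card := by
    have e1 : ∑ T1 ∈ M.powersetCard t1, ∑ T2 ∈ (Finset.univ \ T1).powersetCard t2,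
        ((Vp W c S T1).filter (fun z => L ≤ (Xp W c S T1 T2 z).card)).card =
        ∑ T1 ∈ M.powersetCard t1, ∑ z ∈ Vp W c S T1,
          (((Finset.univ \ T1).powersetCard t2).filter (fun T2 => L ≤ (Xp W c S T1 T2 z).card)).card := by
      refine Finset.sum_congr rfl fun T1 _ => ?_
      simp only [Finset.card_filter]
      rw [Finset.sum_comm]
    rw [e1]
    have e2 : ∑ T1 ∈ M.powersetCard t1, ∑ z ∈ Vp W c S T1,
          (((Finset.univ \ T1).powersetCard t2).filter (fun T2 => L ≤ (Xp W c S T1 T2 z).card)).card =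
        ∑ q ∈ (M.powersetCard t1).sigma (fun T1 => Vp W c S T1),
          (((Finset.univ \ q.1).powersetCard t2).filter (fun T2 => L ≤ (Xp W c S q.1 T2 q.2).card)).card := by
      rw [Finset.sum_sigma]
    rw [e2]
    have e3 : ∑ p ∈ P, (((Finset.univ \ p.2).powersetCard t2).filter
        (fun T2 => L ≤ (Xp W c S p.2 T2 p.1).card)).card =
        ∑ q ∈ P.image (fun p => (⟨p.2, p.1⟩ : Σ _ : Finset (Fin n), (Fin n → Bool))),
          (((Finset.univ \ q.1).powersetCard t2).filter (fun T2 => L ≤ (Xp W c S q.1 T2 q.2).card)).card := by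
      rw [Finset.sum_image]
      intro p _ q _ h
      simp only [Sigma.mk.injEq, heq_eq_eq] at h
      exact Prod.ext h.2 h.1
    rw [e3]
    apply Finset.sum_le_sum_of_subset
    intro q hq
    obtain ⟨p, hp, rfl⟩ := Finset.mem_image.mp hq
    obtain ⟨p1, p2, p3, p4, p5⟩ := hP p hp
    rw [Finset.mem_sigma]
    exact ⟨Finset.mem_powersetCard.mpr ⟨p2, p3⟩, mem_Vp.mpr ⟨p1, p4⟩⟩
  have h3 : ∑ T1 ∈ M.powersetCard t1, ∑ T2 ∈ (Finset.univ \ T1).powersetCard t2,
        ((Vp W c S T1).filter (fun z => L ≤ (Xp W c S T1 T2 z).card)).card ≤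
      (M.card.choose t1) * ((n - t1).choose t2 * (L * 2 ^ (n - t2))) := by
    rw [← Finset.card_powersetCard, ← smul_eq_mul]
    apply Finset.sum_le_card_nsmul
    intro T1 hT1
    obtain ⟨hT1a, hT1b⟩ := Finset.mem_powersetCard.mp hT1
    have hc : ((Finset.univ \ T1).powersetCard t2).card = (n - t1).choose t2 := by
      rw [Finset.card_powersetCard, Finset.card_sdiff_of_subset (Finset.subset_univ _), Finset.card_univ,
        Fintype.card_fin, hT1b]
    rw [← hc, ← smul_eq_mul]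
    apply Finset.sum_le_card_nsmul
    intro T2 hT2
    obtain ⟨hT2a, hT2b⟩ := Finset.mem_powersetCard.mp hT2
    refine le_trans (Finset.card_le_card ?_) (few_small (W := W) (c := c) (S := S) (T1 := T1) L t2 hT2b)
    intro z hz
    obtain ⟨hz1, hz2⟩ := Finset.mem_filter.mp hz
    rw [Finset.mem_filter]
    exact ⟨hz1, rect_core hsub hclosed hR (fun i hi => (Finset.mem_sdiff.mp (hT2a hi)).2) z hz2⟩
  have h4 : (P.card : ℝ) * (ρ * (n - t1).choose t2) ≤
      2 * ((M.card.choose t1 : ℝ) * ((n - t1).choose t2 * (L * 2 ^ (n - t2)))) := by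
    refine h1.trans ?_
    rw [← Finset.mul_sum]
    apply mul_le_mul_of_nonneg_left _ (by norm_num)
    exact_mod_cast h2.trans h3
  have h5 : ((P.card : ℝ) * ρ) * (n - t1).choose t2 ≤
      (2 * (M.card.choose t1) * L * 2 ^ (n - t2)) * (n - t1).choose t2 := by
    calc ((P.card : ℝ) * ρ) * (n - t1).choose t2 = (P.card : ℝ) * (ρ * (n - t1).choose t2) := by ring
      _ ≤ _ := h4
      _ = _ := by ring
  exact le_of_mul_le_mul_right h5 hCpos

end Pool.Agent.KN
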