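import Pool.Agent.KN.Avg
import Mathlib.Analysis.SpecialFunctions.BinaryEntropy

/-! Rich pairs: many pairs (input, set of `t` coordinates) whose class contains many variants of the
input that differ from it only on these coordinates. -/

namespace Pool.Agent.KN

open Finset Pool.Agent.SemRO

section esymm

/-- lower bound for elementary symmetric sums -/
lemma esymm_lower {ι : Type*} [DecidableEq ι] (V : Finset ι) (x : ι → ℝ) {a b : ℝ}
    (hx0 : ∀ i ∈ V, 0 ≤ x i) (hxb : ∀ i ∈ V, x i ≤ b) (hb : 0 ≤ b) (t : ℕ)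
    (hsum : a + t * b ≤ ∑ i ∈ V, x i) (ha : 0 ≤ a) :
    a ^ t ≤ t.factorial * ∑ T ∈ V.powersetCard t, ∏ i ∈ T, x i := by
  have key : ∀ s : ℕ, s ≤ t → a ^ s ≤ s.factorial * ∑ T ∈ V.powersetCard s, ∏ i ∈ T, x i := by
    intro s
    induction s with
    | zero => intro _; simp
    | succ s ih =>
      intro hs
      have h1 := ih (by omega)
      have h2 := sum_insert_powerset V s (fun T => ∏ i ∈ T, x i)
      have h3 : a * ∑ T ∈ V.powersetCard s, ∏ i ∈ T, x i ≤
          (s + 1) * ∑ T ∈ V.powersetCard (s + 1), ∏ i ∈ T, x i := by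
        rw [← h2, Finset.mul_sum]
        refine Finset.sum_le_sum fun S hS => ?_
        obtain ⟨hS1, hS2⟩ := Finset.mem_powersetCard.mp hS
        have e1 : ∑ j ∈ V \ S, ∏ i ∈ insert j S, x i = (∑ j ∈ V \ S, x j) * ∏ i ∈ S, x i := by
          rw [Finset.sum_mul]
          refine Finset.sum_congr rfl fun j hj => ?_
          rw [Finset.prod_insert (Finset.mem_sdiff.mp hj).2]
        rw [e1]
        apply mul_le_mul_of_nonneg_right _ (Finset.prod_nonneg fun i hi => hx0 i (hS1 hi))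
        have e2 := Finset.sum_sdiff hS1 (f := x)
        have e3 : ∑ i ∈ S, x i ≤ s * b := by
          calc ∑ i ∈ S, x i ≤ ∑ _i ∈ S, b := Finset.sum_le_sum fun i hi => hxb i (hS1 hi)
            _ = s * b := by rw [Finset.sum_const, hS2, nsmul_eq_mul]
        have e4 : (s : ℝ) * b ≤ t * b := by
          apply mul_le_mul_of_nonneg_right _ hb
          exact_mod_cast (by omega : s ≤ t)
        linarith
      calc a ^ (s + 1) = a * a ^ s := by ring
        _ ≤ a * (s.factorial * ∑ T ∈ V.powersetCard s, ∏ i ∈ T, x i) :=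
          mul_le_mul_of_nonneg_left h1 ha
        _ = s.factorial * (a * ∑ T ∈ V.powersetCard s, ∏ i ∈ T, x i) := by ring
        _ ≤ s.factorial * ((s + 1) * ∑ T ∈ V.powersetCard (s + 1), ∏ i ∈ T, x i) :=
          mul_le_mul_of_nonneg_left h3 (by positivity)
        _ = (s + 1).factorial * ∑ T ∈ V.powersetCard (s + 1), ∏ i ∈ T, x i := by
          rw [Nat.factorial_succ]; push_cast; ring
  exact key t le_rfl

end esymm

variable {n R : ℕ}

/-- the measure of a set of points, seen off `T` -/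
lemma sum_image_off (p : Fin n → Bool → ℝ) (hp0 : ∀ i y, 0 ≤ p i y)
    (hp1 : ∀ i, p i false + p i true = 1) (T : Finset (Fin n)) (H : Finset (Fin n → Bool)) :
    ∑ y ∈ H.image (off T), ∏ i ∈ Tᶜ, p i (y i) ≤ 1 := by
  classical
  have h := Finset.prod_univ_sum
    (fun i : Fin n => if i ∈ T then ({false} : Finset Bool) else Finset.univ)
    (fun i y => if i ∈ T then (1 : ℝ) else p i y)
  have h1 : ∏ i, ∑ y ∈ (if i ∈ T then ({false} : Finset Bool) else Finset.univ),
      (if i ∈ T then (1 : ℝ) else p i y) = 1 := by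
    apply Finset.prod_eq_one
    intro i _
    by_cases hi : i ∈ T
    · simp [hi]
    · simp only [hi, if_false]
      rw [Fintype.sum_bool, add_comm]
      exact hp1 i
  rw [h1] at h
  rw [h]
  have h2 : ∀ y : Fin n → Bool, ∏ i, (if i ∈ T then (1 : ℝ) else p i (y i)) =
      ∏ i ∈ Tᶜ, p i (y i) := by
    intro y
    have h3 : ∏ i ∈ Tᶜ, p i (y i) = ∏ i ∈ Tᶜ, (if i ∈ T then (1 : ℝ) else p i (y i)) := by
      refine Finset.prod_congr rfl fun i hi => ?_
      rw [if_neg (Finset.mem_compl.mp hi)]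
    rw [h3]
    symm
    apply Finset.prod_subset (Finset.subset_univ _)
    intro i _ hi
    rw [if_pos (by simpa using hi)]
  rw [Finset.sum_congr rfl (fun y _ => h2 y)]
  apply Finset.sum_le_sum_of_subset_of_nonneg
  · intro y hy
    obtain ⟨z, _, rfl⟩ := Finset.mem_image.mp hy
    rw [Fintype.mem_piFinset]
    intro i
    unfold off
    by_cases hi : i ∈ T <;> simp [hi]
  · intro y _ _
    exact Finset.prod_nonneg fun i _ => hp0 i (y i)

/-- if few points of `G` lie above each point off `T`, then the measure off `T` of `H ⊆ G` is small -/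
lemma sum_off_le (p : Fin n → Bool → ℝ) (hp0 : ∀ i y, 0 ≤ p i y)
    (hp1 : ∀ i, p i false + p i true = 1) (T : Finset (Fin n)) (H : Finset (Fin n → Bool)) {K : ℝ}
    (hK : ∀ z ∈ H, ((fib H (off T) z).card : ℝ) ≤ K) (hK0 : 0 ≤ K) :
    ∑ z ∈ H, ∏ i ∈ Tᶜ, p i (z i) ≤ K := by
  classical
  have h1 := sum_div_fib H (off T) (fun y => ∏ i ∈ Tᶜ, p i (y i))
  have h2 : ∀ z : Fin n → Bool, ∏ i ∈ Tᶜ, p i (off T z i) = ∏ i ∈ Tᶜ, p i (z i) := by
    intro z
    refine Finset.prod_congr rfl fun i hi => ?_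
    unfold off
    rw [if_neg (Finset.mem_compl.mp hi)]
  calc ∑ z ∈ H, ∏ i ∈ Tᶜ, p i (z i)
      ≤ ∑ z ∈ H, K * ((∏ i ∈ Tᶜ, p i (off T z i)) / (fib H (off T) z).card) := by
        refine Finset.sum_le_sum fun z hz => ?_
        have h3 := fib_pos' (f := off T) hz
        have h4 : 0 ≤ ∏ i ∈ Tᶜ, p i (z i) := Finset.prod_nonneg fun i _ => hp0 i _
        rw [h2, mul_div_assoc', le_div_iff₀ h3, mul_comm]
        exact mul_le_mul_of_nonneg_right (hK z hz) h4
    _ = K * ∑ y ∈ H.image (off T), ∏ i ∈ Tᶜ, p i (y i) := by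
        rw [← h1, Finset.mul_sum]
    _ ≤ K * 1 := mul_le_mul_of_nonneg_left (sum_image_off p hp0 hp1 T H) hK0
    _ = K := mul_one K

variable {c : Fin R → (Fin n → Bool) → Fin n → Option Bool} {W : Finset (Fin n → Bool)}

/-- logarithmic density of a point of its class with respect to the product of the marginals -/
noncomputable def rho (W : Finset (Fin n → Bool)) (c : Fin R → (Fin n → Bool) → Fin n → Option Bool)
    (M : Finset (Fin n)) (S : Finset (Fin R)) (z : Fin n → Bool) : ℝ :=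
  Real.log (fib W (uu c M S) z).card + ∑ i, Real.log (qs W c M S i z)

lemma sum_neg_rho (M : Finset (Fin n)) (S : Finset (Fin R)) :
    ∑ z ∈ W, - rho W c M S z = TC W c M S := by
  rw [← TC_eq]
  refine Finset.sum_congr rfl fun z _ => ?_
  unfold rho
  rw [Finset.sum_neg_distrib]
  ring

lemma exp_rho {M : Finset (Fin n)} {S : Finset (Fin R)} {z : Fin n → Bool} (hz : z ∈ W) :
    Real.exp (rho W c M S z) = (fib W (uu c M S) z).card * ∏ i, qs W c M S i z := by
  unfold rho
  rw [Real.exp_add, Real.exp_log (fib_pos' hz), Real.exp_sum]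
  congr 1
  refine Finset.prod_congr rfl fun i _ => ?_
  rw [Real.exp_log (qs_pos hz i)]

lemma sum_exp_rho (M : Finset (Fin n)) (S : Finset (Fin R)) :
    ∑ z ∈ W, Real.exp (rho W c M S z) ≤ W.card := by
  have : (W.card : ℝ) = ∑ z ∈ W, (1 : ℝ) := by simp
  rw [this]
  apply sum_le_of_fib W (uu c M S)
  intro z hz
  set G := fib W (uu c M S) z with hGdef
  have hGw : ∀ w ∈ G, fib W (uu c M S) w = G := fun w hw => fib_congr (mem_fib.mp hw).2
  have hne : G.Nonempty := ⟨z, self_mem_fib hz⟩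
  have h1 : ∑ w ∈ G, Real.exp (rho W c M S w) = G.card * mass (marg G) G := by
    unfold mass
    rw [Finset.mul_sum]
    refine Finset.sum_congr rfl fun w hw => ?_
    rw [exp_rho (mem_fib.mp hw).1, hGw w hw]
    congr 1
    refine Finset.prod_congr rfl fun i _ => ?_
    unfold qs qq
    rw [hGw w hw]
  have h2 := mass_mono (marg_nonneg G) (Finset.subset_univ G)
  rw [mass_univ (marg_sum hne)] at h2
  rw [h1, Finset.sum_const, nsmul_eq_mul]
  exact mul_le_mul_of_nonneg_left h2 (Nat.cast_nonneg _)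

open Classical in
/-- few points have small density -/
lemma card_small_rho (M : Finset (Fin n)) (S : Finset (Fin R)) {τ : ℝ} :
    τ * (W.filter (fun z => rho W c M S z < - τ)).card ≤ TC W c M S + W.card := by
  have h1 := sum_neg_rho (W := W) (c := c) M S
  have h2 := sum_exp_rho (W := W) (c := c) M S
  rw [← Finset.sum_filter_add_sum_filter_not W (fun z => rho W c M S z < - τ)] at h1
  have h3 : (W.filter (fun z => rho W c M S z < - τ)).card * τ ≤
      ∑ z ∈ W.filter (fun z => rho W c M S z < - τ), - rho W c M S z := by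
    rw [← nsmul_eq_mul, ← Finset.sum_const]
    refine Finset.sum_le_sum fun z hz => ?_
    have := (Finset.mem_filter.mp hz).2
    linarith
  have h4 : - ∑ z ∈ W, Real.exp (rho W c M S z) ≤
      ∑ z ∈ W.filter (fun z => ¬ rho W c M S z < - τ), - rho W c M S z := by
    calc - ∑ z ∈ W, Real.exp (rho W c M S z)
        ≤ - ∑ z ∈ W.filter (fun z => ¬ rho W c M S z < - τ), Real.exp (rho W c M S z) := by
          rw [neg_le_neg_iff]
          exact Finset.sum_le_sum_of_subset_of_nonneg (Finset.filter_subset _ _)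
            fun z _ _ => (Real.exp_pos _).le
      _ = ∑ z ∈ W.filter (fun z => ¬ rho W c M S z < - τ), - Real.exp (rho W c M S z) := by
          rw [Finset.sum_neg_distrib]
      _ ≤ _ := by
          refine Finset.sum_le_sum fun z _ => ?_
          have := Real.add_one_le_exp (rho W c M S z)
          linarith
  linarith

/-- coordinates with both marginals at least `b` in the class `G` -/
noncomputable def Vf (M : Finset (Fin n)) (b : ℝ) (G : Finset (Fin n → Bool)) : Finset (Fin n) :=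
  open Classical in M.filter (fun i => b ≤ marg G i false ∧ b ≤ marg G i true)

lemma mem_Vf {M : Finset (Fin n)} {b : ℝ} {G : Finset (Fin n → Bool)} {i : Fin n} :
    i ∈ Vf M b G ↔ i ∈ M ∧ b ≤ marg G i false ∧ b ≤ marg G i true := by
  classical
  simp [Vf]

lemma Vf_marg {M : Finset (Fin n)} {b : ℝ} {G : Finset (Fin n → Bool)} {i : Fin n}
    (h : i ∈ Vf M b G) (y : Bool) : b ≤ marg G i y := by
  have := (mem_Vf.mp h).2
  cases y
  · exact this.1
  · exact this.2

lemma class_entropy (G : Finset (Fin n → Bool)) (hne : G.Nonempty) (i : Fin n) :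
    ∑ w ∈ G, - Real.log (marg G i (w i)) = G.card * Real.binEntropy (marg G i false) := by
  rw [class_sum G i (fun y => - Real.log y)]
  congr 1
  have h1 : marg G i true = 1 - marg G i false := by
    have := marg_sum hne i; linarith
  unfold Real.binEntropy
  rw [Real.log_inv, Real.log_inv, h1]

/-- many classes have many undecided coordinates -/
lemma sum_card_Vf (M : Finset (Fin n)) (S : Finset (Fin R)) {b H : ℝ} (hb0 : 0 ≤ b)
    (hb1 : b ≤ 1 / 2) (hH : Real.binEntropy b ≤ H) :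
    Gs W c M S ≤ ∑ z ∈ W, (Real.log 2 * (Vf M b (fib W (uu c M S) z)).card + H * M.card) := by
  classical
  have h0 := TC_nonneg (W := W) (c := c) M S
  rw [← TC_eq] at h0
  have h1 : Gs W c M S ≤ ∑ z ∈ W, ∑ i ∈ M, - Real.log (qs W c M S i z) := by
    rw [Finset.sum_sub_distrib] at h0
    have e4 : ∑ z ∈ W, Real.log ((fib W (uu c M S) z).card : ℝ) = Gs W c M S := rfl
    rw [e4] at h0
    have e5 : ∑ z ∈ W, ∑ i, - Real.log (qs W c M S i z) =
        ∑ z ∈ W, ∑ i ∈ M, - Real.log (qs W c M S i z) := by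
      refine Finset.sum_congr rfl fun z hz => ?_
      symm
      apply Finset.sum_subset (Finset.subset_univ M)
      intro i _ hi
      rw [qs_off hz hi]; simp
    rw [e5] at h0
    linarith
  refine h1.trans ?_
  apply sum_le_of_fib W (uu c M S)
  intro z hz
  set G := fib W (uu c M S) z with hGdef
  have hGw : ∀ w ∈ G, fib W (uu c M S) w = G := fun w hw => fib_congr (mem_fib.mp hw).2
  have hne : G.Nonempty := ⟨z, self_mem_fib hz⟩
  have e1 : ∑ w ∈ G, ∑ i ∈ M, - Real.log (qs W c M S i w) =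
      ∑ i ∈ M, G.card * Real.binEntropy (marg G i false) := by
    rw [Finset.sum_comm]
    refine Finset.sum_congr rfl fun i _ => ?_
    rw [← class_entropy G hne]
    refine Finset.sum_congr rfl fun w hw => ?_
    unfold qs qq; rw [hGw w hw]
  have e2 : ∑ w ∈ G, (Real.log 2 * (Vf M b (fib W (uu c M S) w)).card + H * M.card) =
      G.card * (Real.log 2 * (Vf M b G).card + H * M.card) := by
    rw [← nsmul_eq_mul, ← Finset.sum_const]
    refine Finset.sum_congr rfl fun w hw => ?_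
    rw [hGw w hw]
  rw [e1, e2, ← Finset.mul_sum]
  apply mul_le_mul_of_nonneg_left _ (Nat.cast_nonneg _)
  have hbe : ∀ y : ℝ, 0 ≤ y → y < b → Real.binEntropy y ≤ Real.binEntropy b := by
    intro y hy0 hyl
    apply (Real.binEntropy_strictMonoOn.monotoneOn)
    · constructor
      · exact hy0
      · norm_num; linarith
    · constructor
      · exact hb0
      · norm_num; linarith
    · exact hyl.le
  calc ∑ i ∈ M, Real.binEntropy (marg G i false)
      ≤ ∑ i ∈ M, ((if i ∈ Vf M b G then Real.log 2 else 0) + H) := by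
        refine Finset.sum_le_sum fun i hi => ?_
        have hH0 : 0 ≤ H := (Real.binEntropy_nonneg hb0 (by linarith)).trans hH
        by_cases hV : i ∈ Vf M b G
        · rw [if_pos hV]
          have := Real.binEntropy_le_log_two (p := marg G i false)
          linarith
        · rw [if_neg hV, zero_add]
          have h3 : marg G i false < b ∨ marg G i true < b := by
            by_contra hcon
            push Not at hcon
            exact hV (mem_Vf.mpr ⟨hi, hcon⟩)
          have h4 : marg G i true = 1 - marg G i false := by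
            have := marg_sum hne i; linarith
          rcases h3 with h3 | h3
          · exact (hbe _ (marg_nonneg _ _ _) h3).trans hH
          · rw [← Real.binEntropy_one_sub, ← h4]
            exact (hbe _ (marg_nonneg _ _ _) h3).trans hH
    _ = Real.log 2 * (Vf M b G).card + H * M.card := by
        rw [Finset.sum_add_distrib, Finset.sum_const, nsmul_eq_mul, ← Finset.sum_filter,
          Finset.sum_const, nsmul_eq_mul]
        have : M.filter (fun i => i ∈ Vf M b G) = Vf M b G := by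
          ext i
          simp only [Finset.mem_filter]
          exact ⟨fun h => h.2, fun h => ⟨(mem_Vf.mp h).1, h⟩⟩
        rw [this]
        ring

open Classical in
/-- `v` chosen undecided coordinates of a class -/
noncomputable def Vc (M : Finset (Fin n)) (b : ℝ) (v : ℕ) (G : Finset (Fin n → Bool)) :
    Finset (Fin n) :=
  if h : v ≤ (Vf M b G).card then (Finset.exists_subset_card_eq h).choose else ∅

lemma Vc_sub (M : Finset (Fin n)) (b : ℝ) (v : ℕ) (G : Finset (Fin n → Bool)) :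
    Vc M b v G ⊆ Vf M b G := by
  unfold Vc
  split_ifs with h
  · exact (Finset.exists_subset_card_eq h).choose_spec.1
  · exact Finset.empty_subset _

lemma Vc_card {M : Finset (Fin n)} {b : ℝ} {v : ℕ} {G : Finset (Fin n → Bool)}
    (h : v ≤ (Vf M b G).card) : (Vc M b v G).card = v := by
  unfold Vc
  rw [dif_pos h]
  exact (Finset.exists_subset_card_eq h).choose_spec.2

lemma Vc_card_le (M : Finset (Fin n)) (b : ℝ) (v : ℕ) (G : Finset (Fin n → Bool)) :
    (Vc M b v G).card ≤ v := by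
  by_cases h : v ≤ (Vf M b G).card
  · rw [Vc_card h]
  · unfold Vc
    rw [dif_neg h]
    simp

lemma Vc_empty {M : Finset (Fin n)} {b : ℝ} {v : ℕ} {G : Finset (Fin n → Bool)}
    (h : ¬ v ≤ (Vf M b G).card) : Vc M b v G = ∅ := by
  unfold Vc
  rw [dif_neg h]

lemma class_inv (G : Finset (Fin n → Bool)) {b : ℝ} (hb : 0 < b) (M V : Finset (Fin n))
    (hV : V ⊆ Vf M b G) :
    ∑ w ∈ G, ∑ i ∈ V, (marg G i (w i))⁻¹ = G.card * (2 * V.card) := by
  rw [Finset.sum_comm]
  have h1 : ∀ i ∈ V, ∑ w ∈ G, (marg G i (w i))⁻¹ = G.card * 2 := by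
    intro i hi
    rw [class_sum G i (fun y => y⁻¹)]
    have h2 : 0 < marg G i false := hb.trans_le (Vf_marg (hV hi) false)
    have h3 : 0 < marg G i true := hb.trans_le (Vf_marg (hV hi) true)
    rw [mul_inv_cancel₀ h2.ne', mul_inv_cancel₀ h3.ne']
    norm_num
  rw [Finset.sum_congr rfl h1, Finset.sum_const, nsmul_eq_mul]
  ring

lemma qs_class {M : Finset (Fin n)} {S : Finset (Fin R)} {z w : Fin n → Bool} (i : Fin n)
    (hw : w ∈ fib W (uu c M S) z) : qs W c M S i w = marg (fib W (uu c M S) z) i (w i) := by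
  unfold qs qq
  rw [fib_congr (mem_fib.mp hw).2]

open Classical in
/-- many points have a large sum of inverse marginals -/
lemma card_good (M : Finset (Fin n)) (S : Finset (Fin R)) {b : ℝ} (hb : 0 < b) {v : ℕ}
    (hv : 1 ≤ v) :
    b / 10 * ((W.filter (fun z => v ≤ (Vf M b (fib W (uu c M S) z)).card)).card : ℝ) ≤
      ((W.filter (fun z => v ≤ (Vf M b (fib W (uu c M S) z)).card ∧
        1.9 * (v : ℝ) ≤ ∑ i ∈ Vc M b v (fib W (uu c M S) z), (qs W c M S i z)⁻¹)).card : ℝ) := by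
  set W1 := W.filter (fun z => v ≤ (Vf M b (fib W (uu c M S) z)).card) with hW1
  set W2 := W.filter (fun z => v ≤ (Vf M b (fib W (uu c M S) z)).card ∧
        1.9 * (v : ℝ) ≤ ∑ i ∈ Vc M b v (fib W (uu c M S) z), (qs W c M S i z)⁻¹) with hW2
  have hv' : (1 : ℝ) ≤ v := by exact_mod_cast hv
  have hsub : W2 ⊆ W1 := by
    intro z hz
    obtain ⟨h1, h2, _⟩ := Finset.mem_filter.mp hz
    exact Finset.mem_filter.mpr ⟨h1, h2⟩
  have h1 : ∑ z ∈ W, (if z ∈ W1 then 2 * (v : ℝ) else 0) ≤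
      ∑ z ∈ W, ∑ i ∈ Vc M b v (fib W (uu c M S) z), (qs W c M S i z)⁻¹ := by
    apply sum_le_of_fib W (uu c M S)
    intro z hz
    set G := fib W (uu c M S) z with hGdef
    have hGw : ∀ w ∈ G, fib W (uu c M S) w = G := fun w hw => fib_congr (mem_fib.mp hw).2
    have e1 : ∑ w ∈ G, ∑ i ∈ Vc M b v (fib W (uu c M S) w), (qs W c M S i w)⁻¹ =
        G.card * (2 * (Vc M b v G).card) := by
      rw [← class_inv G hb M _ (Vc_sub M b v G)]
      refine Finset.sum_congr rfl fun w hw => ?_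
      rw [hGw w hw]
      refine Finset.sum_congr rfl fun i _ => ?_
      rw [qs_class i hw]
    rw [e1]
    by_cases h : v ≤ (Vf M b G).card
    · rw [Vc_card h, ← nsmul_eq_mul, ← Finset.sum_const]
      refine Finset.sum_le_sum fun w _ => ?_
      split_ifs
      · exact le_rfl
      · positivity
    · have : ∀ w ∈ G, (if w ∈ W1 then 2 * (v : ℝ) else 0) = 0 := by
        intro w hw
        rw [if_neg]
        intro h2
        have h3 := (Finset.mem_filter.mp h2).2
        rw [hGw w hw] at h3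
        exact h h3
      rw [Finset.sum_congr rfl this, Finset.sum_const_zero]
      positivity
  have h2 : ∑ z ∈ W, ∑ i ∈ Vc M b v (fib W (uu c M S) z), (qs W c M S i z)⁻¹ ≤
      ∑ z ∈ W, ((if z ∈ W2 then (v : ℝ) / b else 0) + (if z ∈ W1 then 1.9 * (v : ℝ) else 0)) := by
    refine Finset.sum_le_sum fun z hz => ?_
    by_cases hz1 : z ∈ W1
    · rw [if_pos hz1]
      by_cases hz2 : z ∈ W2
      · rw [if_pos hz2]
        have h3 : ∑ i ∈ Vc M b v (fib W (uu c M S) z), (qs W c M S i z)⁻¹ ≤ v / b := by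
          calc ∑ i ∈ Vc M b v (fib W (uu c M S) z), (qs W c M S i z)⁻¹
              ≤ ∑ _i ∈ Vc M b v (fib W (uu c M S) z), b⁻¹ := by
                refine Finset.sum_le_sum fun i hi => ?_
                apply inv_anti₀ hb
                rw [qs_class i (self_mem_fib hz)]
                exact Vf_marg (Vc_sub _ _ _ _ hi) _
            _ = (Vc M b v (fib W (uu c M S) z)).card * b⁻¹ := by
                rw [Finset.sum_const, nsmul_eq_mul]
            _ ≤ v * b⁻¹ := by
                apply mul_le_mul_of_nonneg_right _ (by positivity)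
                exact_mod_cast Vc_card_le _ _ _ _
            _ = v / b := by rw [div_eq_mul_inv]
        have : (0 : ℝ) ≤ 1.9 * v := by positivity
        linarith
      · rw [if_neg hz2, zero_add]
        by_contra hcon
        push Not at hcon
        exact hz2 (Finset.mem_filter.mpr ⟨hz, (Finset.mem_filter.mp hz1).2, hcon.le⟩)
    · rw [if_neg hz1, if_neg (fun h => hz1 (hsub h))]
      have h3 : ¬ v ≤ (Vf M b (fib W (uu c M S) z)).card := fun h =>
        hz1 (Finset.mem_filter.mpr ⟨hz, h⟩)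
      rw [Vc_empty h3]
      simp
  have h3 := h1.trans h2
  rw [Finset.sum_add_distrib] at h3
  have hW1W : W1 ⊆ W := Finset.filter_subset _ _
  have hW2W : W2 ⊆ W := Finset.filter_subset _ _
  have e : ∀ (A : Finset (Fin n → Bool)) (a : ℝ), A ⊆ W →
      ∑ z ∈ W, (if z ∈ A then a else 0) = A.card * a := by
    intro A a hA
    rw [← Finset.sum_filter, Finset.sum_const, nsmul_eq_mul]
    congr 3
    ext z
    simp only [Finset.mem_filter]
    exact ⟨fun h => h.2, fun h => ⟨hA h, h⟩⟩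
  rw [e W1 _ hW1W, e W1 _ hW1W, e W2 _ hW2W] at h3
  have h4 : (W1.card : ℝ) * (0.1 * v) ≤ W2.card * (v / b) := by linarith
  have h5 : (W1.card : ℝ) * 0.1 ≤ W2.card / b := by
    have h6 : (W1.card : ℝ) * 0.1 * v ≤ W2.card / b * v := by
      calc (W1.card : ℝ) * 0.1 * v = W1.card * (0.1 * v) := by ring
        _ ≤ W2.card * (v / b) := h4
        _ = W2.card / b * v := by ring
    exact le_of_mul_le_mul_right h6 (by linarith)
  rw [le_div_iff₀ hb] at h5
  linarith

open Classical in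
/-- the pairs that are not rich have small weight -/
lemma nonrich (M : Finset (Fin n)) (S : Finset (Fin R)) {b : ℝ} {v t : ℕ} {τ K : ℝ}
    (hK0 : 0 ≤ K) (W3 : Finset (Fin n → Bool)) (hW3 : W3 ⊆ W)
    (hrho : ∀ z ∈ W3, - τ ≤ rho W c M S z) :
    ∑ z ∈ W3, ∑ T ∈ ((Vc M b v (fib W (uu c M S) z)).powersetCard t).filter
        (fun T => ¬ K ≤ ((fib W (uu c T S) z).card : ℝ)), ∏ i ∈ T, (qs W c M S i z)⁻¹ ≤
      W.card * (v.choose t * (Real.exp τ * K)) := by
  have e0 : ∑ z ∈ W3, ∑ T ∈ ((Vc M b v (fib W (uu c M S) z)).powersetCard t).filter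
        (fun T => ¬ K ≤ ((fib W (uu c T S) z).card : ℝ)), ∏ i ∈ T, (qs W c M S i z)⁻¹ =
      ∑ z ∈ W, (if z ∈ W3 then ∑ T ∈ ((Vc M b v (fib W (uu c M S) z)).powersetCard t).filter
        (fun T => ¬ K ≤ ((fib W (uu c T S) z).card : ℝ)), ∏ i ∈ T, (qs W c M S i z)⁻¹ else 0) := by
    rw [← Finset.sum_filter]
    refine Finset.sum_congr ?_ fun _ _ => rfl
    ext z
    simp only [Finset.mem_filter]
    exact ⟨fun h => ⟨hW3 h, h⟩, fun h => h.2⟩
  have e0' : (W.card : ℝ) * (v.choose t * (Real.exp τ * K)) =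
      ∑ _z ∈ W, ((v.choose t : ℝ) * (Real.exp τ * K)) := by
    rw [Finset.sum_const, nsmul_eq_mul]
  rw [e0, e0']
  apply sum_le_of_fib W (uu c M S)
  intro z hz
  set G := fib W (uu c M S) z with hGdef
  have hGw : ∀ w ∈ G, fib W (uu c M S) w = G := fun w hw => fib_congr (mem_fib.mp hw).2
  have hne : G.Nonempty := ⟨z, self_mem_fib hz⟩
  have hG0 : (0 : ℝ) < G.card := Nat.cast_pos.mpr (Finset.card_pos.mpr hne)
  set V := Vc M b v G with hV
  have hVM : V ⊆ M := fun i hi => (mem_Vf.mp (Vc_sub _ _ _ _ hi)).1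
  have e1 : ∑ w ∈ G, (if w ∈ W3 then ∑ T ∈ ((Vc M b v (fib W (uu c M S) w)).powersetCard t).filter
        (fun T => ¬ K ≤ ((fib W (uu c T S) w).card : ℝ)), ∏ i ∈ T, (qs W c M S i w)⁻¹ else 0) =
      ∑ T ∈ V.powersetCard t, ∑ w ∈ G.filter (fun w => w ∈ W3 ∧
        ¬ K ≤ ((fib W (uu c T S) w).card : ℝ)), ∏ i ∈ T, (qs W c M S i w)⁻¹ := by
    have e2 : ∀ w ∈ G, (if w ∈ W3 then
        ∑ T ∈ ((Vc M b v (fib W (uu c M S) w)).powersetCard t).filter
        (fun T => ¬ K ≤ ((fib W (uu c T S) w).card : ℝ)), ∏ i ∈ T, (qs W c M S i w)⁻¹ else 0) =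
        ∑ T ∈ V.powersetCard t, (if w ∈ W3 ∧ ¬ K ≤ ((fib W (uu c T S) w).card : ℝ) then
          ∏ i ∈ T, (qs W c M S i w)⁻¹ else 0) := by
      intro w hw
      rw [hGw w hw, ← hV]
      by_cases hw3 : w ∈ W3
      · rw [if_pos hw3, Finset.sum_filter]
        refine Finset.sum_congr rfl fun T _ => ?_
        simp only [hw3, true_and]
      · rw [if_neg hw3]
        symm
        apply Finset.sum_eq_zero
        intro T _
        rw [if_neg (fun h => hw3 h.1)]
    rw [Finset.sum_congr rfl e2, Finset.sum_comm]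
    refine Finset.sum_congr rfl fun T _ => ?_
    rw [Finset.sum_filter]
  rw [e1]
  have e3 : ∀ T ∈ V.powersetCard t, ∑ w ∈ G.filter (fun w => w ∈ W3 ∧
        ¬ K ≤ ((fib W (uu c T S) w).card : ℝ)), ∏ i ∈ T, (qs W c M S i w)⁻¹ ≤
        G.card * (Real.exp τ * K) := by
    intro T hT
    have hTM : T ⊆ M := (Finset.mem_powersetCard.mp hT).1.trans hVM
    set H := G.filter (fun w => w ∈ W3 ∧ ¬ K ≤ ((fib W (uu c T S) w).card : ℝ)) with hH
    have h1 : ∀ w ∈ H, ∏ i ∈ T, (qs W c M S i w)⁻¹ ≤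
        (G.card * Real.exp τ) * ∏ i ∈ Tᶜ, marg G i (w i) := by
      intro w hw
      obtain ⟨hwG, hw3, _⟩ := Finset.mem_filter.mp hw
      have hwW : w ∈ W := hW3 hw3
      have h2 := exp_rho (c := c) (M := M) (S := S) hwW
      have h3 := Real.exp_le_exp.mpr (hrho w hw3)
      rw [h2, hGw w hwG, ← Finset.prod_mul_prod_compl T] at h3
      have h4 : ∏ i ∈ Tᶜ, qs W c M S i w = ∏ i ∈ Tᶜ, marg G i (w i) :=
        Finset.prod_congr rfl fun i _ => qs_class i hwG
      rw [h4] at h3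
      have h5 : 0 < ∏ i ∈ T, qs W c M S i w := Finset.prod_pos fun i _ => qs_pos hwW i
      rw [Finset.prod_inv_distrib, inv_le_iff_one_le_mul₀ h5]
      calc (1 : ℝ) = Real.exp (-τ) * Real.exp τ := by rw [← Real.exp_add]; simp
        _ ≤ (G.card * ((∏ i ∈ T, qs W c M S i w) * ∏ i ∈ Tᶜ, marg G i (w i))) * Real.exp τ :=
          mul_le_mul_of_nonneg_right h3 (Real.exp_pos _).le
        _ = _ := by ring
    refine (Finset.sum_le_sum h1).trans ?_
    rw [← Finset.mul_sum]
    have h2 := sum_off_le (marg G) (marg_nonneg G) (marg_sum hne) T H (K := K) (by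
      intro w hw
      obtain ⟨hwG, _, hwK⟩ := Finset.mem_filter.mp hw
      push Not at hwK
      refine le_trans ?_ hwK.le
      have : fib H (off T) w ⊆ fib W (uu c T S) w := by
        intro x hx
        obtain ⟨hx1, hx2⟩ := mem_fib.mp hx
        have hxG := (Finset.mem_filter.mp hx1).1
        refine mem_fib.mpr ⟨(mem_fib.mp hxG).1, ?_⟩
        rw [uu_eq_iff]
        refine ⟨off_eq_iff.mp hx2, fun j hj => ?_⟩
        rw [(uu_eq_iff.mp (mem_fib.mp hxG).2).2 j hj, (uu_eq_iff.mp (mem_fib.mp hwG).2).2 j hj]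
      exact_mod_cast Finset.card_le_card this) hK0
    calc (G.card * Real.exp τ) * ∑ w ∈ H, ∏ i ∈ Tᶜ, marg G i (w i)
        ≤ (G.card * Real.exp τ) * K := mul_le_mul_of_nonneg_left h2 (by positivity)
      _ = _ := by ring
  refine (Finset.sum_le_sum e3).trans ?_
  rw [Finset.sum_const, Finset.sum_const, nsmul_eq_mul, nsmul_eq_mul, Finset.card_powersetCard]
  have h6 : ((V.card.choose t : ℕ) : ℝ) ≤ v.choose t := by
    exact_mod_cast Nat.choose_le_choose t (Vc_card_le _ _ _ _)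
  calc ((V.card.choose t : ℕ) : ℝ) * (G.card * (Real.exp τ * K))
      ≤ v.choose t * (G.card * (Real.exp τ * K)) :=
        mul_le_mul_of_nonneg_right h6 (by positivity)
    _ = _ := by ring


lemma binEntropy_sq_le' {w : ℝ} (hw0 : 0 < w) (hw1 : w ≤ 1) : Real.binEntropy (w ^ 2) ≤ 2 * w := by
  have hl0 : 0 < w ^ 2 := by positivity
  have hl1 : w ^ 2 ≤ 1 := pow_le_one₀ hw0.le hw1
  rw [← mul_hh hl0.le]
  have h1 := hh_le hl0 hl1
  have h2 := x_log_sq hl0 hl1
  have h3 : w ^ 2 * Real.log (w ^ 2) ^ 2 ≤ 1 := by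
    refine h2.trans ?_
    have h4 : 0 ≤ 1 - w ^ 2 := by linarith
    have h5 : 1 - w ^ 2 ≤ 1 := by linarith
    exact pow_le_one₀ h4 h5
  have h4 : w * -Real.log (w ^ 2) ≤ 1 := by
    have h5 : (w * -Real.log (w ^ 2)) ^ 2 ≤ 1 := by
      calc (w * -Real.log (w ^ 2)) ^ 2 = w ^ 2 * Real.log (w ^ 2) ^ 2 := by ring
        _ ≤ 1 := h3
    exact (abs_le.mp ((sq_le_one_iff_abs_le_one _).mp h5)).2
  have h5 : w ^ 2 * hh (w ^ 2) ≤ w ^ 2 * (-Real.log (w ^ 2) + 1) :=
    mul_le_mul_of_nonneg_left h1 hl0.le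
  have h6 : w ^ 2 * (-Real.log (w ^ 2) + 1) = w * (w * -Real.log (w ^ 2)) + w * w := by ring
  have h7 : w * (w * -Real.log (w ^ 2)) ≤ w * 1 := mul_le_mul_of_nonneg_left h4 hw0.le
  have h8 : w * w ≤ w * 1 := mul_le_mul_of_nonneg_left hw1 hw0.le
  linarith

lemma two_rpow_08 : (2 : ℝ) ^ (0.8 : ℝ) ≤ 1.7412 := by
  have h1 : ((2 : ℝ) ^ (0.8 : ℝ)) ^ 5 = 16 := by
    rw [← Real.rpow_natCast, ← Real.rpow_mul (by norm_num)]
    norm_num
  by_contra hcon
  push Not at hcon
  have h2 : (1.7412 : ℝ) ^ 5 < ((2 : ℝ) ^ (0.8 : ℝ)) ^ 5 :=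
    pow_lt_pow_left₀ hcon (by norm_num) (by norm_num)
  rw [h1] at h2
  norm_num at h2

lemma exp_001 : Real.exp (0.01 : ℝ) ≤ 1.0102 := by
  have h2 : Real.exp (0.01 : ℝ) ≤ 1 / (1 - 0.01) := by
    have h3 := Real.add_one_le_exp (-0.01 : ℝ)
    rw [Real.exp_neg] at h3
    rw [le_div_iff₀ (by norm_num)]
    have h4 := Real.exp_pos (0.01 : ℝ)
    have h5 : (-0.01 + 1) * Real.exp 0.01 ≤ 1 := by
      calc (-0.01 + 1) * Real.exp 0.01 ≤ (Real.exp 0.01)⁻¹ * Real.exp 0.01 :=
            mul_le_mul_of_nonneg_right h3 h4.le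
        _ = 1 := inv_mul_cancel₀ h4.ne'
    linarith
  refine h2.trans ?_
  norm_num

open Classical in
/-- **Rich pairs.** -/
theorem rich_pairs (hW : W.Nonempty)
    (M : Finset (Fin n)) (S : Finset (Fin R)) {Φ b0 : ℝ} (hΦ0 : 0 < Φ) (hΦ1 : Φ ≤ 1)
    (hb0 : b0 = Φ ^ 2 / 16) (hent : Φ * (W.card * M.card) ≤ Gs W c M S) (v0 t1 : ℕ) (hv : 1 ≤ v0)
    (hv0 : (v0 : ℝ) ≤ Φ * M.card / 4) (ht : 1 ≤ t1) (ht1 : (t1 : ℝ) ≤ b0 * v0 / 10)
    (hTC : TC W c M S + W.card ≤ b0 * Φ * t1 * W.card / 4000)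
    (hlarge : 100 / (b0 * Φ) ≤ (1.02 : ℝ) ^ t1) :
    W.card * (b0 * Φ / 100) * (1.8 * b0 * v0) ^ t1 ≤
      t1.factorial * (((W ×ˢ M.powersetCard t1).filter (fun p =>
        (∀ i ∈ p.2, qs W c M S i p.1 < 1) ∧
        (2 : ℝ) ^ (0.8 * (t1 : ℝ)) ≤ (fib W (uu c p.2 S) p.1).card)).card : ℝ) := by
  have hWc : (0 : ℝ) < W.card := Nat.cast_pos.mpr (Finset.card_pos.mpr hW)
  have hb : 0 < b0 := by rw [hb0]; positivity
  have hb1 : b0 ≤ 1 / 16 := by
    rw [hb0]
    have : Φ ^ 2 ≤ 1 := pow_le_one₀ hΦ0.le hΦ1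
    linarith
  have hv' : (1 : ℝ) ≤ v0 := by exact_mod_cast hv
  have ht' : (1 : ℝ) ≤ t1 := by exact_mod_cast ht
  have hM0 : (0 : ℝ) < M.card := by
    by_contra hcon
    have : (M.card : ℝ) = 0 := le_antisymm (not_lt.mp hcon) (Nat.cast_nonneg _)
    rw [this] at hv0
    linarith
  -- the set W1
  obtain ⟨W1, hW1⟩ : ∃ W1, W1 = W.filter (fun z => v0 ≤ (Vf M b0 (fib W (uu c M S) z)).card) :=
    ⟨_, rfl⟩
  have hH : Real.binEntropy b0 ≤ Φ / 2 := by
    have h1 := binEntropy_sq_le' (w := Φ / 4) (by positivity) (by linarith)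
    have h2 : (Φ / 4) ^ 2 = b0 := by rw [hb0]; ring
    rw [h2] at h1
    linarith
  have hent2 := hent.trans (sum_card_Vf (W := W) (c := c) M S hb.le (by linarith) hH)
  have hW1c : 0.45 * Φ * W.card ≤ W1.card := by
    have h1 : ∑ z ∈ W, (Real.log 2 * (Vf M b0 (fib W (uu c M S) z)).card + Φ / 2 * M.card) ≤
        ∑ z ∈ W, (Real.log 2 * ((if z ∈ W1 then (M.card : ℝ) else 0) + Φ * M.card / 4) +
          Φ / 2 * M.card) := by
      refine Finset.sum_le_sum fun z hz => ?_
      have hl : 0 ≤ Real.log 2 := Real.log_nonneg (by norm_num)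
      have h2 : ((Vf M b0 (fib W (uu c M S) z)).card : ℝ) ≤
          (if z ∈ W1 then (M.card : ℝ) else 0) + Φ * M.card / 4 := by
        by_cases hz1 : z ∈ W1
        · rw [if_pos hz1]
          have h3 : ((Vf M b0 (fib W (uu c M S) z)).card : ℝ) ≤ M.card := by
            exact_mod_cast Finset.card_le_card fun i hi => (mem_Vf.mp hi).1
          have : 0 ≤ Φ * M.card / 4 := by positivity
          linarith
        · rw [if_neg hz1, zero_add]
          have h3 : ¬ v0 ≤ (Vf M b0 (fib W (uu c M S) z)).card := fun h => hz1 (by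
            rw [hW1]; exact Finset.mem_filter.mpr ⟨hz, h⟩)
          push Not at h3
          have h4 : ((Vf M b0 (fib W (uu c M S) z)).card : ℝ) ≤ v0 := by exact_mod_cast h3.le
          linarith
      have := mul_le_mul_of_nonneg_left h2 hl
      linarith
    have h2 := hent2.trans h1
    rw [Finset.sum_add_distrib, ← Finset.mul_sum, Finset.sum_add_distrib, ← Finset.sum_filter,
      Finset.sum_const, Finset.sum_const, Finset.sum_const, nsmul_eq_mul, nsmul_eq_mul,
      nsmul_eq_mul] at h2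
    have h3 : W.filter (fun z => z ∈ W1) = W1 := by
      ext z
      simp only [Finset.mem_filter]
      exact ⟨fun h => h.2, fun h => ⟨by rw [hW1] at h; exact (Finset.mem_filter.mp h).1, h⟩⟩
    rw [h3] at h2
    have hl2 : Real.log 2 < 0.6931471808 := Real.log_two_lt_d9
    have h4 : Real.log 2 * (W1.card * M.card + W.card * (Φ * M.card / 4)) ≤
        0.6931471808 * (W1.card * M.card + W.card * (Φ * M.card / 4)) :=
      mul_le_mul_of_nonneg_right hl2.le (by positivity)
    have h5 : (0.45 * Φ * W.card) * M.card ≤ W1.card * M.card := by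
      have h6 : 0 ≤ Φ * (W.card * M.card) := by positivity
      nlinarith
    exact le_of_mul_le_mul_right h5 hM0
  -- the set W2
  obtain ⟨W2, hW2⟩ : ∃ W2, W2 = W.filter (fun z => v0 ≤ (Vf M b0 (fib W (uu c M S) z)).card ∧
        1.9 * (v0 : ℝ) ≤ ∑ i ∈ Vc M b0 v0 (fib W (uu c M S) z), (qs W c M S i z)⁻¹) := ⟨_, rfl⟩
  have hW2c : b0 / 10 * (W1.card : ℝ) ≤ W2.card := by
    rw [hW1, hW2]
    exact card_good M S hb hv
  -- the set B
  obtain ⟨B, hB⟩ : ∃ B, B = W.filter (fun z => rho W c M S z < - (0.01 * t1)) := ⟨_, rfl⟩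
  have hBc : (B.card : ℝ) ≤ 0.025 * (b0 * Φ) * W.card := by
    have h1 := (card_small_rho (W := W) (c := c) M S (τ := 0.01 * t1)).trans hTC
    rw [← hB] at h1
    have h2 : (t1 : ℝ) * (B.card) ≤ t1 * (0.025 * (b0 * Φ) * W.card) := by
      calc (t1 : ℝ) * B.card = 100 * (0.01 * t1 * B.card) := by ring
        _ ≤ 100 * (b0 * Φ * t1 * W.card / 4000) := by linarith
        _ = t1 * (0.025 * (b0 * Φ) * W.card) := by ring
    exact le_of_mul_le_mul_left h2 (by linarith)
  obtain ⟨W3, hW3⟩ : ∃ W3, W3 = W2 \ B := ⟨_, rfl⟩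
  have hW3c : 0.02 * (b0 * Φ) * W.card ≤ W3.card := by
    have h1 : (W2.card : ℝ) ≤ W3.card + B.card := by
      rw [hW3]
      exact_mod_cast Finset.card_le_card_sdiff_add_card
    have h2 : b0 / 10 * (0.45 * Φ * W.card) ≤ b0 / 10 * W1.card :=
      mul_le_mul_of_nonneg_left hW1c (by positivity)
    have h3 : b0 / 10 * (0.45 * Φ * W.card) = 0.045 * (b0 * Φ) * W.card := by ring
    linarith
  have hW3W2 : ∀ z ∈ W3, z ∈ W2 := fun z hz => by
    rw [hW3] at hz; exact (Finset.mem_sdiff.mp hz).1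
  have hW3W : W3 ⊆ W := fun z hz => by
    have := hW3W2 z hz
    rw [hW2] at this
    exact (Finset.mem_filter.mp this).1
  have hW3rho : ∀ z ∈ W3, - (0.01 * (t1 : ℝ)) ≤ rho W c M S z := by
    intro z hz
    by_contra hcon
    push Not at hcon
    have h1 : z ∈ B := by rw [hB]; exact Finset.mem_filter.mpr ⟨hW3W hz, hcon⟩
    rw [hW3] at hz
    exact (Finset.mem_sdiff.mp hz).2 h1
  -- lower bound for the weight
  obtain ⟨K, hK⟩ : ∃ K : ℝ, K = 2 ^ (0.8 * (t1 : ℝ)) := ⟨_, rfl⟩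
  rw [← hK]
  have hK0 : 0 ≤ K := by rw [hK]; positivity
  have hlow : (W3.card : ℝ) * (1.8 * v0) ^ t1 ≤ t1.factorial *
      ∑ z ∈ W3, ∑ T ∈ (Vc M b0 v0 (fib W (uu c M S) z)).powersetCard t1,
        ∏ i ∈ T, (qs W c M S i z)⁻¹ := by
    rw [Finset.mul_sum, ← nsmul_eq_mul, ← Finset.sum_const]
    refine Finset.sum_le_sum fun z hz => ?_
    have hz2 := hW3W2 z hz
    rw [hW2] at hz2
    obtain ⟨hzW, hz3, hz4⟩ := Finset.mem_filter.mp hz2
    apply esymm_lower _ _ (b := b0⁻¹) (fun i _ => inv_nonneg.mpr (qs_pos hzW i).le)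
      (fun i hi => ?_) (by positivity) _ _ (by positivity)
    · refine le_trans ?_ hz4
      have h1 : (t1 : ℝ) * b0⁻¹ ≤ v0 / 10 := by
        rw [← div_eq_mul_inv, div_le_iff₀ hb]
        linarith
      linarith
    · apply inv_anti₀ hb
      rw [qs_class i (self_mem_fib hzW)]
      exact Vf_marg (Vc_sub _ _ _ _ hi) _
  -- splitting into rich and other pairs
  have hsplit : ∑ z ∈ W3, ∑ T ∈ (Vc M b0 v0 (fib W (uu c M S) z)).powersetCard t1,
        ∏ i ∈ T, (qs W c M S i z)⁻¹ =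
      ∑ z ∈ W3, ∑ T ∈ ((Vc M b0 v0 (fib W (uu c M S) z)).powersetCard t1).filter
        (fun T => K ≤ ((fib W (uu c T S) z).card : ℝ)), ∏ i ∈ T, (qs W c M S i z)⁻¹ +
      ∑ z ∈ W3, ∑ T ∈ ((Vc M b0 v0 (fib W (uu c M S) z)).powersetCard t1).filter
        (fun T => ¬ K ≤ ((fib W (uu c T S) z).card : ℝ)), ∏ i ∈ T, (qs W c M S i z)⁻¹ := by
    rw [← Finset.sum_add_distrib]
    refine Finset.sum_congr rfl fun z _ => ?_
    rw [Finset.sum_filter_add_sum_filter_not]
  have hnon := nonrich (W := W) (c := c) M S (b := b0) (v := v0) (t := t1) (τ := 0.01 * t1) hK0 W3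
    hW3W hW3rho
  obtain ⟨Pr, hPr⟩ : ∃ Pr, Pr = (W ×ˢ M.powersetCard t1).filter (fun p =>
        (∀ i ∈ p.2, qs W c M S i p.1 < 1) ∧ K ≤ (fib W (uu c p.2 S) p.1).card) := ⟨_, rfl⟩
  rw [← hPr]
  have hrich : ∑ z ∈ W3, ∑ T ∈ ((Vc M b0 v0 (fib W (uu c M S) z)).powersetCard t1).filter
        (fun T => K ≤ ((fib W (uu c T S) z).card : ℝ)), ∏ i ∈ T, (qs W c M S i z)⁻¹ ≤
      Pr.card * (b0 ^ t1)⁻¹ := by
    have h1 : ∑ z ∈ W3, ∑ T ∈ ((Vc M b0 v0 (fib W (uu c M S) z)).powersetCard t1).filter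
        (fun T => K ≤ ((fib W (uu c T S) z).card : ℝ)), ∏ i ∈ T, (qs W c M S i z)⁻¹ ≤
        ∑ z ∈ W3, ∑ _T ∈ ((Vc M b0 v0 (fib W (uu c M S) z)).powersetCard t1).filter
        (fun T => K ≤ ((fib W (uu c T S) z).card : ℝ)), (b0 ^ t1)⁻¹ := by
      refine Finset.sum_le_sum fun z hz => Finset.sum_le_sum fun T hT => ?_
      obtain ⟨hT1, hT2⟩ := Finset.mem_powersetCard.mp (Finset.mem_filter.mp hT).1
      rw [Finset.prod_inv_distrib]
      apply inv_anti₀ (by positivity)
      rw [← hT2, ← Finset.prod_const]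
      apply Finset.prod_le_prod (fun _ _ => hb.le)
      intro i hi
      rw [qs_class i (self_mem_fib (hW3W hz))]
      exact Vf_marg (Vc_sub _ _ _ _ (hT1 hi)) _
    refine h1.trans ?_
    have h2 : ∑ z ∈ W3, ∑ _T ∈ ((Vc M b0 v0 (fib W (uu c M S) z)).powersetCard t1).filter
        (fun T => K ≤ ((fib W (uu c T S) z).card : ℝ)), (b0 ^ t1)⁻¹ =
        ((W3.sigma (fun z => ((Vc M b0 v0 (fib W (uu c M S) z)).powersetCard t1).filter
        (fun T => K ≤ ((fib W (uu c T S) z).card : ℝ)))).card : ℝ) * (b0 ^ t1)⁻¹ := by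
      rw [Finset.card_sigma, Nat.cast_sum, Finset.sum_mul]
      refine Finset.sum_congr rfl fun z _ => ?_
      rw [Finset.sum_const, nsmul_eq_mul]
    rw [h2]
    apply mul_le_mul_of_nonneg_right _ (by positivity)
    rw [Nat.cast_le]
    apply Finset.card_le_card_of_injOn (fun p => (p.1, p.2))
    · rintro ⟨z, T⟩ hp
      obtain ⟨hz, hT⟩ := Finset.mem_sigma.mp hp
      obtain ⟨hT1, hT2⟩ := Finset.mem_filter.mp hT
      obtain ⟨hT3, hT4⟩ := Finset.mem_powersetCard.mp hT1
      simp only at hz hT3 hT4 hT2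
      rw [hPr]
      refine Finset.mem_coe.mpr (Finset.mem_filter.mpr ⟨Finset.mem_product.mpr ⟨hW3W hz,
        Finset.mem_powersetCard.mpr ⟨fun i hi => (mem_Vf.mp (Vc_sub _ _ _ _ (hT3 hi))).1, hT4⟩⟩,
        fun i hi => ?_, hT2⟩)
      have h3 := Vc_sub _ _ _ _ (hT3 hi)
      have h4 := Vf_marg h3 (!(z i))
      rw [marg_not ⟨z, self_mem_fib (hW3W hz)⟩, ← qs_class i (self_mem_fib (hW3W hz))] at h4
      change qs W c M S i z < 1
      linarith
    · rintro ⟨z, T⟩ _ ⟨z', T'⟩ _ h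
      simp only [Prod.mk.injEq] at h
      obtain ⟨rfl, rfl⟩ := h
      rfl
  -- the non-rich pairs
  have hKt : Real.exp (0.01 * t1) * K ≤ (1.8 / 1.02) ^ t1 := by
    have e1 : Real.exp (0.01 * (t1 : ℝ)) = Real.exp 0.01 ^ t1 := by
      rw [← Real.exp_nat_mul]; congr 1; ring
    have e2 : K = ((2 : ℝ) ^ (0.8 : ℝ)) ^ t1 := by
      rw [hK, Real.rpow_mul (by norm_num), Real.rpow_natCast]
    rw [e1, e2, ← mul_pow]
    apply pow_le_pow_left₀ (by positivity)
    calc Real.exp 0.01 * (2 : ℝ) ^ (0.8 : ℝ) ≤ 1.0102 * 1.7412 :=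
          mul_le_mul exp_001 two_rpow_08 (by positivity) (by norm_num)
      _ ≤ 1.8 / 1.02 := by norm_num
  have hch : (t1.factorial : ℝ) * (v0.choose t1) ≤ (v0 : ℝ) ^ t1 := by
    have h1 := Nat.descFactorial_le_pow v0 t1
    rw [Nat.descFactorial_eq_factorial_mul_choose] at h1
    exact_mod_cast h1
  have hmain : (W3.card : ℝ) * (1.8 * v0) ^ t1 ≤
      t1.factorial * (Pr.card * (b0 ^ t1)⁻¹) + W.card * (v0 ^ t1 * (1.8 / 1.02) ^ t1) := by
    refine hlow.trans ?_
    rw [hsplit, mul_add]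
    have h1 := mul_le_mul_of_nonneg_left hrich (Nat.cast_nonneg (α := ℝ) t1.factorial)
    have h2 := mul_le_mul_of_nonneg_left hnon (Nat.cast_nonneg (α := ℝ) t1.factorial)
    have h3 : (t1.factorial : ℝ) * (W.card * (v0.choose t1 * (Real.exp (0.01 * t1) * K))) ≤
        W.card * (v0 ^ t1 * (1.8 / 1.02) ^ t1) := by
      calc (t1.factorial : ℝ) * (W.card * (v0.choose t1 * (Real.exp (0.01 * t1) * K)))
          = W.card * ((t1.factorial * v0.choose t1) * (Real.exp (0.01 * t1) * K)) := by ring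
        _ ≤ W.card * (v0 ^ t1 * (1.8 / 1.02) ^ t1) := by
          apply mul_le_mul_of_nonneg_left _ (Nat.cast_nonneg _)
          exact mul_le_mul hch hKt (by positivity) (by positivity)
    linarith
  have hexp : (1.8 / 1.02 : ℝ) ^ t1 * v0 ^ t1 ≤ (b0 * Φ / 100) * (1.8 * v0) ^ t1 := by
    have h1 : (1.8 / 1.02 : ℝ) ^ t1 * v0 ^ t1 = (1.8 * v0) ^ t1 / 1.02 ^ t1 := by
      rw [div_pow, mul_pow]; ring
    rw [h1, div_le_iff₀ (by positivity)]
    have h2 : 1 ≤ (b0 * Φ / 100) * (1.02 : ℝ) ^ t1 := by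
      rw [div_le_iff₀ (by positivity)] at hlarge
      linarith
    have h3 : (0 : ℝ) ≤ (1.8 * v0) ^ t1 := by positivity
    calc (1.8 * (v0 : ℝ)) ^ t1 = 1 * (1.8 * v0) ^ t1 := by ring
      _ ≤ ((b0 * Φ / 100) * (1.02 : ℝ) ^ t1) * (1.8 * v0) ^ t1 := mul_le_mul_of_nonneg_right h2 h3
      _ = _ := by ring
  have h9 : (W.card : ℝ) * (b0 * Φ / 100) * (1.8 * v0) ^ t1 ≤
      t1.factorial * (Pr.card * (b0 ^ t1)⁻¹) := by
    have h3 : (0 : ℝ) ≤ (1.8 * v0) ^ t1 := by positivity
    have h4 := mul_le_mul_of_nonneg_right hW3c h3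
    have h5 : (W.card : ℝ) * (v0 ^ t1 * (1.8 / 1.02) ^ t1) ≤
        W.card * ((b0 * Φ / 100) * (1.8 * v0) ^ t1) := by
      apply mul_le_mul_of_nonneg_left _ (Nat.cast_nonneg _)
      rw [mul_comm ((v0 : ℝ) ^ t1)]
      exact hexp
    have h6 : 0.02 * (b0 * Φ) * W.card * (1.8 * (v0 : ℝ)) ^ t1 =
        2 * ((W.card : ℝ) * (b0 * Φ / 100) * (1.8 * v0) ^ t1) := by ring
    have h7 : (W.card : ℝ) * ((b0 * Φ / 100) * (1.8 * v0) ^ t1) =
        (W.card : ℝ) * (b0 * Φ / 100) * (1.8 * v0) ^ t1 := by ring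
    linarith
  have h10 : (0 : ℝ) < b0 ^ t1 := by positivity
  have h11 := mul_le_mul_of_nonneg_right h9 h10.le
  have e1 : (W.card : ℝ) * (b0 * Φ / 100) * (1.8 * v0) ^ t1 * b0 ^ t1 =
      W.card * (b0 * Φ / 100) * (1.8 * b0 * v0) ^ t1 := by
    rw [mul_assoc, ← mul_pow]
    congr 2
    ring
  have e2 : (t1.factorial : ℝ) * (Pr.card * (b0 ^ t1)⁻¹) * b0 ^ t1 = t1.factorial * Pr.card := by
    field_simp
  rw [e1, e2] at h11
  exact h11

end Pool.Agent.KN
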