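import Pool.Agent.KN.CoreA
import Pool.Agent.KN.Rich
import Pool.Agent.KN.Rect

/-! The core theorem. -/

namespace Pool.Agent.KN

open Finset Pool.Agent.SemRO

/-- the final numerical contradiction -/
lemma final_contra {n t1 t2 f ε lw lb lv lx l2 lN Λ : ℝ} (ht1 : 100 ≤ t1) (hf : 0 ≤ f)
    (hl2 : 0.693 < l2) (hΛ : 30 * (f + 1) ≤ Λ) (ht2 : t2 = Λ * t1)
    (hmain : lw + lb + t1 * lv + t2 * lx ≤ l2 + t1 * lN + ε * n + (n - t2) * l2)
    (hlw : n * l2 - ε * n ≤ lw) (hlb : -(0.02 * t1) ≤ lb) (hlv : lN - lv ≤ 4.2 + 3 * f)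
    (hlx : -(0.07 * t1) ≤ t2 * lx) (hε : ε * n ≤ t1 / 8) (hl2' : l2 ≤ 0.7) : False := by
  have h1 : t1 * lN - t1 * lv ≤ t1 * (4.2 + 3 * f) := by
    have := mul_le_mul_of_nonneg_left hlv (show 0 ≤ t1 by linarith)
    linarith
  have h2 : t2 * l2 ≤ t1 * (5.3 + 3 * f) := by
    have h3 : (n - t2) * l2 = n * l2 - t2 * l2 := by ring
    rw [h3] at hmain
    have h4 : t1 * (5.3 + 3 * f) = t1 * (4.2 + 3 * f) + 1.1 * t1 := by ring
    rw [h4]
    linarith
  have h5 : t1 * (20.79 * (f + 1)) ≤ t2 * l2 := by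
    rw [ht2]
    have h6 : 30 * (f + 1) * 0.693 ≤ Λ * l2 :=
      mul_le_mul hΛ hl2.le (by norm_num) (by linarith)
    have h7 : t1 * (30 * (f + 1) * 0.693) ≤ t1 * (Λ * l2) :=
      mul_le_mul_of_nonneg_left h6 (by linarith)
    calc t1 * (20.79 * (f + 1)) = t1 * (30 * (f + 1) * 0.693) := by ring
      _ ≤ t1 * (Λ * l2) := h7
      _ = Λ * t1 * l2 := by ring
  have h8 : t1 * (20.79 * (f + 1)) ≤ t1 * (5.3 + 3 * f) := h5.trans h2
  have h9 := le_of_mul_le_mul_left h8 (by linarith)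
  linarith

lemma log44 : Real.log (400 / 9) ≤ 4.2 := by
  have h1 : Real.log (400 / 9) ≤ Real.log (2 ^ 6) := Real.log_le_log (by norm_num) (by norm_num)
  rw [Real.log_pow] at h1
  have := Real.log_two_lt_d9
  push_cast at h1; linarith

lemma log_mul4 {a b c d : ℝ} (ha : 0 < a) (hb : 0 < b) (hc : 0 < c) (hd : 0 < d) :
    Real.log (a * b * c * d) = Real.log a + Real.log b + Real.log c + Real.log d := by
  rw [Real.log_mul (mul_pos (mul_pos ha hb) hc).ne' hd.ne', Real.log_mul (mul_pos ha hb).ne' hc.ne',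
    Real.log_mul ha.ne' hb.ne']

theorem core_fixed {n R m k : ℕ} {c : Fin R → (Fin n → Bool) → Fin n → Option Bool}
    {W : Finset (Fin n → Bool)} {F : Set (Fin n → Bool)} {L : ℕ} (hW : W.Nonempty)
    (hsub : ∀ z ∈ W, ∀ j, Sub (c j z) z)
    (hclosed : ∀ u, (∀ j, ∃ w ∈ W, Sub (c j w) u) → u ∈ F) (hRf : RectFree F L)
    (hlen : ∀ z ∈ W, ∀ j, (dom (c j z)).card * R ≤ k * n)
    (hm : 1 ≤ m) (hR : R = m ^ 2) (S : Finset (Fin R)) (hSc : Sᶜ.card = m) (M : Finset (Fin n))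
    {f Φ b0 η ε θ : ℝ} (hf0 : 0 ≤ f) (hΦ : Φ = Real.exp (-f)) (hb0 : b0 = Φ ^ 2 / 16)
    (hCm : 2000 * ((k : ℝ) + 1) * (f + 1) ≤ m)
    (hent : Φ * (W.card * M.card) ≤ Gs W c M S)
    (hη : η ≤ (b0 * Φ) ^ 2 / 800000) (hTC : TC W c M S ≤ η * (W.card * M.card))
    (hWcard : n * Real.log 2 - ε * n ≤ Real.log W.card) (hL : (L : ℝ) ≤ Real.exp (ε * n))
    (hθ : θ * n ≤ M.card) (hε0 : 0 < ε) (hε1 : ε ≤ b0 * Φ * θ / 800) (ts : ℕ)
    (hts : 100 / (b0 * Φ) ≤ (1.02 : ℝ) ^ ts) (hbig : 800600 + 100 * (ts : ℝ) ≤ (b0 * Φ) ^ 2 * (θ * n)) :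
    False := by
  classical
  have hWc : (0 : ℝ) < W.card := Nat.cast_pos.mpr (Finset.card_pos.mpr hW)
  have hΦ0 : 0 < Φ := by rw [hΦ]; exact Real.exp_pos _
  have hΦ1 : Φ ≤ 1 := by rw [hΦ, Real.exp_le_one_iff]; linarith
  have hb0pos : 0 < b0 := by rw [hb0]; positivity
  have hb01 : b0 ≤ 1 / 16 := by
    rw [hb0]
    have : Φ ^ 2 ≤ 1 := pow_le_one₀ hΦ0.le hΦ1
    linarith
  set β := b0 * Φ with hβ
  have hβ0 : 0 < β := mul_pos hb0pos hΦ0
  have hβ1 : β ≤ 1 / 16 := by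
    calc β ≤ b0 * 1 := mul_le_mul_of_nonneg_left hΦ1 hb0pos.le
      _ ≤ 1 / 16 := by linarith
  have hn0 : (0 : ℝ) ≤ n := Nat.cast_nonneg _
  set N : ℝ := (M.card : ℝ) with hN
  have hNn : N ≤ n := by
    have : M.card ≤ n := by simpa using Finset.card_le_univ M
    rw [hN]; exact_mod_cast this
  have hts0 : (0 : ℝ) ≤ ts := Nat.cast_nonneg _
  have hbigN : 800600 + 100 * (ts : ℝ) ≤ β ^ 2 * N :=
    hbig.trans (mul_le_mul_of_nonneg_left hθ (by positivity))
  have hN0 : 0 ≤ N := Nat.cast_nonneg _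
  have hβN : 800600 + 100 * (ts : ℝ) ≤ β * N := by
    have h1 : β ^ 2 * N ≤ β * N := by
      apply mul_le_mul_of_nonneg_right _ hN0
      rw [sq]
      exact mul_le_of_le_one_left hβ0.le (by linarith)
    linarith
  have hΦN : β * N ≤ Φ * N := by
    apply mul_le_mul_of_nonneg_right _ hN0
    rw [hβ]
    calc b0 * Φ ≤ 1 * Φ := mul_le_mul_of_nonneg_right (by linarith) hΦ0.le
      _ = Φ := one_mul _
  -- v0, t1
  obtain ⟨v0, hv0⟩ : ∃ v0, v0 = ⌊Φ * N / 4⌋₊ := ⟨_, rfl⟩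
  have hv0le : (v0 : ℝ) ≤ Φ * N / 4 := by rw [hv0]; exact Nat.floor_le (by positivity)
  have hv0ge : Φ * N / 5 ≤ v0 := by
    have := Nat.lt_floor_add_one (Φ * N / 4)
    rw [← hv0] at this
    linarith
  have hv0pos : (0 : ℝ) < v0 := by linarith
  obtain ⟨t1, ht1⟩ : ∃ t1, t1 = ⌊b0 * v0 / 10⌋₊ := ⟨_, rfl⟩
  have ht1le : (t1 : ℝ) ≤ b0 * v0 / 10 := by rw [ht1]; exact Nat.floor_le (by positivity)
  have ht1ge : β * N / 100 ≤ t1 := by
    have h1 := Nat.lt_floor_add_one (b0 * v0 / 10)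
    rw [← ht1] at h1
    have h2 : b0 * (Φ * N / 5) ≤ b0 * v0 := mul_le_mul_of_nonneg_left hv0ge hb0pos.le
    have h3 : b0 * (Φ * N / 5) = β * N / 5 := by rw [hβ]; ring
    linarith
  have ht1100 : (100 : ℝ) ≤ t1 := by linarith
  have ht1pos : (0 : ℝ) < t1 := by linarith
  have htst1 : ts ≤ t1 := by
    have : (ts : ℝ) ≤ t1 := by linarith
    exact_mod_cast this
  -- Λ, t2
  obtain ⟨Λ, hΛ⟩ : ∃ Λ, Λ = ⌈30 * (f + 1)⌉₊ := ⟨_, rfl⟩
  have hΛge : 30 * (f + 1) ≤ Λ := by rw [hΛ]; exact Nat.le_ceil _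
  have hΛle : (Λ : ℝ) ≤ 31 * (f + 1) := by
    have := Nat.ceil_lt_add_one (show 0 ≤ 30 * (f + 1) by linarith)
    rw [← hΛ] at this; linarith
  obtain ⟨t2, ht2⟩ : ∃ t2, t2 = Λ * t1 := ⟨_, rfl⟩
  have ht2r : (t2 : ℝ) = Λ * t1 := by rw [ht2]; push_cast; rfl
  have hfΦ : (f + 1) * Φ ≤ 1 := by
    have h1 := Real.add_one_le_exp f
    have h2 : (f + 1) * Φ ≤ Real.exp f * Φ := mul_le_mul_of_nonneg_right h1 hΦ0.le
    have h3 : Real.exp f * Φ = 1 := by rw [hΦ, ← Real.exp_add]; simp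
    linarith
  have ht12 : (t1 : ℝ) + t2 ≤ n / 2 := by
    rw [ht2r]
    have h1 : (t1 : ℝ) ≤ β * n / 40 := by
      have h2 : b0 * v0 ≤ b0 * (Φ * N / 4) := mul_le_mul_of_nonneg_left hv0le hb0pos.le
      have h3 : b0 * (Φ * N / 4) = β * N / 4 := by rw [hβ]; ring
      have h4 : β * N ≤ β * n := mul_le_mul_of_nonneg_left hNn hβ0.le
      linarith
    have h2 : (t1 : ℝ) + Λ * t1 = (1 + Λ) * t1 := by ring
    rw [h2]
    have h3 : (1 + (Λ : ℝ)) ≤ 32 * (f + 1) := by linarith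
    calc (1 + (Λ : ℝ)) * t1 ≤ (32 * (f + 1)) * (β * n / 40) :=
          mul_le_mul h3 h1 ht1pos.le (by linarith)
      _ = (32 / 40) * ((f + 1) * Φ) * (b0 * n) := by rw [hβ]; ring
      _ ≤ (32 / 40) * 1 * (1 / 16 * n) := by
          apply mul_le_mul _ _ (by positivity) (by norm_num)
          · linarith
          · exact mul_le_mul_of_nonneg_right hb01 hn0
      _ ≤ n / 2 := by linarith
  have ht12n : t1 + t2 ≤ n := by
    have : ((t1 + t2 : ℕ) : ℝ) ≤ n := by push_cast; linarith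
    exact_mod_cast this
  -- m large
  have hk1 : (1 : ℝ) ≤ (k : ℝ) + 1 := by
    have : (0 : ℝ) ≤ k := Nat.cast_nonneg _
    linarith
  have hm2000 : 2000 * ((k : ℝ) + 1) ≤ m := by
    refine le_trans ?_ hCm
    have : 2000 * ((k : ℝ) + 1) * 1 ≤ 2000 * ((k : ℝ) + 1) * (f + 1) :=
      mul_le_mul_of_nonneg_left (by linarith) (by linarith)
    linarith
  have hmpos : (0 : ℝ) < m := by linarith
  set w : ℝ := 2 * ((k : ℝ) + 1) / m with hw
  have hw0 : 0 ≤ w := by positivity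
  have hw1 : w ≤ 1 / 1000 := by
    rw [hw, div_le_div_iff₀ hmpos (by norm_num)]; linarith
  have hwf : w * (f + 1) ≤ 1 / 1000 := by
    rw [hw, div_mul_eq_mul_div, div_le_div_iff₀ hmpos (by norm_num)]
    linarith
  obtain ⟨a, ha⟩ : ∃ a, a = k * n / m := ⟨_, rfl⟩
  have har : (a : ℝ) ≤ w * (n / 2) := by
    have h1 : (a : ℝ) ≤ ((k * n : ℕ) : ℝ) / m := by rw [ha]; exact Nat.cast_div_le
    have h2 : w * ((n : ℝ) / 2) = ((k : ℝ) + 1) * n / m := by rw [hw]; ring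
    rw [h2]
    refine h1.trans ?_
    push_cast
    apply div_le_div_of_nonneg_right _ hmpos.le
    exact mul_le_mul_of_nonneg_right (by linarith) hn0
  set x : ℝ := 1 - w with hx
  have hx0 : 0 < x := by rw [hx]; linarith
  have hx1 : x ≤ 1 := by rw [hx]; linarith
  have hlx : -(2 * w) ≤ Real.log x := by
    have h1 := exp_le_one_sub hw0 (by linarith : w ≤ 1 / 2)
    rw [← hx] at h1
    rw [← Real.log_exp (-(2 * w))]
    exact Real.log_le_log (Real.exp_pos _) h1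
  have ht2lx : -(0.07 * (t1 : ℝ)) ≤ t2 * Real.log x := by
    have h1 : (t2 : ℝ) * (-(2 * w)) ≤ t2 * Real.log x :=
      mul_le_mul_of_nonneg_left hlx (Nat.cast_nonneg _)
    refine le_trans ?_ h1
    rw [ht2r]
    have h2 : (Λ : ℝ) * w ≤ 31 * (w * (f + 1)) := by
      calc (Λ : ℝ) * w ≤ 31 * (f + 1) * w := mul_le_mul_of_nonneg_right hΛle hw0
        _ = _ := by ring
    have h3 : (Λ : ℝ) * w ≤ 0.035 := by linarith
    have h4 : (Λ : ℝ) * w * t1 ≤ 0.035 * t1 := mul_le_mul_of_nonneg_right h3 ht1pos.le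
    have h5 : (Λ : ℝ) * t1 * (-(2 * w)) = -(2 * ((Λ : ℝ) * w * t1)) := by ring
    rw [h5]; linarith
  -- ε n small
  have hεn : ε * n ≤ t1 / 8 := by
    have h1 : ε * n ≤ β * θ / 800 * n := mul_le_mul_of_nonneg_right hε1 hn0
    have h2 : β * (θ * n) ≤ β * N := mul_le_mul_of_nonneg_left hθ hβ0.le
    have h3 : β * θ / 800 * n = β * (θ * n) / 800 := by ring
    linarith
  have l1 := Real.log_two_gt_d9
  have l2 := Real.log_two_lt_d9
  -- rich pairs
  have hrich := rich_pairs (c := c) hW M S hΦ0 hΦ1 hb0 hent v0 t1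
    (by
      have h1 : (1 : ℝ) ≤ v0 := by linarith
      exact_mod_cast h1)
    hv0le
    (by
      have h1 : (1 : ℝ) ≤ t1 := by linarith
      exact_mod_cast h1)
    ht1le
    (by
      have h1 : TC W c M S ≤ β ^ 2 / 800000 * (W.card * N) := by
        refine hTC.trans ?_
        exact mul_le_mul_of_nonneg_right hη (by positivity)
      have h2 : β * (β * N / 100) ≤ β * t1 := mul_le_mul_of_nonneg_left ht1ge hβ0.le
      have h3 : (β ^ 2 * N / 800000 + 1) * W.card ≤ (β * t1 / 4000) * W.card := by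
        apply mul_le_mul_of_nonneg_right _ hWc.le
        have h4 : β * (β * N / 100) = β ^ 2 * N / 100 := by ring
        rw [h4] at h2
        linarith
      have e1 : b0 * Φ * t1 * W.card / 4000 = (β * t1 / 4000) * W.card := by rw [hβ]; ring
      rw [e1]
      have e2 : β ^ 2 / 800000 * (W.card * N) + W.card = (β ^ 2 * N / 800000 + 1) * W.card := by ring
      linarith)
    (by
      refine hts.trans ?_
      exact pow_le_pow_right₀ (by norm_num) htst1)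
  set P := (W ×ˢ M.powersetCard t1).filter (fun p =>
     (∀ i ∈ p.2, qs W c M S i p.1 < 1) ∧ (2:ℝ)^(0.8 * (t1:ℝ)) ≤ (fib W (uu c p.2 S) p.1).card) with hP
  -- rectangle
  have hexpK : (2 : ℝ) ^ (0.8 * (t1 : ℝ)) = Real.exp (0.8 * t1 * Real.log 2) := by
    rw [Real.rpow_def_of_pos (by norm_num)]; ring_nf
  have hrect := rectangle (c := c) (W := W) hsub hclosed hRf M S a t1 t2 (x ^ t2) ((2:ℝ)^(0.8 * (t1:ℝ)))
    (pow_pos hx0 _)
    (by
      intro z hz
      have h1 : (Sᶜ.biUnion (fun j => dom (c j z))).card ≤ ∑ j ∈ Sᶜ, (dom (c j z)).card :=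
        Finset.card_biUnion_le
      have h2 : (∑ j ∈ Sᶜ, (dom (c j z)).card) * R ≤ m * (k * n) := by
        rw [Finset.sum_mul]
        calc ∑ j ∈ Sᶜ, (dom (c j z)).card * R ≤ ∑ j ∈ Sᶜ, k * n :=
              Finset.sum_le_sum fun j _ => hlen z hz j
          _ = m * (k * n) := by rw [Finset.sum_const, hSc, smul_eq_mul]
      rw [ha, Nat.le_div_iff_mul_le (by omega)]
      obtain ⟨D, hD⟩ : ∃ D, D = ∑ j ∈ Sᶜ, (dom (c j z)).card := ⟨_, rfl⟩
      rw [← hD] at h1 h2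
      have h3 : m * (D * m) ≤ m * (k * n) := by
        calc m * (D * m) = D * m ^ 2 := by ring
          _ = D * R := by rw [← hR]
          _ ≤ _ := h2
      have h4 := Nat.le_of_mul_le_mul_left h3 (by omega)
      calc _ ≤ D * m := Nat.mul_le_mul_right _ h1
        _ ≤ _ := h4)
    (by
      have ha2 : (a : ℝ) ≤ n / 4 := by
        have : w * ((n : ℝ) / 2) ≤ 1 / 1000 * (n / 2) := mul_le_mul_of_nonneg_right hw1 (by positivity)
        linarith
      have hcast : ((n - t1 : ℕ) : ℝ) = n - t1 := by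
        rw [Nat.cast_sub (by omega)]
      apply choose_lower (n - t1) a x hx0.le hx1 t2 (by omega)
      · rw [hcast]
        have h1 : (n : ℝ) / 2 ≤ n - t1 - t2 := by linarith
        have h2 : 1 - x = w := by rw [hx]; ring
        rw [h2]
        exact har.trans (mul_le_mul_of_nonneg_left h1 hw0)
      · have h3 : ((a + t2 + t1 : ℕ) : ℝ) ≤ n := by push_cast; linarith
        have h4 : a + t2 + t1 ≤ n := by exact_mod_cast h3
        omega)
    ht12n
    (by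
      rw [hexpK]
      have h1 : x ^ t2 = Real.exp (t2 * Real.log x) := by
        rw [← Real.log_pow, Real.exp_log (pow_pos hx0 _)]
      rw [h1, ← Real.exp_add]
      have h2 : 2 * (L : ℝ) ≤ Real.exp (Real.log 2 + ε * n) := by
        rw [Real.exp_add, Real.exp_log (by norm_num)]; linarith
      refine h2.trans (Real.exp_le_exp.mpr ?_)
      have h3 : 0.8 * (t1 : ℝ) * 0.693 ≤ 0.8 * t1 * Real.log 2 :=
        mul_le_mul_of_nonneg_left (by linarith) (by linarith)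
      linarith)
    P
    (by
      intro p hp
      rw [hP, Finset.mem_filter, Finset.mem_product, Finset.mem_powersetCard] at hp
      obtain ⟨⟨h1, h2, h3⟩, h4, h5⟩ := hp
      refine ⟨h1, h2, h3, ?_, h5⟩
      intro i hi j hj hd
      have h6 := qs_read (M := M) (S := S) h1 hsub hj hd
      have h7 := h4 i hi
      linarith)
  -- combine
  have hchoose : (t1.factorial : ℝ) * (M.card.choose t1 : ℝ) ≤ N ^ t1 := by
    have h1 := Nat.descFactorial_eq_factorial_mul_choose M.card t1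
    have h2 := Nat.descFactorial_le_pow M.card t1
    rw [h1] at h2
    rw [hN]
    exact_mod_cast h2
  have hfac0 : (0 : ℝ) < t1.factorial := by exact_mod_cast Nat.factorial_pos t1
  have hxt : (0 : ℝ) < x ^ t2 := pow_pos hx0 _
  have hNpos : 0 < N := by
    by_contra hcon
    push Not at hcon
    have : N = 0 := le_antisymm hcon hN0
    rw [this] at hβN
    linarith
  have h2n : (0 : ℝ) < (2 : ℝ) ^ (n - t2) := by positivity
  have hcomb : W.card * (β / 100) * (1.8 * b0 * v0) ^ t1 * x ^ t2 ≤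
      2 * N ^ t1 * Real.exp (ε * n) * 2 ^ (n - t2) := by
    calc W.card * (β / 100) * (1.8 * b0 * v0) ^ t1 * x ^ t2
        ≤ (t1.factorial * (P.card : ℝ)) * x ^ t2 := mul_le_mul_of_nonneg_right hrich hxt.le
      _ = t1.factorial * ((P.card : ℝ) * x ^ t2) := by ring
      _ ≤ t1.factorial * (2 * (M.card.choose t1) * L * 2 ^ (n - t2)) :=
          mul_le_mul_of_nonneg_left hrect hfac0.le
      _ = 2 * (t1.factorial * (M.card.choose t1 : ℝ)) * L * 2 ^ (n - t2) := by ring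
      _ ≤ 2 * N ^ t1 * Real.exp (ε * n) * 2 ^ (n - t2) := by gcongr
  have hlog := Real.log_le_log (by positivity) hcomb
  have hbv : (0 : ℝ) < 1.8 * b0 * v0 := by positivity
  have hNt : (0 : ℝ) < N ^ t1 := by positivity
  rw [log_mul4 hWc (div_pos hβ0 (by norm_num)) (pow_pos hbv t1) hxt,
    log_mul4 (by norm_num) hNt (Real.exp_pos _) h2n, Real.log_pow, Real.log_pow, Real.log_exp,
    Real.log_pow, Real.log_pow, Nat.cast_sub (show t2 ≤ n by omega)] at hlog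
  have hlb : -(0.02 * (t1 : ℝ)) ≤ Real.log (β / 100) := by
    have h1 : Real.log (100 / β) ≤ t1 * Real.log 1.02 := by
      rw [← Real.log_pow]
      apply Real.log_le_log (by positivity)
      refine hts.trans ?_
      exact pow_le_pow_right₀ (by norm_num) htst1
    have h2 : Real.log 1.02 ≤ 0.02 := by
      have := Real.log_le_sub_one_of_pos (show (0 : ℝ) < 1.02 by norm_num)
      linarith
    have h3 : Real.log (β / 100) = - Real.log (100 / β) := by
      rw [← Real.log_inv, inv_div]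
    have h4 : (t1 : ℝ) * Real.log 1.02 ≤ t1 * 0.02 := mul_le_mul_of_nonneg_left h2 ht1pos.le
    rw [h3]; linarith
  have hlv : Real.log N - Real.log (1.8 * b0 * v0) ≤ 4.2 + 3 * f := by
    rw [← Real.log_div hNpos.ne' hbv.ne']
    have h1 : N / (1.8 * b0 * v0) ≤ (400 / 9) * Real.exp (3 * f) := by
      rw [div_le_iff₀ hbv]
      have h2 : Real.exp (3 * f) * Φ ^ 3 = 1 := by
        rw [hΦ, ← Real.exp_nat_mul, ← Real.exp_add]
        have : 3 * f + ((3 : ℕ) : ℝ) * -f = 0 := by push_cast; ring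
        rw [this, Real.exp_zero]
      calc N = (Real.exp (3 * f) * Φ ^ 3) * N := by rw [h2, one_mul]
        _ = (400 / 9) * Real.exp (3 * f) * (1.8 * (Φ ^ 2 / 16) * (Φ * N / 5)) := by ring
        _ ≤ (400 / 9) * Real.exp (3 * f) * (1.8 * (Φ ^ 2 / 16) * v0) := by gcongr
        _ = _ := by rw [hb0]
    have h2 := Real.log_le_log (div_pos hNpos hbv) h1
    rw [Real.log_mul (by norm_num) (Real.exp_pos _).ne', Real.log_exp] at h2
    have := log44
    linarith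
  exact final_contra (n := n) (t1 := t1) (t2 := t2) (f := f) (ε := ε)
    (lw := Real.log W.card) (lb := Real.log (β / 100)) (lv := Real.log (1.8 * b0 * v0))
    (lx := Real.log x) (l2 := Real.log 2) (lN := Real.log N) (Λ := Λ)
    ht1100 hf0 (by linarith) hΛge ht2r (by linarith) hWcard hlb hlv ht2lx hεn (by linarith)

/-- **Core theorem.** -/
theorem core (k : ℕ) : ∃ (R : ℕ) (ε : ℝ) (n0 : ℕ), 2 ≤ R ∧ 0 < ε ∧ ∀ n, n0 ≤ n →
    ∀ (W : Finset (Fin n → Bool)) (c : Fin R → (Fin n → Bool) → Fin n → Option Bool)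
      (F : Set (Fin n → Bool)) (L : ℕ),
      n * Real.log 2 - ε * n ≤ Real.log W.card →
      (∀ z ∈ W, ∀ j, Sub (c j z) z) →
      (∀ z ∈ W, ∀ z' ∈ W, ∀ j, Sub (c j z') z → Sub (c j z) z' → c j z = c j z') →
      (∀ z ∈ W, ∀ j, (dom (c j z)).card * R ≤ k * n) →
      (∀ u, (∀ j, ∃ w ∈ W, Sub (c j w) u) → u ∈ F) →
      (L : ℝ) ≤ Real.exp (ε * n) → ¬ RectFree F L := by
  classical
  set K : ℝ := (k : ℝ) + 1 with hK
  have hk0 : (0 : ℝ) ≤ k := Nat.cast_nonneg _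
  have hK1 : 1 ≤ K := by linarith
  obtain ⟨m, hm2, f, hf0, hCm, hrec⟩ := exists_recursion (2 * K) (by linarith) (2000 * K)
  have hm0 : (0 : ℝ) < m := by exact_mod_cast (show 0 < m by omega)
  obtain ⟨R, hR⟩ : ∃ R, R = m ^ 2 := ⟨_, rfl⟩
  have hR2 : 2 ≤ R := by rw [hR]; exact le_trans hm2 (Nat.le_self_pow (by norm_num) m)
  have hRr : (0 : ℝ) < R := by exact_mod_cast (show 0 < R by omega)
  obtain ⟨Φ, hΦ⟩ : ∃ Φ, Φ = Real.exp (-f) := ⟨_, rfl⟩
  have hΦ0 : 0 < Φ := by rw [hΦ]; exact Real.exp_pos _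
  have hΦ1 : Φ ≤ 1 := by rw [hΦ, Real.exp_le_one_iff]; linarith
  obtain ⟨b0, hb0⟩ : ∃ b0, b0 = Φ ^ 2 / 16 := ⟨_, rfl⟩
  have hb0pos : 0 < b0 := by rw [hb0]; positivity
  have hβ0 : 0 < b0 * Φ := mul_pos hb0pos hΦ0
  obtain ⟨δ, hδ⟩ : ∃ δ, δ = Φ / (32 * K) := ⟨_, rfl⟩
  have hδ0 : 0 < δ := by rw [hδ]; positivity
  have hδ1 : δ ≤ 1 / 2 := by
    rw [hδ, div_le_div_iff₀ (by positivity) (by norm_num)]
    linarith
  obtain ⟨η, hη⟩ : ∃ η, η = min (Φ / (4 * (2 * R + R / δ))) ((b0 * Φ) ^ 2 / 800000) := ⟨_, rfl⟩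
  have hη0 : 0 < η := by rw [hη]; exact lt_min (by positivity) (by positivity)
  have hη1 : η ≤ Φ / (4 * (2 * R + R / δ)) := by rw [hη]; exact min_le_left _ _
  have hη2 : η ≤ (b0 * Φ) ^ 2 / 800000 := by rw [hη]; exact min_le_right _ _
  have hζ : 2 * R * η + 4 * δ * (2 * K) + R / δ * η ≤ Real.exp (-f) / 2 := by
    rw [← hΦ]
    have h1 : 4 * δ * (2 * K) = Φ / 4 := by rw [hδ]; field_simp; ring
    have h2 : (2 * R + R / δ) * η ≤ Φ / 4 := by
      have hpos : 0 < 2 * (R : ℝ) + R / δ := by positivity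
      calc (2 * R + R / δ) * η ≤ (2 * R + R / δ) * (Φ / (4 * (2 * R + R / δ))) :=
            mul_le_mul_of_nonneg_left hη1 hpos.le
        _ = Φ / 4 := by field_simp
    have h3 : 2 * R * η + 4 * δ * (2 * K) + R / δ * η = (2 * R + R / δ) * η + 4 * δ * (2 * K) := by ring
    rw [h3, h1]; linarith
  obtain ⟨T, hT⟩ : ∃ T, T = ⌈4 * (2 ^ R * Real.log 2) / η⌉₊ + 1 := ⟨_, rfl⟩
  have hT1 : 1 ≤ T := by rw [hT]; omega
  have hT0 : (0 : ℝ) < T := by exact_mod_cast (show 0 < T by omega)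
  have hl2pos : 0 < Real.log 2 := Real.log_pos (by norm_num)
  have hTη : 4 * (2 ^ R * Real.log 2) / T ≤ η := by
    rw [div_le_iff₀ hT0]
    have h1 : 4 * (2 ^ R * Real.log 2) / η ≤ T := by
      rw [hT]; push_cast
      have := Nat.le_ceil (4 * (2 ^ R * Real.log 2) / η)
      linarith
    rw [div_le_iff₀ hη0] at h1
    linarith
  obtain ⟨θ, hθ⟩ : ∃ θ : ℝ, θ = 1 / (2 * (T : ℝ) ^ T) := ⟨_, rfl⟩
  have hTT : (0 : ℝ) < (T : ℝ) ^ T := by positivity
  have hθ0 : 0 < θ := by rw [hθ]; positivity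
  obtain ⟨ε, hε⟩ : ∃ ε, ε = min (b0 * Φ * θ / 800) (0.003 * θ) := ⟨_, rfl⟩
  have hε0 : 0 < ε := by rw [hε]; exact lt_min (by positivity) (by positivity)
  have hε1 : ε ≤ b0 * Φ * θ / 800 := by rw [hε]; exact min_le_left _ _
  have hε2 : ε ≤ 0.003 * θ := by rw [hε]; exact min_le_right _ _
  obtain ⟨ts, hts⟩ := pow_unbounded_of_one_lt (100 / (b0 * Φ)) (show (1 : ℝ) < 1.02 by norm_num)
  obtain ⟨n1, hn1⟩ := exists_nat_ge ((800600 + 100 * (ts : ℝ)) / ((b0 * Φ) ^ 2 * θ))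
  refine ⟨R, ε, max n1 (2 * T ^ T), hR2, hε0, ?_⟩
  intro n hn W c F L hWcard hsub huniq hlen hclosed hL hRf
  have hnn1 : n1 ≤ n := le_trans (le_max_left _ _) hn
  have hnTT : 2 * T ^ T ≤ n := le_trans (le_max_right _ _) hn
  have hTTn : (0 : ℕ) < T ^ T := pow_pos (by omega) _
  have hnpos : (0 : ℝ) < n := by
    have : 0 < n := by omega
    exact_mod_cast this
  have hW : W.Nonempty := by
    by_contra hcon
    rw [Finset.not_nonempty_iff_eq_empty] at hcon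
    rw [hcon] at hWcard
    simp only [Finset.card_empty, Nat.cast_zero, Real.log_zero] at hWcard
    have h1 : θ ≤ 1 / 2 := by
      rw [hθ]
      have h2 : (1 : ℝ) ≤ (T : ℝ) ^ T := one_le_pow₀ (by exact_mod_cast hT1)
      rw [div_le_div_iff₀ (by positivity) (by norm_num)]
      linarith
    have h2 := Real.log_two_gt_d9
    have h3 : ε * n ≤ 0.0015 * n := mul_le_mul_of_nonneg_right (by linarith) hnpos.le
    have h4 : (n : ℝ) * 0.6931471803 < n * Real.log 2 := mul_lt_mul_of_pos_left h2 hnpos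
    linarith
  have hWc : (0 : ℝ) < W.card := Nat.cast_pos.mpr (Finset.card_pos.mpr hW)
  obtain ⟨M, hMc, hTC, hk⟩ := exists_M (c := c) hW k (by omega) hlen T hT1 hTη (by omega)
  have hθn : θ * n ≤ M.card := by
    have h1 : ((n / T ^ T : ℕ) : ℝ) ≤ M.card := by exact_mod_cast hMc
    have h2 : (n : ℝ) / (T : ℝ) ^ T - 1 ≤ ((n / T ^ T : ℕ) : ℝ) := by
      have h3 := Nat.lt_div_mul_add (a := n) hTTn
      have h4 : (n : ℝ) < ((n / T ^ T : ℕ) : ℝ) * (T : ℝ) ^ T + (T : ℝ) ^ T := by exact_mod_cast h3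
      rw [sub_le_iff_le_add, div_le_iff₀ hTT]
      linarith
    have h3 : (2 : ℝ) * (T : ℝ) ^ T ≤ n := by exact_mod_cast hnTT
    have h4 : θ * n = n / (T : ℝ) ^ T / 2 := by rw [hθ]; field_simp
    have h5 : 2 ≤ (n : ℝ) / (T : ℝ) ^ T := by rw [le_div_iff₀ hTT]; linarith
    rw [h4]; linarith
  have hMpos : (0 : ℝ) < M.card := lt_of_lt_of_le (mul_pos hθ0 hnpos) hθn
  have hMne : M.Nonempty := Finset.card_pos.mp (by exact_mod_cast hMpos)
  have hstart : 0.69 * (W.card * M.card) ≤ Gs W c M ∅ := by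
    have h1 := Gs_start (c := c) M hW
    refine le_trans ?_ h1
    have h2 := Real.log_two_gt_d9
    have h3 : ε * n ≤ 0.003 * M.card := by
      calc ε * n ≤ 0.003 * θ * n := mul_le_mul_of_nonneg_right hε2 hnpos.le
        _ = 0.003 * (θ * n) := by ring
        _ ≤ 0.003 * M.card := by linarith
    have h4 : 0.69 * (M.card : ℝ) ≤ Real.log W.card - (n - M.card) * Real.log 2 := by
      have h5 : (M.card : ℝ) * 0.6931471803 < M.card * Real.log 2 := mul_lt_mul_of_pos_left h2 hMpos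
      have h6 : ((n : ℝ) - M.card) * Real.log 2 = n * Real.log 2 - M.card * Real.log 2 := by ring
      rw [h6]; linarith
    calc 0.69 * ((W.card : ℝ) * M.card) = W.card * (0.69 * M.card) := by ring
      _ ≤ _ := mul_le_mul_of_nonneg_left h4 hWc.le
  obtain ⟨S, hSc, hent⟩ := exists_S hsub huniq hW M hMne (by omega) hR hδ0 hδ1 hη0.le hTC hk hζ
    hstart hrec
  refine core_fixed hW hsub hclosed hRf hlen (by omega) hR S hSc M hf0 hΦ hb0 hCm ?_ hη2 (hTC S) hWcard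
    hL hθn hε0 hε1 ts hts.le ?_
  · rw [hΦ]; exact hent
  · have h1 : (n1 : ℝ) ≤ n := by exact_mod_cast hnn1
    have h2 := hn1.trans h1
    rw [div_le_iff₀ (by positivity)] at h2
    calc _ ≤ _ := h2
      _ = _ := by ring

end Pool.Agent.KN
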