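import Pool.Agent.KN.Stage

/-! Averages over all sets of `t` players. -/

namespace Pool.Agent.KN

open Finset Pool.Agent.SemRO

/-- double counting -/
lemma sum_insert_powerset {ι : Type*} [DecidableEq ι] (V : Finset ι) (t : ℕ) (F : Finset ι → ℝ) :
    ∑ S ∈ V.powersetCard t, ∑ j ∈ V \ S, F (insert j S) = (t + 1) * ∑ S ∈ V.powersetCard (t + 1), F S := by
  have h1 : ∑ S ∈ V.powersetCard (t + 1), ∑ j ∈ S, F S = (t + 1) * ∑ S ∈ V.powersetCard (t + 1), F S := by
    rw [Finset.mul_sum]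
    refine Finset.sum_congr rfl fun S hS => ?_
    rw [Finset.sum_const, (Finset.mem_powersetCard.mp hS).2, nsmul_eq_mul]
    push_cast; ring
  rw [← h1, Finset.sum_sigma', Finset.sum_sigma']
  refine Finset.sum_bij' (fun p _ => ⟨insert p.2 p.1, p.2⟩) (fun p _ => ⟨p.1.erase p.2, p.2⟩) ?_ ?_ ?_ ?_ ?_
  · rintro ⟨S, j⟩ h
    simp only [Finset.mem_sigma, Finset.mem_powersetCard, Finset.mem_sdiff] at h ⊢
    obtain ⟨⟨h1, h2⟩, h3, h4⟩ := h
    refine ⟨⟨Finset.insert_subset h3 h1, ?_⟩, Finset.mem_insert_self _ _⟩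
    rw [Finset.card_insert_of_notMem h4, h2]
  · rintro ⟨S, j⟩ h
    simp only [Finset.mem_sigma, Finset.mem_powersetCard, Finset.mem_sdiff] at h ⊢
    obtain ⟨⟨h1, h2⟩, h3⟩ := h
    refine ⟨⟨(Finset.erase_subset _ _).trans h1, ?_⟩, h1 h3, Finset.notMem_erase _ _⟩
    rw [Finset.card_erase_of_mem h3, h2]; rfl
  · rintro ⟨S, j⟩ h
    simp only [Finset.mem_sigma, Finset.mem_powersetCard, Finset.mem_sdiff] at h
    simp only [Finset.erase_insert h.2.2]
  · rintro ⟨S, j⟩ h
    simp only [Finset.mem_sigma, Finset.mem_powersetCard] at h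
    simp only [Finset.insert_erase h.2]
  · rintro ⟨S, j⟩ _
    rfl

lemma choose_ratio (R t : ℕ) (ht : t ≤ R) : ∀ p, p ≤ R →
    ((R - p).choose t : ℝ) ≤ (R.choose t : ℝ) * (((R : ℝ) - t) / R) ^ p := by
  intro p
  induction p with
  | zero => intro _; simp
  | succ p ih =>
    intro hp
    have h1 := ih (by omega)
    have hR : (0 : ℝ) < R := by exact_mod_cast (show 0 < R by omega)
    have htR : (t : ℝ) ≤ R := by exact_mod_cast ht
    have h2 := Nat.choose_mul_succ_eq (R - (p + 1)) t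
    have h3 : R - (p + 1) + 1 = R - p := by omega
    rw [h3] at h2
    have hRp : (0 : ℝ) < ((R - p : ℕ) : ℝ) := by exact_mod_cast (show 0 < R - p by omega)
    have hpR : ((R - p : ℕ) : ℝ) = R - p := by push_cast [Nat.cast_sub (show p ≤ R by omega)]; ring
    have h4 : (((R - (p + 1)).choose t : ℕ) : ℝ) * ((R - p : ℕ) : ℝ) ≤
        ((R - p).choose t : ℝ) * (((R - t : ℝ) / R) * ((R - p : ℕ) : ℝ)) := by
      have h5 : (((R - (p + 1)).choose t : ℕ) : ℝ) * ((R - p : ℕ) : ℝ) =
          ((R - p).choose t : ℝ) * ((R - p - t : ℕ) : ℝ) := by exact_mod_cast h2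
      rw [h5]
      apply mul_le_mul_of_nonneg_left _ (Nat.cast_nonneg _)
      have h6 : (0 : ℝ) ≤ p := Nat.cast_nonneg _
      have h7 : (0 : ℝ) ≤ t := Nat.cast_nonneg _
      rw [hpR, div_mul_eq_mul_div, le_div_iff₀ hR]
      rcases le_total t (R - p) with hle | hle
      · have h8 : ((R - p - t : ℕ) : ℝ) = R - p - t := by
          rw [Nat.cast_sub hle, hpR]
        rw [h8]
        nlinarith
      · have h8 : R - p - t = 0 := by omega
        rw [h8]
        have : (0 : ℝ) ≤ R - p := by rw [← hpR]; exact hRp.le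
        have h9 : 0 ≤ ((R : ℝ) - t) * (R - p) := mul_nonneg (by linarith) this
        simpa using h9
    have h9 : (((R - (p + 1)).choose t : ℕ) : ℝ) ≤ ((R - p).choose t : ℝ) * ((R - t : ℝ) / R) := by
      have : ((R - p).choose t : ℝ) * (((R - t : ℝ) / R) * ((R - p : ℕ) : ℝ)) =
        (((R - p).choose t : ℝ) * ((R - t : ℝ) / R)) * ((R - p : ℕ) : ℝ) := by ring
      rw [this] at h4
      exact le_of_mul_le_mul_right h4 hRp
    calc (((R - (p + 1)).choose t : ℕ) : ℝ) ≤ ((R - p).choose t : ℝ) * ((R - t : ℝ) / R) := h9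
      _ ≤ ((R.choose t : ℝ) * (((R : ℝ) - t) / R) ^ p) * ((R - t : ℝ) / R) := by
          apply mul_le_mul_of_nonneg_right h1
          exact div_nonneg (by linarith) hR.le
      _ = _ := by ring

variable {n R : ℕ} {c : Fin R → (Fin n → Bool) → Fin n → Option Bool} {W : Finset (Fin n → Bool)}

lemma card_disjoint (P : Finset (Fin R)) (t : ℕ) :
    (((Finset.univ : Finset (Fin R)).powersetCard t).filter (fun S => Disjoint P S)).card =
      (R - P.card).choose t := by
  classical
  have : ((Finset.univ : Finset (Fin R)).powersetCard t).filter (fun S => Disjoint P S) =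
      Pᶜ.powersetCard t := by
    ext S
    simp only [Finset.mem_filter, Finset.mem_powersetCard, Finset.subset_univ, true_and]
    constructor
    · rintro ⟨h1, h2⟩
      refine ⟨fun x hx => Finset.mem_compl.mpr fun hxP => Finset.disjoint_left.mp h2 hxP hx, h1⟩
    · rintro ⟨h1, h2⟩
      exact ⟨h2, Finset.disjoint_left.mpr fun x hxP hxS => Finset.mem_compl.mp (h1 hxS) hxP⟩
  rw [this, Finset.card_powersetCard, Finset.card_compl, Fintype.card_fin]

lemma sum_Hv (M : Finset (Fin n)) (t L : ℕ) (ht : t ≤ R) :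
    ∑ S ∈ (Finset.univ : Finset (Fin R)).powersetCard t, Hv W c M S L ≤
      (R.choose t : ℝ) * ((((R : ℝ) - t) / R) ^ L * ∑ z ∈ W, ∑ i ∈ M, ((rd c z i).card : ℝ)) := by
  classical
  unfold Hv
  rw [Finset.sum_comm]
  rw [Finset.mul_sum, Finset.mul_sum]
  refine Finset.sum_le_sum fun z _ => ?_
  rw [Finset.sum_comm, Finset.mul_sum, Finset.mul_sum]
  refine Finset.sum_le_sum fun i _ => ?_
  have hr0 : (0 : ℝ) ≤ (rd c z i).card := Nat.cast_nonneg _
  rcases Nat.eq_zero_or_pos R with hR | hR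
  · have h0 : (rd c z i).card = 0 := by
      have := card_rd_le (c := c) z i
      omega
    rw [h0]; simp
  have hRr : (0 : ℝ) < R := by exact_mod_cast hR
  have htR : (t : ℝ) ≤ R := by exact_mod_cast ht
  have hx0 : 0 ≤ ((R : ℝ) - t) / R := div_nonneg (by linarith) hRr.le
  have hx1 : ((R : ℝ) - t) / R ≤ 1 := by
    rw [div_le_one hRr]
    have : (0 : ℝ) ≤ t := Nat.cast_nonneg _
    linarith
  by_cases hL : L < (rd c z i).card
  · have e1 : ∑ S ∈ (Finset.univ : Finset (Fin R)).powersetCard t,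
        (if L < (rd c z i).card ∧ Disjoint (rd c z i) S then ((rd c z i).card : ℝ) else 0) =
        ((R - (rd c z i).card).choose t : ℝ) * (rd c z i).card := by
      have : ∀ S ∈ (Finset.univ : Finset (Fin R)).powersetCard t,
          (if L < (rd c z i).card ∧ Disjoint (rd c z i) S then ((rd c z i).card : ℝ) else 0) =
          (if Disjoint (rd c z i) S then ((rd c z i).card : ℝ) else 0) := by
        intro S _; simp [hL]
      rw [Finset.sum_congr rfl this, ← Finset.sum_filter, Finset.sum_const, card_disjoint, nsmul_eq_mul]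
    rw [e1]
    have h1 := choose_ratio R t ht (rd c z i).card (card_rd_le z i)
    have h2 : (((R : ℝ) - t) / R) ^ (rd c z i).card ≤ (((R : ℝ) - t) / R) ^ L :=
      pow_le_pow_of_le_one hx0 hx1 hL.le
    calc ((R - (rd c z i).card).choose t : ℝ) * (rd c z i).card
        ≤ ((R.choose t : ℝ) * (((R : ℝ) - t) / R) ^ (rd c z i).card) * (rd c z i).card :=
          mul_le_mul_of_nonneg_right h1 hr0
      _ ≤ ((R.choose t : ℝ) * (((R : ℝ) - t) / R) ^ L) * (rd c z i).card := by gcongr
      _ = _ := by ring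
  · have e1 : ∑ S ∈ (Finset.univ : Finset (Fin R)).powersetCard t,
        (if L < (rd c z i).card ∧ Disjoint (rd c z i) S then ((rd c z i).card : ℝ) else 0) = 0 := by
      apply Finset.sum_eq_zero
      intro S _
      rw [if_neg (fun h => hL h.1)]
    rw [e1]
    positivity

/-- average over the sets of `t` players of the entropy rate of `M` -/
noncomputable def Aav (W : Finset (Fin n → Bool)) (c : Fin R → (Fin n → Bool) → Fin n → Option Bool)
    (M : Finset (Fin n)) (t : ℕ) : ℝ :=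
  (∑ S ∈ (Finset.univ : Finset (Fin R)).powersetCard t, Gs W c M S) / (R.choose t * (W.card * M.card))

theorem avg_step {δ : ℝ} (hδ0 : 0 < δ) (hδ1 : δ ≤ 1 / 2)
    (hsub : ∀ z ∈ W, ∀ j, Sub (c j z) z)
    (huniq : ∀ z ∈ W, ∀ z' ∈ W, ∀ j, Sub (c j z') z → Sub (c j z) z' → c j z = c j z')
    (hW : W.Nonempty) (M : Finset (Fin n)) (hM : M.Nonempty) (t L : ℕ) (ht : t < R)
    {l : ℝ} (hl0 : 0 < l) (hl1 : l ≤ 1 / 2) {η k2 : ℝ}
    (hη : ∀ S, TC W c M S ≤ η * (W.card * M.card))
    (hk : ∑ z ∈ W, ∑ i ∈ M, ((rd c z i).card : ℝ) ≤ k2 * (W.card * M.card)) :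
    ((R : ℝ) - t) * (Aav W c M t - Aav W c M (t + 1)) ≤
      2 * L * (Aav W c M t + η) + (-Real.log l + 1) * ((((R : ℝ) - t) / R) ^ L * k2) +
      R * Real.binEntropy l + 4 * δ * k2 + R / δ * η := by
  classical
  set D : ℝ := (W.card * M.card : ℝ) with hD
  have hWc : (0 : ℝ) < W.card := Nat.cast_pos.mpr (Finset.card_pos.mpr hW)
  have hMc : (0 : ℝ) < M.card := Nat.cast_pos.mpr (Finset.card_pos.mpr hM)
  have hDpos : 0 < D := mul_pos hWc hMc
  have hRpos : 0 < R := by omega
  have hRr : (0 : ℝ) < R := by exact_mod_cast hRpos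
  have htR : (t : ℝ) < R := by exact_mod_cast ht
  have hch : (0 : ℝ) < R.choose t := by exact_mod_cast Nat.choose_pos ht.le
  have hch' : (0 : ℝ) < R.choose (t + 1) := by exact_mod_cast Nat.choose_pos ht
  set X := ∑ S ∈ (Finset.univ : Finset (Fin R)).powersetCard t, Gs W c M S with hX
  set X' := ∑ S ∈ (Finset.univ : Finset (Fin R)).powersetCard (t + 1), Gs W c M S with hX'
  -- sum the stage inequality
  have h1 := Finset.sum_le_sum (fun S (_ : S ∈ (Finset.univ : Finset (Fin R)).powersetCard t) =>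
    stage hδ0 hδ1 hsub huniq M S L hl0 hl1)
  have e1 : ∑ S ∈ (Finset.univ : Finset (Fin R)).powersetCard t,
      ∑ j ∈ Sᶜ, (Gs W c M S - Gs W c M (insert j S)) = ((R : ℝ) - t) * X - (t + 1) * X' := by
    have h2 : ∀ S ∈ (Finset.univ : Finset (Fin R)).powersetCard t,
        ∑ j ∈ Sᶜ, (Gs W c M S - Gs W c M (insert j S)) =
        ((R : ℝ) - t) * Gs W c M S - ∑ j ∈ Finset.univ \ S, Gs W c M (insert j S) := by
      intro S hS
      rw [Finset.sum_sub_distrib, Finset.sum_const, Finset.card_compl, Fintype.card_fin,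
        (Finset.mem_powersetCard.mp hS).2, nsmul_eq_mul, Nat.cast_sub ht.le,
        Finset.compl_eq_univ_sdiff]
    rw [Finset.sum_congr rfl h2, Finset.sum_sub_distrib, ← Finset.mul_sum,
      sum_insert_powerset Finset.univ t (Gs W c M)]
  rw [e1] at h1
  have hG0 : 0 ≤ -Real.log l + 1 := by
    have := Real.log_nonpos hl0.le (by linarith)
    linarith
  have hcardU : (((Finset.univ : Finset (Fin R)).powersetCard t).card : ℝ) = R.choose t := by
    rw [Finset.card_powersetCard, Finset.card_univ, Fintype.card_fin]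
  have hTCsum : ∑ S ∈ (Finset.univ : Finset (Fin R)).powersetCard t, TC W c M S ≤
      (R.choose t : ℝ) * (η * D) := by
    calc _ ≤ ∑ S ∈ (Finset.univ : Finset (Fin R)).powersetCard t, η * D :=
          Finset.sum_le_sum fun S _ => hη S
      _ = _ := by rw [Finset.sum_const, nsmul_eq_mul, hcardU]
  have hHv := sum_Hv (W := W) (c := c) M t L ht.le
  have hx0 : 0 ≤ (((R : ℝ) - t) / R) ^ L := pow_nonneg (div_nonneg (by linarith) hRr.le) _
  have hHv2 : ∑ S ∈ (Finset.univ : Finset (Fin R)).powersetCard t, Hv W c M S L ≤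
      (R.choose t : ℝ) * ((((R : ℝ) - t) / R) ^ L * (k2 * D)) := by
    refine hHv.trans ?_
    gcongr
  have e2 : ∑ S ∈ (Finset.univ : Finset (Fin R)).powersetCard t,
      (2 * L * (Gs W c M S + TC W c M S) + (-Real.log l + 1) * Hv W c M S L +
      R * (W.card * M.card * Real.binEntropy l) + 4 * δ * ∑ z ∈ W, ∑ i ∈ M, ((rd c z i).card : ℝ) +
      R / δ * TC W c M S) =
      2 * L * (X + ∑ S ∈ (Finset.univ : Finset (Fin R)).powersetCard t, TC W c M S) +
      (-Real.log l + 1) * ∑ S ∈ (Finset.univ : Finset (Fin R)).powersetCard t, Hv W c M S L +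
      (R.choose t : ℝ) * (R * (D * Real.binEntropy l)) +
      (R.choose t : ℝ) * (4 * δ * ∑ z ∈ W, ∑ i ∈ M, ((rd c z i).card : ℝ)) +
      R / δ * ∑ S ∈ (Finset.univ : Finset (Fin R)).powersetCard t, TC W c M S := by
    simp only [Finset.sum_add_distrib, ← Finset.mul_sum, Finset.sum_const, nsmul_eq_mul, hcardU]
    rw [hD, hX]
    ring
  rw [e2] at h1
  have h3 : ((R : ℝ) - t) * X - (t + 1) * X' ≤
      2 * L * (X + (R.choose t : ℝ) * (η * D)) +
      (-Real.log l + 1) * ((R.choose t : ℝ) * ((((R : ℝ) - t) / R) ^ L * (k2 * D))) +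
      (R.choose t : ℝ) * (R * (D * Real.binEntropy l)) +
      (R.choose t : ℝ) * (4 * δ * (k2 * D)) +
      R / δ * ((R.choose t : ℝ) * (η * D)) := by
    refine h1.trans ?_
    gcongr
  -- divide by `choose * D`
  have hA : Aav W c M t = X / (R.choose t * D) := rfl
  have hA' : Aav W c M (t + 1) = X' / (R.choose (t + 1) * D) := rfl
  have hchr : ((R.choose (t + 1) : ℕ) : ℝ) * (t + 1) = R.choose t * (R - t) := by
    have := Nat.choose_succ_right_eq R t
    have h4 : ((R.choose (t + 1) * (t + 1) : ℕ) : ℝ) = ((R.choose t * (R - t) : ℕ) : ℝ) := by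
      rw [this]
    push_cast [Nat.cast_sub ht.le] at h4
    exact h4
  have hpos : 0 < (R.choose t : ℝ) * D := mul_pos hch hDpos
  have e3 : ((R : ℝ) - t) * (Aav W c M t - Aav W c M (t + 1)) =
      (((R : ℝ) - t) * X - (t + 1) * X') / (R.choose t * D) := by
    rw [hA, hA']
    have : X' / ((R.choose (t + 1) : ℝ) * D) = (t + 1) * X' / ((R.choose t * (R - t)) * D) := by
      rw [← hchr]
      have h5 : ((t : ℝ) + 1) ≠ 0 := by positivity
      field_simp
    rw [this]
    have h6 : (R : ℝ) - t ≠ 0 := by linarith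
    field_simp
  rw [e3, div_le_iff₀ hpos]
  refine h3.trans (le_of_eq ?_)
  rw [hA]
  field_simp

end Pool.Agent.KN
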