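import Pool.Agent.KN.Cost

/-! Conditional forms: classes of a function `u` on `W`. -/

namespace Pool.Agent.KN

open Finset Pool.Agent.SemRO

variable {n : ℕ} {β γ γ' : Type*}

/-- conditional probability (given the class of `u`) of the value `z i` -/
noncomputable def qq (W : Finset (Fin n → Bool)) (u : (Fin n → Bool) → β) (i : Fin n)
    (z : Fin n → Bool) : ℝ := marg (fib W u z) i (z i)

lemma qq_pos {W : Finset (Fin n → Bool)} {u : (Fin n → Bool) → β} {z : Fin n → Bool} (hz : z ∈ W)
    (i : Fin n) : 0 < qq W u i z := marg_pos (self_mem_fib hz) i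

lemma qq_le_one {W : Finset (Fin n → Bool)} {u : (Fin n → Bool) → β} {z : Fin n → Bool} (hz : z ∈ W)
    (i : Fin n) : qq W u i z ≤ 1 := marg_le_one ⟨z, self_mem_fib hz⟩ i _

lemma qq_eq {W : Finset (Fin n → Bool)} {u : (Fin n → Bool) → β} {z : Fin n → Bool}
    (i : Fin n) : qq W u i z = ((fib W (fun x => (u x, x i)) z).card : ℝ) / (fib W u z).card := by
  classical
  unfold qq marg
  congr 2
  congr 1
  ext w
  simp only [mem_filter, mem_fib, Prod.mk.injEq]
  tauto

lemma mass_univ {p : Fin n → Bool → ℝ} (hp1 : ∀ i, p i false + p i true = 1) :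
    mass p Finset.univ = 1 := by
  classical
  unfold mass
  have h := Finset.prod_univ_sum (fun _ : Fin n => (Finset.univ : Finset Bool)) (fun i y => p i y)
  rw [Fintype.piFinset_univ] at h
  rw [← h]
  apply Finset.prod_eq_one
  intro i _
  rw [Fintype.sum_bool, add_comm]
  exact hp1 i

/-- total correlation of a class is nonnegative -/
lemma tc_class_nonneg (G : Finset (Fin n → Bool)) :
    0 ≤ ∑ z ∈ G, ((∑ i, - Real.log (marg G i (z i))) - Real.log G.card) := by
  classical
  rcases G.eq_empty_or_nonempty with rfl | hne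
  · simp
  have hG : (0 : ℝ) < G.card := Nat.cast_pos.mpr (Finset.card_pos.mpr hne)
  have hg := gibbs G (fun z => G.card * ∏ i, marg G i (z i))
    (fun z hz => mul_pos hG (Finset.prod_pos fun i _ => marg_pos hz i))
    (by
      rw [← Finset.mul_sum]
      have h1 : ∑ z ∈ G, ∏ i, marg G i (z i) ≤ 1 := by
        have h2 := mass_mono (marg_nonneg G) (Finset.subset_univ G)
        rw [mass_univ (marg_sum hne)] at h2
        exact h2
      calc (G.card : ℝ) * _ ≤ G.card * 1 := mul_le_mul_of_nonneg_left h1 hG.le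
        _ = G.card := mul_one _)
  have h3 : ∀ z ∈ G, Real.log (G.card * ∏ i, marg G i (z i)) =
      - ((∑ i, - Real.log (marg G i (z i))) - Real.log G.card) := by
    intro z hz
    rw [Real.log_mul hG.ne' (Finset.prod_pos fun i _ => marg_pos hz i).ne',
      Real.log_prod (fun i _ => (marg_pos hz i).ne'), Finset.sum_neg_distrib]
    ring
  rw [Finset.sum_congr rfl h3, Finset.sum_neg_distrib] at hg
  linarith

lemma sum_fib_const (W : Finset (Fin n → Bool)) (u : (Fin n → Bool) → β) (z : Fin n → Bool)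
    (f : (Fin n → Bool) → ℝ) (g : (Fin n → Bool) → ℝ) (h : ∀ w ∈ fib W u z, f w = g w) :
    ∑ w ∈ fib W u z, f w = ∑ w ∈ fib W u z, g w := Finset.sum_congr rfl h

/-- the key inequality, conditional form -/
theorem T_cond {δ : ℝ} (hδ0 : 0 < δ) (hδ1 : δ ≤ 1 / 2) (W : Finset (Fin n → Bool))
    (u : (Fin n → Bool) → β)
    (c : (Fin n → Bool) → Fin n → Option Bool) (hsub : ∀ z ∈ W, Sub (c z) z)
    (hD : ∀ z ∈ W, ∀ z' ∈ W, Sub (c z') z → Sub (c z) z' → c z = c z') :
    ∑ z ∈ W, (Real.log (fib W u z).card - Real.log (fib W (fun x => (u x, c x)) z).card) ≤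
      ∑ z ∈ W, ∑ i ∈ dom (c z), cst δ (qq W u i z) +
      (1 / δ) * ∑ z ∈ W, ((∑ i, - Real.log (qq W u i z)) - Real.log (fib W u z).card) := by
  classical
  rw [Finset.mul_sum, ← Finset.sum_add_distrib]
  apply sum_le_of_fib W u
  intro z hz
  rw [Finset.sum_add_distrib, ← Finset.mul_sum]
  set G := fib W u z with hGdef
  have hT := T_class hδ0 hδ1 G c (fun w hw => hsub w (mem_fib.mp hw).1)
    (fun w hw w' hw' => hD w (mem_fib.mp hw).1 w' (mem_fib.mp hw').1)
  have h0 := tc_class_nonneg G
  have hGw : ∀ w ∈ G, fib W u w = G := fun w hw => fib_congr (mem_fib.mp hw).2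
  have e1 : ∑ w ∈ G, (Real.log (fib W u w).card - Real.log (fib W (fun x => (u x, c x)) w).card) =
      ∑ w ∈ G, (Real.log G.card - Real.log (fib G c w).card) := by
    refine Finset.sum_congr rfl fun w hw => ?_
    rw [hGw w hw, hGdef, fib_fib W u c hw]
  have e2 : ∑ w ∈ G, ∑ i ∈ dom (c w), cst δ (qq W u i w) =
      ∑ w ∈ G, ∑ i ∈ dom (c w), cst δ (marg G i (w i)) := by
    refine Finset.sum_congr rfl fun w hw => ?_
    unfold qq
    rw [hGw w hw]
  have e3 : ∑ w ∈ G, ((∑ i, - Real.log (qq W u i w)) - Real.log (fib W u w).card) =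
      ∑ w ∈ G, ((∑ i, - Real.log (marg G i (w i))) - Real.log G.card) := by
    refine Finset.sum_congr rfl fun w hw => ?_
    unfold qq
    rw [hGw w hw]
  rw [e1, e2, e3]
  have e4 : ∑ w ∈ G, ∑ i ∈ dom (c w), δ * cst δ (marg G i (w i)) =
      δ * ∑ w ∈ G, ∑ i ∈ dom (c w), cst δ (marg G i (w i)) := by
    rw [Finset.mul_sum]
    refine Finset.sum_congr rfl fun w _ => ?_
    rw [Finset.mul_sum]
  rw [e4] at hT
  generalize ∑ w ∈ G, (Real.log G.card - Real.log (fib G c w).card) = a at *
  generalize ∑ w ∈ G, ∑ i ∈ dom (c w), cst δ (marg G i (w i)) = b at *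
  generalize ∑ w ∈ G, ((∑ i, - Real.log (marg G i (w i))) - Real.log G.card) = d at *
  have h1 : δ * a ≤ δ * (b + 1 / δ * d) := by
    have : δ * (b + 1 / δ * d) = δ * b + d := by field_simp
    rw [this]
    nlinarith
  exact le_of_mul_le_mul_left h1 hδ0

/-- strong subadditivity -/
lemma ssa (W : Finset (Fin n → Bool)) (h : (Fin n → Bool) → β) (f : (Fin n → Bool) → γ)
    (g : (Fin n → Bool) → γ') :
    ∑ z ∈ W, (Real.log (fib W (fun x => (h x, f x)) z).card +
      Real.log (fib W (fun x => (h x, g x)) z).card) ≤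
    ∑ z ∈ W, (Real.log (fib W h z).card + Real.log (fib W (fun x => (h x, (f x, g x))) z).card) := by
  classical
  apply sum_le_of_fib W h
  intro z hz
  set G := fib W h z with hGdef
  have hE := E_pair_le G f g
  have hGw : ∀ w ∈ G, fib W h w = G := fun w hw => fib_congr (mem_fib.mp hw).2
  unfold E at hE
  rw [← Finset.sum_add_distrib] at hE
  have e1 : ∑ w ∈ G, (Real.log (fib W (fun x => (h x, f x)) w).card +
      Real.log (fib W (fun x => (h x, g x)) w).card) =
      ∑ w ∈ G, (Real.log (fib G f w).card + Real.log (fib G g w).card) := by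
    refine Finset.sum_congr rfl fun w hw => ?_
    rw [hGdef, fib_fib W h f hw, fib_fib W h g hw]
  have e2 : ∑ w ∈ G, (Real.log (fib W h w).card + Real.log (fib W (fun x => (h x, (f x, g x))) w).card) =
      ∑ w ∈ G, (Real.log G.card + Real.log (fib G (fun x => (f x, g x)) w).card) := by
    refine Finset.sum_congr rfl fun w hw => ?_
    rw [hGw w hw]
    rw [hGdef, fib_fib W h (fun x => (f x, g x)) hw]
  rw [e1, e2]
  rw [← sub_nonneg, ← Finset.sum_sub_distrib] at hE ⊢
  refine hE.trans (le_of_eq ?_)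
  refine Finset.sum_congr rfl fun w _ => ?_
  ring

end Pool.Agent.KN
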