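import Pool.Agent.KN.Gs

/-! The numerical recursion. -/

namespace Pool.Agent.KN

open Finset Pool.Agent.SemRO Filter

lemma binEntropy_sq_le {w : ℝ} (hw0 : 0 < w) (hw1 : w ≤ 1) : Real.binEntropy (w ^ 2) ≤ 2 * w := by
  have hl0 : 0 < w ^ 2 := by positivity
  have hl1 : w ^ 2 ≤ 1 := pow_le_one₀ hw0.le hw1
  rw [← mul_hh hl0.le]
  have h1 := hh_le hl0 hl1
  have h2 := x_log_sq hl0 hl1
  have h3 : w ^ 2 * Real.log (w ^ 2) ^ 2 ≤ 1 := by
    refine h2.trans ?_
    have h4 : 0 ≤ 1 - w ^ 2 := by linarith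
    have h5 : 1 - w ^ 2 ≤ 1 := by linarith
    exact pow_le_one₀ h4 h5
  have h4 : w * -Real.log (w ^ 2) ≤ 1 := by
    have h5 : (w * -Real.log (w ^ 2)) ^ 2 ≤ 1 := by
      calc (w * -Real.log (w ^ 2)) ^ 2 = w ^ 2 * Real.log (w ^ 2) ^ 2 := by ring
        _ ≤ 1 := h3
    exact (abs_le.mp ((sq_le_one_iff_abs_le_one _).mp h5)).2
  have h5 : w ^ 2 * hh (w ^ 2) ≤ w ^ 2 * (-Real.log (w ^ 2) + 1) :=
    mul_le_mul_of_nonneg_left h1 hl0.le
  have h6 : w ^ 2 * (-Real.log (w ^ 2) + 1) = w * (w * -Real.log (w ^ 2)) + w * w := by ring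
  have h7 : w * (w * -Real.log (w ^ 2)) ≤ w * 1 := mul_le_mul_of_nonneg_left h4 hw0.le
  have h8 : w * w ≤ w * 1 := mul_le_mul_of_nonneg_left hw1 hw0.le
  linarith

lemma step_log {r : ℝ} (hr : 2 ≤ r) :
    1 / r ≤ Real.log r - Real.log (r - 1) ∧ Real.log r - Real.log (r - 1) ≤ 2 / r := by
  have h0 : 0 < r := by linarith
  have h1 : 0 < r - 1 := by linarith
  constructor
  · have h2 := Real.log_le_sub_one_of_pos (div_pos h1 h0)
    rw [Real.log_div h1.ne' h0.ne'] at h2
    have h3 : (r - 1) / r - 1 = - (1 / r) := by field_simp; ring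
    rw [h3] at h2; linarith
  · have h2 := Real.log_le_sub_one_of_pos (div_pos h0 h1)
    rw [Real.log_div h0.ne' h1.ne'] at h2
    have h3 : r / (r - 1) - 1 = 1 / (r - 1) := by field_simp; ring
    have h4 : 1 / (r - 1) ≤ 2 / r := by
      rw [div_le_div_iff₀ h1 h0]; linarith
    linarith

lemma bern (X h : ℝ) (hX : 0 ≤ X) (hh : 0 ≤ h) : ∀ n : ℕ,
    X ^ (n + 1) + (n + 1) * X ^ n * h ≤ (X + h) ^ (n + 1) := by
  intro n
  induction n with
  | zero => simp
  | succ n ih =>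
    have h1 : (X + h) ^ (n + 1 + 1) = (X + h) ^ (n + 1) * (X + h) := pow_succ _ _
    rw [h1]
    have h2 := mul_le_mul_of_nonneg_right ih (add_nonneg hX hh)
    refine le_trans ?_ h2
    push_cast
    have h3 : 0 ≤ ((n : ℝ) + 1) * X ^ n * h * h := by positivity
    have e : (X ^ (n + 1) + ((n : ℝ) + 1) * X ^ n * h) * (X + h) =
      X ^ (n + 1 + 1) + ((n : ℝ) + 1 + 1) * X ^ (n + 1) * h + ((n : ℝ) + 1) * X ^ n * h * h := by ring
    rw [e]; linarith

lemma exp_le_one_sub {y : ℝ} (h0 : 0 ≤ y) (h1 : y ≤ 1 / 2) : Real.exp (-(2 * y)) ≤ 1 - y := by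
  have h2 := Real.add_one_le_exp (2 * y)
  have h3 : 0 < 1 + 2 * y := by linarith
  rw [Real.exp_neg]
  have h4 : (Real.exp (2 * y))⁻¹ ≤ (1 + 2 * y)⁻¹ := inv_anti₀ h3 (by linarith)
  refine h4.trans ?_
  rw [inv_le_iff_one_le_mul₀ h3]
  nlinarith

lemma ev_log (K : ℝ) (n : ℕ) : ∀ᶠ m : ℕ in atTop, K * Real.log m ^ n ≤ m := by
  have h := Real.isLittleO_pow_log_id_atTop (n := n)
  have h2 := h.def (c := 1 / (|K| + 1)) (by positivity)
  have h3 := tendsto_natCast_atTop_atTop (R := ℝ) |>.eventually h2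
  filter_upwards [h3] with m hm
  simp only [id, Real.norm_eq_abs] at hm
  have h4 : |((m : ℕ) : ℝ)| = m := abs_of_nonneg (Nat.cast_nonneg _)
  rw [h4] at hm
  have h5 : K * Real.log m ^ n ≤ |K| * |Real.log m ^ n| := by
    rw [← abs_mul]; exact le_abs_self _
  have h6 : |K| * |Real.log m ^ n| ≤ |K| * (1 / (|K| + 1) * m) :=
    mul_le_mul_of_nonneg_left hm (abs_nonneg _)
  have h7 : |K| * (1 / (|K| + 1) * m) ≤ m := by
    have h8 : |K| * (1 / (|K| + 1)) ≤ 1 := by
      rw [mul_one_div, div_le_one (by positivity)]; linarith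
    calc |K| * (1 / (|K| + 1) * m) = (|K| * (1 / (|K| + 1))) * m := by ring
      _ ≤ 1 * m := mul_le_mul_of_nonneg_right h8 (Nat.cast_nonneg _)
      _ = m := one_mul _
  linarith

section Numerics

open Real Topology

/-- Upper bound for the binary entropy. -/
lemma binEntropy_le {l : ℝ} (h1 : l < 1) :
    binEntropy l ≤ l * (log (1 / l) + 1) := by
  unfold binEntropy
  have h2 : 0 < 1 - l := by linarith
  have h3 : log (1 - l)⁻¹ ≤ (1 - l)⁻¹ - 1 := Real.log_le_sub_one_of_pos (inv_pos.mpr h2)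
  have h4 : (1 - l) * log (1 - l)⁻¹ ≤ (1 - l) * ((1 - l)⁻¹ - 1) :=
    mul_le_mul_of_nonneg_left h3 h2.le
  have h5 : (1 - l) * ((1 - l)⁻¹ - 1) = l := by field_simp; ring
  rw [one_div]
  nlinarith

/-- the exponent -/
noncomputable def ff (y s0 s : ℝ) : ℝ := y * (1 + s / s0) ^ 10

lemma exp_neg_le {x : ℝ} (h0 : 0 ≤ x) (h1 : x ≤ 1) : exp (-x) ≤ 1 - x / 2 := by
  rw [Real.exp_neg]
  have h := Real.add_one_le_exp x
  calc (exp x)⁻¹ ≤ (x + 1)⁻¹ := inv_anti₀ (by linarith) h
    _ ≤ 1 - x / 2 := by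
      rw [inv_le_iff_one_le_mul₀ (by linarith)]
      nlinarith

lemma log_le_div {x : ℝ} (hx : 100 ≤ x) : log x ≤ x / 16 := by
  have h1 : log x = log (x / 32) + log 32 := by
    rw [← Real.log_mul (by positivity) (by norm_num)]
    congr 1
    ring
  have h2 : log (x / 32) ≤ x / 32 - 1 := Real.log_le_sub_one_of_pos (by positivity)
  have h3 : log 32 = 5 * log 2 := by
    rw [show (32 : ℝ) = 2 ^ 5 by norm_num, Real.log_pow]
    norm_num
  have h4 := Real.log_two_lt_d9
  rw [h1, h3]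
  linarith

/-- One step. -/
lemma step {k K y s0 s s' u R A A' ζ : ℝ} (hkK : k ≤ K) (hK : 1 ≤ K)
    (hy : 100 ≤ y) (hyK : 8 * log (14 * K) ≤ y) (hR : R = exp y) (hs0 : 0 < s0)
    (hs0' : s0 ≤ 1 / 200) (hs : s0 ≤ s) (hu : 0 < u) (hs' : s + 1 / u ≤ s')
    (hx : 5 * ff y s0 s ≤ s * u) (hζ : ζ ≤ exp (-ff y s0 s) / 4)
    (hA : exp (-ff y s0 s) ≤ A)
    (huR : u ≤ R)
    (H : ∀ (L : ℕ) (l : ℝ), (L : ℝ) ≤ R → 0 < l → l ≤ 1 / 2 →
      A - (2 * L * A + 2 * k * (log (1 / l) + 1) * (exp (-s)) ^ L + R * binEntropy l + ζ) / u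
        ≤ A') :
    exp (-ff y s0 s') ≤ A' := by
  have hspos : 0 < s := lt_of_lt_of_le hs0 hs
  set F := ff y s0 s with hF
  have hFy : y * (1 + 10 * (s / s0)) ≤ F := by
    have hb : 1 + (10 : ℕ) * (s / s0) ≤ (1 + s / s0) ^ 10 :=
      one_add_mul_le_pow (by have : 0 < s / s0 := by positivity
                             linarith) 10
    have : y * (1 + 10 * (s / s0)) ≤ y * (1 + s / s0) ^ 10 := by
      apply mul_le_mul_of_nonneg_left _ (by linarith)
      push_cast at hb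
      exact hb
    exact this
  have hss : 1 ≤ s / s0 := by rw [le_div_iff₀ hs0]; linarith
  have hys : 100 * (s / s0) ≤ y * (s / s0) := mul_le_mul_of_nonneg_right hy (by linarith)
  have hFy' : y ≤ F := by linarith
  have hF100 : 100 ≤ F := by linarith
  have hFs : 28 * s ≤ F := by
    have h1 : s ≤ s / s0 := by
      rw [le_div_iff₀ hs0]
      exact mul_le_of_le_one_right hspos.le (by linarith)
    linarith
  set E := exp (-F) with hE
  have hEpos : 0 < E := exp_pos _
  have hRpos : 0 < R := by rw [hR]; exact exp_pos _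
  have hR1 : 1 ≤ R := by rw [hR]; exact one_le_exp (by linarith)
  -- the parameter `l`
  set l := E ^ 2 / (4 * R ^ 2) with hl
  have hlpos : 0 < l := by positivity
  have hE1 : E ≤ 1 := by rw [hE]; exact exp_le_one_iff.mpr (by linarith)
  have hl2 : l ≤ 1 / 2 := by
    rw [hl, div_le_iff₀ (by positivity)]
    have h1 : E ^ 2 ≤ 1 := pow_le_one₀ hEpos.le hE1
    have h2 : 1 ≤ R ^ 2 := one_le_pow₀ hR1
    linarith
  have hlogl : log (1 / l) = 2 * F + 2 * y + log 4 := by
    rw [one_div, Real.log_inv, hl, Real.log_div (by positivity) (by positivity), Real.log_pow,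
      Real.log_mul (by norm_num) (by positivity), Real.log_pow, hE, Real.log_exp, hR, Real.log_exp]
    push_cast
    ring
  have hlog4 : log 4 ≤ 2 := by
    have h1 : log 4 = 2 * log 2 := by
      rw [show (4 : ℝ) = 2 ^ 2 by norm_num, Real.log_pow]; norm_num
    have := Real.log_two_lt_d9
    rw [h1]; linarith
  have hlog4' : 0 ≤ log 4 := Real.log_nonneg (by norm_num)
  set G := log (1 / l) + 1 with hG
  have hG7 : G ≤ 7 * F := by rw [hG, hlogl]; linarith
  have hGpos : 1 ≤ G := by rw [hG, hlogl]; linarith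
  have hGE : E * G ≤ 1 := by
    have h1 : 7 * F ≤ exp F := by
      have h2 := Real.quadratic_le_exp_of_nonneg (x := F) (by linarith)
      nlinarith
    have h2 : E * exp F = 1 := by rw [hE, ← Real.exp_add]; simp
    calc E * G ≤ E * exp F := mul_le_mul_of_nonneg_left (hG7.trans h1) hEpos.le
      _ = 1 := h2
  -- the logarithm
  set Q := log (2 * K * G) with hQ
  have hQle : 4 * Q + 7 * s ≤ F := by
    have h1 : Q ≤ log (14 * K * F) := by
      apply Real.log_le_log (by positivity)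
      calc 2 * K * G ≤ 2 * K * (7 * F) := mul_le_mul_of_nonneg_left hG7 (by positivity)
        _ = 14 * K * F := by ring
    have h2 : log (14 * K * F) = log (14 * K) + log F :=
      Real.log_mul (by positivity) (by positivity)
    have h3 := log_le_div hF100
    linarith
  have hQ0 : 0 ≤ Q := by
    apply Real.log_nonneg
    have := one_le_mul_of_one_le_of_one_le hK hGpos
    linarith
  set L := ⌈(F + Q) / s⌉₊ with hL
  have hL1 : (F + Q) / s ≤ L := Nat.le_ceil _
  have hL2 : (L : ℝ) < (F + Q) / s + 1 := Nat.ceil_lt_add_one (by positivity)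
  have hLs1 : F + Q ≤ L * s := by rwa [div_le_iff₀ hspos] at hL1
  have hLs2 : (L : ℝ) * s ≤ F + Q + s := by
    have h1 : (L : ℝ) * s ≤ ((F + Q) / s + 1) * s := mul_le_mul_of_nonneg_right hL2.le hspos.le
    have h2 : ((F + Q) / s + 1) * s = F + Q + s := by field_simp
    linarith
  have hLR : (L : ℝ) ≤ R := by
    have h1 : (F + Q) / s ≤ 2 * F / s := div_le_div_of_nonneg_right (by linarith) hspos.le
    have h2 : 2 * F / s ≤ 2 / 5 * u := by
      rw [div_le_iff₀ hspos]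
      linarith
    have h3 : 100 + 1 ≤ R := by
      rw [hR]
      have := Real.add_one_le_exp y
      linarith
    linarith
  have hH := H L l hLR hlpos hl2
  -- the error terms
  have e1 : 2 * k * G * (exp (-s)) ^ L ≤ E := by
    have h1 : (exp (-s)) ^ L = exp (-(L * s)) := by
      rw [← Real.exp_nat_mul]
      congr 1
      ring
    have h2 : exp (-(L * s)) ≤ exp (-F) * exp (-Q) := by
      rw [← Real.exp_add]
      apply Real.exp_le_exp.mpr
      linarith
    have h3 : exp (-Q) = (2 * K * G)⁻¹ := by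
      rw [Real.exp_neg, hQ, Real.exp_log (by positivity)]
    rw [h3] at h2
    rw [h1]
    calc 2 * k * G * exp (-(L * s)) ≤ 2 * K * G * (exp (-F) * (2 * K * G)⁻¹) := by
          apply mul_le_mul _ h2 (exp_pos _).le (by positivity)
          apply mul_le_mul_of_nonneg_right _ (by linarith)
          linarith
      _ = E := by
          rw [hE]
          field_simp
  have e2 : R * binEntropy l ≤ E / 4 := by
    have h1 := binEntropy_le (l := l) (by linarith)
    have h2 : R * binEntropy l ≤ R * (l * G) := mul_le_mul_of_nonneg_left h1 hRpos.le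
    have h3 : R * (l * G) = E * (E * G) / (4 * R) := by
      rw [hl]
      field_simp
    have h4 : E * (E * G) / (4 * R) ≤ E / 4 := by
      have h5 : E * (E * G) ≤ E * R := mul_le_mul_of_nonneg_left (by linarith) hEpos.le
      rw [div_le_div_iff₀ (by positivity) (by norm_num)]
      linarith
    linarith
  have hErr : 2 * L * A + 2 * k * G * (exp (-s)) ^ L + R * binEntropy l + ζ ≤
      2 * L * A + 3 / 2 * E := by linarith
  have hA1 : A - (2 * L * A + 3 / 2 * E) / u ≤ A' := by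
    refine le_trans ?_ hH
    have := div_le_div_of_nonneg_right hErr hu.le
    linarith
  -- the potential
  set x := 5 * F / (s * u) with hxdef
  have hx0 : 0 ≤ x := by positivity
  have hx1 : x ≤ 1 := by rw [hxdef, div_le_one (by positivity)]; exact hx
  have hff : F + x ≤ ff y s0 s' := by
    have h1 : (1 + s / s0) ^ 10 * (1 + 10 * (1 / u / (s0 + s))) ≤ (1 + s' / s0) ^ 10 := by
      have h2 : (1 + s / s0) * (1 + 1 / u / (s0 + s)) ≤ 1 + s' / s0 := by
        have h3 : (1 + s / s0) * (1 + 1 / u / (s0 + s)) = 1 + (s + 1 / u) / s0 := by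
          field_simp
          ring
        rw [h3]
        have := div_le_div_of_nonneg_right hs' hs0.le
        linarith
      have h4 : 1 + (10 : ℕ) * (1 / u / (s0 + s)) ≤ (1 + 1 / u / (s0 + s)) ^ 10 :=
        one_add_mul_le_pow (by have : 0 < 1 / u / (s0 + s) := by positivity
                               linarith) 10
      push_cast at h4
      calc (1 + s / s0) ^ 10 * (1 + 10 * (1 / u / (s0 + s)))
          ≤ (1 + s / s0) ^ 10 * (1 + 1 / u / (s0 + s)) ^ 10 :=
            mul_le_mul_of_nonneg_left h4 (by positivity)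
        _ = ((1 + s / s0) * (1 + 1 / u / (s0 + s))) ^ 10 := by rw [mul_pow]
        _ ≤ (1 + s' / s0) ^ 10 := pow_le_pow_left₀ (by positivity) h2 10
    have h5 : F * (1 + 10 * (1 / u / (s0 + s))) ≤ ff y s0 s' := by
      rw [hF]
      unfold ff
      rw [mul_assoc]
      exact mul_le_mul_of_nonneg_left h1 (by linarith)
    have h6 : x ≤ F * (10 * (1 / u / (s0 + s))) := by
      have h7 : F * (10 * (1 / u / (s0 + s))) = 10 * F / (u * (s0 + s)) := by
        field_simp
      rw [h7, hxdef, div_le_div_iff₀ (by positivity) (by positivity)]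
      have h8 : 0 ≤ F * u := by positivity
      have h9 : F * u * s0 ≤ F * u * s := mul_le_mul_of_nonneg_left hs h8
      linarith
    linarith
  have hexp : exp (-ff y s0 s') ≤ E * (1 - x / 2) := by
    have h1 : exp (-ff y s0 s') ≤ exp (-F) * exp (-x) := by
      rw [← Real.exp_add]
      apply Real.exp_le_exp.mpr
      linarith
    exact h1.trans (mul_le_mul_of_nonneg_left (exp_neg_le hx0 hx1) (exp_pos _).le)
  -- comparison
  have hcmp : (2 * L + 3 / 2) / u ≤ x / 2 := by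
    rw [hxdef, div_div, div_le_div_iff₀ hu (by positivity)]
    have h0 : (2 * (L : ℝ) + 3 / 2) * s = 2 * (L * s) + 3 / 2 * s := by ring
    have h1 : (2 * (L : ℝ) + 3 / 2) * s ≤ 5 / 2 * F := by rw [h0]; linarith
    have h2 : (2 * (L : ℝ) + 3 / 2) * s * (u * 2) ≤ 5 / 2 * F * (u * 2) :=
      mul_le_mul_of_nonneg_right h1 (by positivity)
    calc (2 * (L : ℝ) + 3 / 2) * (s * u * 2) = (2 * (L : ℝ) + 3 / 2) * s * (u * 2) := by ring
      _ ≤ 5 / 2 * F * (u * 2) := h2
      _ = 5 * F * u := by ring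
  have hLu : 2 * L / u ≤ 1 := by
    have h1 : 2 * L / u ≤ (2 * L + 3 / 2) / u := div_le_div_of_nonneg_right (by linarith) hu.le
    linarith
  have hfin : E * (1 - x / 2) ≤ A - (2 * L * A + 3 / 2 * E) / u := by
    have h1 : A - (2 * L * A + 3 / 2 * E) / u = A * (1 - 2 * L / u) - 3 / 2 * E / u := by
      field_simp
      ring
    rw [h1]
    have h2 : E * (1 - 2 * L / u) ≤ A * (1 - 2 * L / u) :=
      mul_le_mul_of_nonneg_right hA (by linarith)
    have h3 : E * (1 - x / 2) ≤ E * (1 - (2 * L + 3 / 2) / u) :=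
      mul_le_mul_of_nonneg_left (by linarith) hEpos.le
    have h4 : E * (1 - (2 * L + 3 / 2) / u) = E * (1 - 2 * L / u) - 3 / 2 * E / u := by
      field_simp
      ring
    linarith
  linarith

/-- Polynomials are smaller than the exponential function. -/
lemma eventually_pow_le (C : ℝ) : ∀ᶠ M : ℕ in atTop, C * (2 * log M) ^ 22 ≤ M := by
  have h1 : Tendsto (fun x : ℝ => x ^ 22 * exp (-x)) atTop (𝓝 0) :=
    Real.tendsto_pow_mul_exp_neg_atTop_nhds_zero 22
  have h2 : Tendsto (fun M : ℕ => log (M : ℝ)) atTop atTop :=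
    Real.tendsto_log_atTop.comp tendsto_natCast_atTop_atTop
  have h3 := h1.comp h2
  have h4 : ∀ᶠ M : ℕ in atTop, ((log (M : ℝ)) ^ 22 * exp (-(log (M : ℝ)))) <
      1 / ((|C| + 1) * 2 ^ 22) :=
    h3.eventually_lt_const (by positivity)
  filter_upwards [h4, eventually_gt_atTop 0] with M hM hM0
  have hMpos : (0 : ℝ) < M := by exact_mod_cast hM0
  rw [Real.exp_neg, Real.exp_log hMpos, lt_div_iff₀ (by positivity)] at hM
  have h5 : (log (M : ℝ)) ^ 22 * ((|C| + 1) * 2 ^ 22) < M := by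
    have h6 : (log (M : ℝ)) ^ 22 * (M : ℝ)⁻¹ * ((|C| + 1) * 2 ^ 22) * M < 1 * M :=
      mul_lt_mul_of_pos_right hM hMpos
    have h7 : (log (M : ℝ)) ^ 22 * (M : ℝ)⁻¹ * ((|C| + 1) * 2 ^ 22) * M =
        (log (M : ℝ)) ^ 22 * ((|C| + 1) * 2 ^ 22) := by
      field_simp
    linarith
  have h8 : (0 : ℝ) ≤ (log (M : ℝ)) ^ 22 := by positivity
  have h9 : C * (2 * log (M : ℝ)) ^ 22 = (log (M : ℝ)) ^ 22 * (C * 2 ^ 22) := by ring
  rw [h9]
  have h10 : (log (M : ℝ)) ^ 22 * (C * 2 ^ 22) ≤ (log (M : ℝ)) ^ 22 * ((|C| + 1) * 2 ^ 22) := by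
    apply mul_le_mul_of_nonneg_left _ h8
    have := le_abs_self C
    nlinarith
  linarith

/-- The logarithmic time. -/
lemma log_succ {R : ℝ} {j : ℕ} (hj : (j : ℝ) + 1 < R) :
    log (R / (R - j)) + 1 / (R - j) ≤ log (R / (R - (j + 1 : ℕ))) := by
  have h1 : 0 < R - j := by linarith
  have h2 : 0 < R - (j + 1 : ℕ) := by push_cast; linarith
  have hR : 0 < R := by have : (0 : ℝ) ≤ j := Nat.cast_nonneg j; linarith
  rw [Real.log_div hR.ne' h1.ne', Real.log_div hR.ne' h2.ne']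
  have h3 : log ((R - (j + 1 : ℕ)) / (R - j)) ≤ (R - (j + 1 : ℕ)) / (R - j) - 1 :=
    Real.log_le_sub_one_of_pos (by positivity)
  rw [Real.log_div h2.ne' h1.ne'] at h3
  have h4 : (R - (j + 1 : ℕ)) / (R - j) - 1 = -(1 / (R - j)) := by
    push_cast
    field_simp
    ring
  linarith

lemma ff_mono {y s0 s s' : ℝ} (hy : 0 ≤ y) (hs0 : 0 < s0) (h0 : 0 ≤ s) (h1 : s ≤ s') :
    ff y s0 s ≤ ff y s0 s' := by
  unfold ff
  apply mul_le_mul_of_nonneg_left _ hy
  apply pow_le_pow_left₀ (by positivity)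
  have := div_le_div_of_nonneg_right h1 hs0.le
  linarith

lemma le_ff {y s0 s : ℝ} (hy : 0 ≤ y) (hs0 : 0 < s0) (h0 : 0 ≤ s) : y ≤ ff y s0 s := by
  unfold ff
  have h1 : 1 ≤ (1 + s / s0) ^ 10 := one_le_pow₀ (by
    have : 0 ≤ s / s0 := by positivity
    linarith)
  calc y = y * 1 := (mul_one y).symm
    _ ≤ _ := mul_le_mul_of_nonneg_left h1 hy

/-- Choice of the parameters. -/
lemma params {K c : ℝ} (hK : 1 ≤ K) (hc : 0 < c) : ∃ (M : ℕ) (y s0 : ℝ), 4 ≤ M ∧ 100 ≤ y ∧
    8 * log (14 * K) ≤ y ∧ exp y = (M : ℝ) ^ 2 ∧ 0 < s0 ∧ s0 ≤ 1 / 200 ∧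
    s0 * (200 * K * y) = 1 ∧ 5 * ff y s0 y ≤ s0 * M ∧ K * (ff y s0 y + 1) ≤ c * M ∧
    4 ≤ (M : ℝ) ^ 2 * s0 := by
  have hp1 : 0 ≤ 1000 * K * (1 + 200 * K) ^ 10 := by positivity
  have hp2 : 0 ≤ 2 * K * (1 + 200 * K) ^ 10 / c := by positivity
  obtain ⟨C, hC⟩ : ∃ C, C = 1000 * K * (1 + 200 * K) ^ 10 + 2 * K * (1 + 200 * K) ^ 10 / c +
    800 * K := ⟨_, rfl⟩
  have hlog : Tendsto (fun M : ℕ => 2 * log (M : ℝ)) atTop atTop :=
    (Real.tendsto_log_atTop.comp tendsto_natCast_atTop_atTop).const_mul_atTop (by norm_num)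
  obtain ⟨M, hM1, hM2, hM3, hM4⟩ := ((eventually_pow_le C).and
    ((hlog.eventually_ge_atTop 100).and ((hlog.eventually_ge_atTop (8 * log (14 * K))).and
      (eventually_ge_atTop 4)))).exists
  obtain ⟨y, hy⟩ : ∃ y, y = 2 * log (M : ℝ) := ⟨_, rfl⟩
  rw [← hy] at hM1 hM2 hM3
  have hMpos : (0 : ℝ) < M := by exact_mod_cast (by omega : 0 < M)
  have hM4' : (4 : ℝ) ≤ M := by exact_mod_cast hM4
  have hexpy : exp y = (M : ℝ) ^ 2 := by
    rw [hy, show 2 * log (M : ℝ) = log (M : ℝ) + log (M : ℝ) by ring, Real.exp_add,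
      Real.exp_log hMpos]
    ring
  have hypos : 0 < y := by linarith
  obtain ⟨s0, hs0def⟩ : ∃ s0, s0 = 1 / (200 * K * y) := ⟨_, rfl⟩
  have hs0 : 0 < s0 := by rw [hs0def]; positivity
  have hKy : 1 ≤ K * y := one_le_mul_of_one_le_of_one_le hK (by linarith)
  have hs0' : s0 ≤ 1 / 200 := by
    rw [hs0def]
    apply one_div_le_one_div_of_le (by norm_num)
    linarith
  have hs0'' : s0 * (200 * K * y) = 1 := by rw [hs0def]; field_simp
  have hfm : ff y s0 y ≤ (1 + 200 * K) ^ 10 * y ^ 21 := by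
    unfold ff
    have h1 : y / s0 = 200 * K * y ^ 2 := by
      rw [hs0def]
      field_simp
    have h2 : 1 + y / s0 ≤ (1 + 200 * K) * y ^ 2 := by
      rw [h1]
      have : (1 : ℝ) ≤ y ^ 2 := one_le_pow₀ (by linarith)
      linarith
    calc y * (1 + y / s0) ^ 10 ≤ y * ((1 + 200 * K) * y ^ 2) ^ 10 := by
          apply mul_le_mul_of_nonneg_left _ hypos.le
          exact pow_le_pow_left₀ (by positivity) h2 10
      _ = (1 + 200 * K) ^ 10 * y ^ 21 := by ring
  have hy22 : 0 ≤ y ^ 22 := by positivity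
  have c1 : 5 * ff y s0 y ≤ s0 * M := by
    have h1 : 1000 * K * (1 + 200 * K) ^ 10 * y ^ 22 ≤ M := by
      refine le_trans ?_ hM1
      apply mul_le_mul_of_nonneg_right _ hy22
      linarith
    have h2 : s0 * (1000 * K * (1 + 200 * K) ^ 10 * y ^ 22) ≤ s0 * M :=
      mul_le_mul_of_nonneg_left h1 hs0.le
    have h3 : s0 * (1000 * K * (1 + 200 * K) ^ 10 * y ^ 22) =
        5 * ((1 + 200 * K) ^ 10 * y ^ 21) := by
      calc s0 * (1000 * K * (1 + 200 * K) ^ 10 * y ^ 22) =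
          (s0 * (200 * K * y)) * (5 * ((1 + 200 * K) ^ 10 * y ^ 21)) := by ring
        _ = _ := by rw [hs0'', one_mul]
    linarith
  have c2 : K * (ff y s0 y + 1) ≤ c * M := by
    have h1 : 2 * K * (1 + 200 * K) ^ 10 / c * y ^ 22 ≤ M := by
      refine le_trans ?_ hM1
      apply mul_le_mul_of_nonneg_right _ hy22
      linarith
    have h2 : c * (2 * K * (1 + 200 * K) ^ 10 / c * y ^ 22) ≤ c * M :=
      mul_le_mul_of_nonneg_left h1 hc.le
    have h3 : c * (2 * K * (1 + 200 * K) ^ 10 / c * y ^ 22) =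
        K * (2 * ((1 + 200 * K) ^ 10 * y ^ 22)) := by
      field_simp
    have h4 : ff y s0 y + 1 ≤ 2 * ((1 + 200 * K) ^ 10 * y ^ 22) := by
      have h5 : (1 + 200 * K) ^ 10 * y ^ 21 ≤ (1 + 200 * K) ^ 10 * y ^ 22 := by
        apply mul_le_mul_of_nonneg_left _ (by positivity)
        exact pow_le_pow_right₀ (by linarith) (by norm_num)
      have h6 : (1 : ℝ) ≤ (1 + 200 * K) ^ 10 * y ^ 22 :=
        one_le_mul_of_one_le_of_one_le (one_le_pow₀ (by linarith)) (one_le_pow₀ (by linarith))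
      linarith
    have h5 := mul_le_mul_of_nonneg_left h4 (by linarith : 0 ≤ K)
    linarith
  have c3 : 4 ≤ (M : ℝ) ^ 2 * s0 := by
    have h1 : 800 * K * y ≤ M := by
      have h0 : 800 * K * y ^ 22 ≤ M := by
        refine le_trans ?_ hM1
        apply mul_le_mul_of_nonneg_right _ hy22
        linarith
      have h2 : y ≤ y ^ 22 := le_self_pow₀ (by linarith) (by norm_num)
      have h3 : 800 * K * y ≤ 800 * K * y ^ 22 := mul_le_mul_of_nonneg_left h2 (by positivity)
      linarith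
    have h2 : (M : ℝ) ≤ (M : ℝ) ^ 2 := le_self_pow₀ (by linarith) (by norm_num)
    have h3 : 800 * K * y * s0 ≤ (M : ℝ) ^ 2 * s0 :=
      mul_le_mul_of_nonneg_right (h1.trans h2) hs0.le
    have h4 : 800 * K * y * s0 = 4 * (s0 * (200 * K * y)) := by ring
    rw [h4, hs0''] at h3
    linarith
  exact ⟨M, y, s0, hM4, hM2, hM3, hexpy, hs0, hs0', hs0'', c1, c2, c3⟩

/-- Error of a step of the first phase. -/
lemma phase1_error {k K y R ζ : ℝ} (hkK : k ≤ K) (hK : 1 ≤ K) (hy : 100 ≤ y)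
    (hR : exp y = R) (hR16 : 16 ≤ R) (hζ : ζ ≤ 1) (a x : ℝ) :
    2 * ((0 : ℕ) : ℝ) * a + 2 * k * (log (1 / (1 / (4 * R ^ 2))) + 1) * x ^ 0 +
      R * binEntropy (1 / (4 * R ^ 2)) + ζ ≤ 10 * K * y := by
  have hRpos : 0 < R := by linarith
  have hR2 : R ≤ R ^ 2 := le_self_pow₀ (by linarith) (by norm_num)
  have h4 : log (1 / (1 / (4 * R ^ 2))) = 2 * y + log 4 := by
    rw [one_div_one_div, Real.log_mul (by norm_num) (by positivity), Real.log_pow, ← hR,
      Real.log_exp]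
    push_cast
    ring
  have h5 : log 4 ≤ 2 := by
    have h1 : log 4 = 2 * log 2 := by
      rw [show (4 : ℝ) = 2 ^ 2 by norm_num, Real.log_pow]; norm_num
    have := Real.log_two_lt_d9
    rw [h1]; linarith
  have h5' : 0 ≤ log 4 := Real.log_nonneg (by norm_num)
  have h6 : R * binEntropy (1 / (4 * R ^ 2)) ≤ 1 := by
    have h7 := binEntropy_le (l := 1 / (4 * R ^ 2)) (by
      rw [div_lt_one (by positivity)]
      linarith)
    have h8 := mul_le_mul_of_nonneg_left h7 hRpos.le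
    rw [h4] at h8
    have h9 : R * (1 / (4 * R ^ 2) * (2 * y + log 4 + 1)) = (2 * y + log 4 + 1) / (4 * R) := by
      field_simp
    rw [h9] at h8
    refine h8.trans ?_
    rw [div_le_one (by positivity)]
    have h10 : y + 1 ≤ R := by rw [← hR]; exact Real.add_one_le_exp y
    linarith
  rw [h4, pow_zero]
  simp only [Nat.cast_zero, mul_zero, zero_mul, zero_add, mul_one]
  have h8 : 2 * k * (2 * y + log 4 + 1) ≤ 2 * K * (2 * y + 3) := by
    apply mul_le_mul (by linarith) (by linarith) (by linarith) (by positivity)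
  have h9 : K * 100 ≤ K * y := mul_le_mul_of_nonneg_left hy (by linarith)
  linarith

/-- The first phase. -/
lemma phase1 {k K y R ζ : ℝ} {n : ℕ} (hkK : k ≤ K) (hK : 1 ≤ K) (hy : 100 ≤ y)
    (hR : exp y = R) (hR16 : 16 ≤ R) (hζ : ζ ≤ 1) (hn : (n : ℝ) < R) (A : ℕ → ℝ)
    (hA0 : 6 / 10 ≤ A 0)
    (H : ∀ t < n, ∀ (L : ℕ) (l : ℝ), (L : ℝ) ≤ R → 0 < l → l ≤ 1 / 2 →
      A t - (2 * L * A t + 2 * k * (log (1 / l) + 1) * ((R - t) / R) ^ L + R * binEntropy l + ζ) /
        (R - t) ≤ A (t + 1)) :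
    ∀ j ≤ n, 6 / 10 - 10 * K * y * log (R / (R - j)) ≤ A j := by
  have hRpos : 0 < R := by linarith
  have hR2 : R ≤ R ^ 2 := le_self_pow₀ (by linarith) (by norm_num)
  intro j
  induction j with
  | zero =>
    intro _
    simp only [Nat.cast_zero, sub_zero]
    rw [div_self hRpos.ne', Real.log_one]
    linarith
  | succ j ih =>
    intro hj
    have h0 := ih (by omega)
    have hjR : (j : ℝ) + 1 < R := by
      have h1 : ((j + 1 : ℕ) : ℝ) ≤ n := by exact_mod_cast hj
      push_cast at h1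
      linarith
    have h1 := H j (by omega) 0 (1 / (4 * R ^ 2)) (by simpa using hRpos.le) (by positivity) (by
      rw [div_le_div_iff₀ (by positivity) (by norm_num)]
      linarith)
    have h2 := log_succ hjR
    have hpos : 0 < R - j := by linarith
    have h3 := phase1_error (k := k) (K := K) hkK hK hy hR hR16 hζ (A j) ((R - j) / R)
    have h4 := div_le_div_of_nonneg_right h3 hpos.le
    have hE : 0 ≤ 10 * K * y := by positivity
    have h5 := mul_le_mul_of_nonneg_left h2 hE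
    rw [mul_add, mul_one_div] at h5
    linarith

/-- The start of the second phase. -/
lemma start {R s0 : ℝ} {M : ℕ} (hR : R = (M : ℝ) ^ 2) (hM : 4 ≤ M) (hs0 : 0 < s0)
    (hs0' : s0 ≤ 1 / 200) (h4 : 4 ≤ R * s0) :
    ∃ j0 : ℕ, j0 ≤ M ^ 2 - M ∧ s0 ≤ log (R / (R - j0)) ∧ log (R / (R - j0)) ≤ 2 * s0 := by
  have hM4' : (4 : ℝ) ≤ M := by exact_mod_cast hM
  have hMM : 4 * (M : ℝ) ≤ R := by
    rw [hR, sq]
    exact mul_le_mul_of_nonneg_right hM4' (by linarith)
  have hRpos : 0 < R := by linarith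
  have hes : exp (-s0) ≤ 1 - s0 / 2 := exp_neg_le hs0.le (by linarith)
  have hes' : 1 - s0 ≤ exp (-s0) := by have := Real.add_one_le_exp (-s0); linarith
  have hj0a : R * (1 - exp (-s0)) ≤ ⌈R * (1 - exp (-s0))⌉₊ := Nat.le_ceil _
  have hj0b : (⌈R * (1 - exp (-s0))⌉₊ : ℝ) < R * (1 - exp (-s0)) + 1 :=
    Nat.ceil_lt_add_one (mul_nonneg hRpos.le (by linarith))
  generalize ⌈R * (1 - exp (-s0))⌉₊ = j0 at hj0a hj0b
  have hj0c : R * exp (-(2 * s0)) ≤ R - j0 := by
    have h1 : exp (-(2 * s0)) = exp (-s0) * exp (-s0) := by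
      rw [← Real.exp_add]; congr 1; ring
    rw [h1]
    have h3 : 1 / 2 * (s0 / 2) ≤ exp (-s0) * (1 - exp (-s0)) := by
      apply mul_le_mul (by linarith) (by linarith) (by positivity) (exp_pos _).le
    have h5 := mul_le_mul_of_nonneg_left h3 hRpos.le
    have h6 : R * (exp (-s0) * (1 - exp (-s0))) =
        R * exp (-s0) - R * (exp (-s0) * exp (-s0)) := by ring
    linarith
  have hRj0 : R / 2 ≤ R - j0 := by
    have h1 : 1 - 2 * s0 ≤ exp (-(2 * s0)) := by
      have := Real.add_one_le_exp (-(2 * s0)); linarith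
    have h2 := mul_le_mul_of_nonneg_left h1 hRpos.le
    have h3 : R * s0 ≤ R * (1 / 200) := mul_le_mul_of_nonneg_left hs0' hRpos.le
    linarith
  have hpos : 0 < R - j0 := by linarith
  refine ⟨j0, ?_, ?_, ?_⟩
  · have h1 : (j0 : ℝ) + M ≤ (M ^ 2 : ℕ) := by push_cast; rw [← hR]; linarith
    have h2 : j0 + M ≤ M ^ 2 := by exact_mod_cast h1
    omega
  · have h1 : R - j0 ≤ R * exp (-s0) := by linarith
    rw [Real.le_log_iff_exp_le (by positivity), le_div_iff₀ hpos]
    calc exp s0 * (R - j0) ≤ exp s0 * (R * exp (-s0)) :=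
          mul_le_mul_of_nonneg_left h1 (exp_pos _).le
      _ = R * (exp s0 * exp (-s0)) := by ring
      _ = R := by rw [← Real.exp_add]; simp
  · rw [Real.log_le_iff_le_exp (by positivity), div_le_iff₀ hpos]
    calc R = exp (2 * s0) * (R * exp (-(2 * s0))) := by
          rw [mul_comm R, ← mul_assoc, ← Real.exp_add]; simp
      _ ≤ exp (2 * s0) * (R - j0) := mul_le_mul_of_nonneg_left hj0c (exp_pos _).le

/-- Bounds for the logarithmic time. -/
lemma log_bounds {R y s0 : ℝ} {M j0 : ℕ} (hR : R = (M : ℝ) ^ 2) (hy : exp y = R) (hM : 4 ≤ M)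
    (hs : s0 ≤ log (R / (R - j0))) (j : ℕ) (h1 : j0 ≤ j) (h2 : j ≤ M ^ 2 - M) :
    s0 ≤ log (R / (R - j)) ∧ log (R / (R - j)) ≤ y ∧ (M : ℝ) ≤ R - j := by
  have hM4' : (4 : ℝ) ≤ M := by exact_mod_cast hM
  have hjR : (j : ℝ) + M ≤ R := by
    have h3 : M ≤ M ^ 2 := Nat.le_self_pow (by norm_num) M
    have h4 : j + M ≤ M ^ 2 := by omega
    rw [hR]
    exact_mod_cast h4
  have h3 : (j0 : ℝ) ≤ j := by exact_mod_cast h1
  have h4 : 0 < R - j := by linarith
  have hRpos : 0 < R := by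
    have : (0 : ℝ) ≤ j := Nat.cast_nonneg j
    linarith
  refine ⟨?_, ?_, by linarith⟩
  · refine hs.trans ?_
    apply Real.log_le_log (div_pos hRpos (by linarith))
    apply div_le_div_of_nonneg_left hRpos.le h4 (by linarith)
  · rw [show y = log R by rw [← hy, Real.log_exp]]
    apply Real.log_le_log (by positivity)
    apply div_le_self hRpos.le
    linarith

/-- The second phase. -/
lemma phase2 {k K y R s0 : ℝ} {M j0 : ℕ} (hkK : k ≤ K) (hK : 1 ≤ K)
    (hy : 100 ≤ y) (hyK : 8 * log (14 * K) ≤ y) (hR : R = (M : ℝ) ^ 2) (hyR : exp y = R)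
    (hM : 4 ≤ M) (hs0 : 0 < s0) (hs0' : s0 ≤ 1 / 200) (c1 : 5 * ff y s0 y ≤ s0 * M)
    (A : ℕ → ℝ)
    (H : ∀ t < M ^ 2 - M, ∀ (L : ℕ) (l : ℝ), (L : ℝ) ≤ R → 0 < l → l ≤ 1 / 2 →
      A t - (2 * L * A t + 2 * k * (log (1 / l) + 1) * ((R - t) / R) ^ L + R * binEntropy l +
        exp (-ff y s0 y) / 4) / (R - t) ≤ A (t + 1))
    (hs : s0 ≤ log (R / (R - j0))) (hA : 1 / 2 ≤ A j0) :
    ∀ d : ℕ, j0 + d ≤ M ^ 2 - M →
      exp (-ff y s0 (log (R / (R - (j0 + d : ℕ))))) ≤ A (j0 + d) := by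
  have hMpos : (0 : ℝ) < M := by exact_mod_cast (by omega : 0 < M)
  have hM4' : (4 : ℝ) ≤ M := by exact_mod_cast hM
  have hypos : 0 ≤ y := by linarith
  intro d
  induction d with
  | zero =>
    intro _
    refine le_trans ?_ hA
    have h3 := le_ff hypos hs0 (s := log (R / (R - (j0 + 0 : ℕ)))) (by
      rw [add_zero]; exact hs0.le.trans hs)
    have h4 : exp (-ff y s0 (log (R / (R - (j0 + 0 : ℕ))))) ≤ exp (-1) :=
      Real.exp_le_exp.mpr (by linarith)
    have h5 := exp_neg_le (x := 1) (by norm_num) (by norm_num)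
    linarith
  | succ d ih =>
    intro hd
    have h0 := ih (by omega)
    rw [← add_assoc]
    generalize hj : j0 + d = j at *
    have hjlt : j < M ^ 2 - M := by omega
    obtain ⟨hs1, hs2, hjM⟩ := log_bounds hR hyR hM hs j (by omega) (by omega)
    have hpos : 0 < R - j := by linarith
    have hjR : (j : ℝ) + 1 < R := by linarith
    have hRpos : 0 < R := by
      have : (0 : ℝ) ≤ j := Nat.cast_nonneg j
      linarith
    have hlog := log_succ hjR
    have hexps : exp (-log (R / (R - j))) = (R - j) / R := by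
      rw [Real.exp_neg, Real.exp_log (by positivity), inv_div]
    have hH := H j hjlt
    rw [← hexps] at hH
    generalize hsdef : log (R / (R - j)) = s at *
    have hs0s : 0 ≤ s := hs0.le.trans hs1
    have hffs := ff_mono hypos hs0 hs0s hs2
    refine step (R := R) (u := R - j) (A := A j) (ζ := exp (-ff y s0 y) / 4) (k := k) (K := K)
      hkK hK hy hyK hyR.symm hs0 hs0' hs1 hpos hlog ?_ ?_ h0
      (by have : (0 : ℝ) ≤ j := Nat.cast_nonneg j
          linarith) hH
    · calc 5 * ff y s0 s ≤ 5 * ff y s0 y := by linarith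
        _ ≤ s0 * M := c1
        _ ≤ s * (R - j) := mul_le_mul hs1 hjM hMpos.le hs0s
    · have : exp (-ff y s0 y) ≤ exp (-ff y s0 s) := Real.exp_le_exp.mpr (by linarith)
      linarith

/-- existence of the parameters -/
theorem exists_recursion (k2 : ℝ) (hk2 : 1 ≤ k2) (C : ℝ) :
    ∃ m : ℕ, 2 ≤ m ∧ ∃ f : ℝ, 0 ≤ f ∧ C * (f + 1) ≤ m ∧ ∀ (A : ℕ → ℝ) (ζ : ℝ),
      ζ ≤ Real.exp (-f) / 2 → 0.69 ≤ A 0 →
      (∀ t < m ^ 2, ∀ L ≤ m ^ 2, ∀ l : ℝ, 0 < l → l ≤ 1 / 2 →
      ((m : ℝ) ^ 2 - t) * (A t - A (t + 1)) ≤ 2 * L * A t + (-Real.log l + 1) *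
        ((((m : ℝ) ^ 2 - t) / (m : ℝ) ^ 2) ^ L * k2) + (m : ℝ) ^ 2 * Real.binEntropy l + ζ) →
      Real.exp (-f) ≤ A (m ^ 2 - m) := by
  obtain ⟨C', hC', hCC'⟩ : ∃ C' : ℝ, 1 ≤ C' ∧ C ≤ C' := ⟨max C 1, le_max_right _ _, le_max_left _ _⟩
  obtain ⟨M, y, s0, hM4, hM2, hM3, hexpy, hs0, hs0', hs0'', c1, c2, c3⟩ :=
    params (K := k2) (c := k2 / (2 * C')) hk2 (by positivity)
  have hMpos : (0 : ℝ) < M := by exact_mod_cast (by omega : 0 < M)
  have hM4' : (4 : ℝ) ≤ M := by exact_mod_cast hM4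
  have hypos : 0 ≤ y := by linarith
  have hyff : y ≤ ff y s0 y := le_ff hypos hs0 hypos
  have hMM : M * 4 ≤ M ^ 2 := by rw [sq]; exact Nat.mul_le_mul_left M hM4
  refine ⟨M, by omega, ff y s0 y + 1, by linarith, ?_, ?_⟩
  · have h1 : C' * (ff y s0 y + 1 + 1) ≤ M := by
      have h2 : k2 * (ff y s0 y + 1) * (2 * C') ≤ k2 / (2 * C') * M * (2 * C') :=
        mul_le_mul_of_nonneg_right c2 (by positivity)
      have h3 : k2 / (2 * C') * M * (2 * C') = k2 * M := by field_simp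
      have h4 : k2 * ((ff y s0 y + 1) * (2 * C')) ≤ k2 * M := by linarith
      have h5 := le_of_mul_le_mul_left h4 (by linarith : 0 < k2)
      have h6 : 0 ≤ C' * ff y s0 y := mul_nonneg (by linarith) (by linarith)
      have h7 : C' * (ff y s0 y + 1 + 1) = C' * ff y s0 y + 2 * C' := by ring
      have h8 : (ff y s0 y + 1) * (2 * C') = 2 * (C' * ff y s0 y) + 2 * C' := by ring
      linarith
    exact (mul_le_mul_of_nonneg_right hCC' (by linarith)).trans h1
  · intro A ζ hζ hA0 H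
    obtain ⟨R, hR⟩ : ∃ R : ℝ, R = (M : ℝ) ^ 2 := ⟨_, rfl⟩
    rw [← hR] at H c3 hexpy
    have hMR : 4 * (M : ℝ) ≤ R := by
      rw [hR, sq]
      exact mul_le_mul_of_nonneg_right hM4' (by linarith)
    have hn : ((M ^ 2 - M : ℕ) : ℝ) < R := by
      have h1 : M ^ 2 - M < M ^ 2 := by omega
      rw [hR]
      exact_mod_cast h1
    have hζ' : ζ ≤ exp (-ff y s0 y) / 4 := by
      have h1 : exp (-(ff y s0 y + 1)) = exp (-ff y s0 y) * exp (-1) := by
        rw [← Real.exp_add]; congr 1; ring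
      have h2 := exp_neg_le (x := 1) (by norm_num) (by norm_num)
      have h3 : exp (-ff y s0 y) * exp (-1) ≤ exp (-ff y s0 y) * (1 / 2) :=
        mul_le_mul_of_nonneg_left (by linarith) (exp_pos _).le
      rw [h1] at hζ
      linarith
    have H' : ∀ t < M ^ 2 - M, ∀ (L : ℕ) (l : ℝ), (L : ℝ) ≤ R → 0 < l → l ≤ 1 / 2 →
        A t - (2 * L * A t + 2 * (k2 / 2) * (log (1 / l) + 1) * ((R - t) / R) ^ L +
          R * binEntropy l + exp (-ff y s0 y) / 4) / (R - t) ≤ A (t + 1) := by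
      intro t ht L l hL hl hl'
      have h1 := H t (by omega) L (by
        rw [hR] at hL
        exact_mod_cast hL) l hl hl'
      have h2 : (t : ℝ) < R := by
        have h3 : t < M ^ 2 := by omega
        rw [hR]
        exact_mod_cast h3
      have h3 : 0 < R - t := by linarith
      have h4 : log (1 / l) = -log l := by rw [one_div, Real.log_inv]
      rw [h4, sub_le_iff_le_add, ← sub_le_iff_le_add', le_div_iff₀ h3]
      have h5 : (R - t) * (A t - A (t + 1)) ≤ 2 * L * A t + 2 * (k2 / 2) * (-log l + 1) *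
          ((R - t) / R) ^ L + R * binEntropy l + exp (-ff y s0 y) / 4 := by
        have h6 : 2 * (k2 / 2) * (-log l + 1) * ((R - t) / R) ^ L =
            (-log l + 1) * (((R - t) / R) ^ L * k2) := by ring
        rw [h6]
        linarith
      linarith
    have hk2' : k2 / 2 ≤ k2 := by linarith
    obtain ⟨j0, hj0, hja, hjb⟩ := start hR hM4 hs0 hs0' c3
    have ph1 := phase1 (k := k2 / 2) (ζ := exp (-ff y s0 y) / 4) hk2' hk2 hM2 hexpy (by linarith)
      (by
        have : exp (-ff y s0 y) ≤ 1 := Real.exp_le_one_iff.mpr (by linarith)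
        linarith) hn A (by norm_num at hA0 ⊢; linarith) H' j0 hj0
    have hE : 10 * k2 * y * log (R / (R - j0)) ≤ 1 / 10 := by
      have h3 : 10 * k2 * y * log (R / (R - j0)) ≤ 10 * k2 * y * (2 * s0) :=
        mul_le_mul_of_nonneg_left hjb (by positivity)
      have h4 : 10 * k2 * y * (2 * s0) = 1 / 10 := by
        calc 10 * k2 * y * (2 * s0) = (s0 * (200 * k2 * y)) / 10 := by ring
          _ = 1 / 10 := by rw [hs0'']
      linarith
    have hend := phase2 (k := k2 / 2) hk2' hk2 hM2 hM3 hR hexpy hM4 hs0 hs0' c1 A H' hja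
      (by linarith) (M ^ 2 - M - j0) (by omega)
    rw [show j0 + (M ^ 2 - M - j0) = M ^ 2 - M by omega] at hend
    refine le_trans ?_ hend
    apply Real.exp_le_exp.mpr
    obtain ⟨h1, h2, -⟩ := log_bounds hR hexpy hM4 hja (M ^ 2 - M) hj0 le_rfl
    have := ff_mono hypos hs0 (hs0.le.trans h1) h2
    linarith

end Numerics

end Pool.Agent.KN
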