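import Mathlib

/-! Abstract regularity lemma for supermodular set functions. -/

namespace Pool.Agent.KN

open Finset

variable {n : ℕ}

/-- weight of an element in a set -/
def wt (g : Finset (Fin n) → ℝ) (κ : Fin n → ℝ) (β : ℝ) (M : Finset (Fin n)) (i : Fin n) : ℝ :=
  g M - g (M.erase i) + β * κ i

/-- average weight -/
noncomputable def Psi (g : Finset (Fin n) → ℝ) (κ : Fin n → ℝ) (β : ℝ) (M : Finset (Fin n)) : ℝ :=
  (∑ i ∈ M, wt g κ β M i) / M.card

lemma exists_chain (g : Finset (Fin n) → ℝ) (κ : Fin n → ℝ) (β : ℝ) :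
    ∃ Mv : ℕ → Finset (Fin n), Mv n = Finset.univ ∧ (∀ v, v ≤ n → (Mv v).card = v) ∧
      ∀ v, v < n → ∃ i ∈ Mv (v + 1), Mv v = (Mv (v + 1)).erase i ∧
        ∀ j ∈ Mv (v + 1), wt g κ β (Mv (v + 1)) j ≤ wt g κ β (Mv (v + 1)) i := by
  classical
  let step : Finset (Fin n) → Finset (Fin n) := fun M =>
    if h : M.Nonempty then M.erase (Classical.choose (Finset.exists_max_image M (wt g κ β M) h)) else ∅
  let f : ℕ → Finset (Fin n) := fun t => step^[t] Finset.univ
  have hstep : ∀ M : Finset (Fin n), M.Nonempty → ∃ i ∈ M, step M = M.erase i ∧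
      ∀ j ∈ M, wt g κ β M j ≤ wt g κ β M i := by
    intro M h
    obtain ⟨h1, h2⟩ := Classical.choose_spec (Finset.exists_max_image M (wt g κ β M) h)
    refine ⟨_, h1, ?_, h2⟩
    simp only [step]
    rw [dif_pos h]
  have hf : ∀ t, f (t + 1) = step (f t) := by
    intro t
    simp only [f]
    rw [Function.iterate_succ_apply']
  have hcard : ∀ t, t ≤ n → (f t).card = n - t := by
    intro t
    induction t with
    | zero => intro _; simp [f]
    | succ t ih =>
      intro ht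
      have h1 := ih (by omega)
      have hne : (f t).Nonempty := by
        rw [← Finset.card_pos]; omega
      obtain ⟨i, hi, he, _⟩ := hstep (f t) hne
      rw [hf, he, Finset.card_erase_of_mem hi, h1]
      omega
  refine ⟨fun v => f (n - v), ?_, ?_, ?_⟩
  · simp [f]
  · intro v hv
    simp only
    rw [hcard _ (by omega)]
    omega
  · intro v hv
    have hne : (f (n - (v + 1))).Nonempty := by
      rw [← Finset.card_pos, hcard _ (by omega)]; omega
    obtain ⟨i, hi, he, hm⟩ := hstep _ hne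
    refine ⟨i, hi, ?_, hm⟩
    have : n - v = (n - (v + 1)) + 1 := by omega
    simp only
    rw [this, hf, he]

theorem regularity (g : Finset (Fin n) → ℝ) (κ : Fin n → ℝ) (B K β : ℝ) (T Q : ℕ)
    (hg0 : 0 ≤ g ∅)
    (he0 : ∀ M, ∀ i ∈ M, 0 ≤ g M - g (M.erase i))
    (heB : ∀ M, ∀ i ∈ M, g M - g (M.erase i) ≤ B)
    (hmono : ∀ M M', M' ⊆ M → ∀ i ∈ M', g M' - g (M'.erase i) ≤ g M - g (M.erase i))
    (hκ0 : ∀ i, 0 ≤ κ i) (hκ : ∑ i, κ i ≤ K * n) (hβ : 0 < β) (hT : 1 ≤ T) (hQ : 0 < Q)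
    (hn : T ^ Q ≤ n) :
    ∃ q < Q, ∃ M : Finset (Fin n), M.card = n / T ^ q ∧
      ∑ i ∈ M, (g M - g (M.erase i)) - g M ≤ M.card * ((B + β * K) * (1 / T + 1 / Q)) ∧
      ∑ i ∈ M, κ i ≤ M.card * (K + B / β) := by
  classical
  obtain ⟨Mv, hMn, hcard, hstep⟩ := exists_chain g κ β
  have hn0 : 0 < n := lt_of_lt_of_le (pow_pos (by omega) _) hn
  have hnr : (0 : ℝ) < n := Nat.cast_pos.mpr hn0
  set w := wt g κ β with hw
  have hw0 : ∀ M, ∀ i ∈ M, 0 ≤ w M i := by
    intro M i hi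
    simp only [hw, wt]
    have := he0 M i hi
    have := mul_nonneg hβ.le (hκ0 i)
    linarith
  have hwmono : ∀ M M', M' ⊆ M → ∀ i ∈ M', w M' i ≤ w M i := by
    intro M M' h i hi
    simp only [hw, wt]
    have := hmono M M' h i hi
    linarith
  set g' : Finset (Fin n) → ℝ := fun M => g M + β * ∑ i ∈ M, κ i with hg'
  have hgnn : ∀ v, v ≤ n → 0 ≤ g' (Mv v) := by
    intro v
    induction v with
    | zero =>
      intro _
      have : Mv 0 = ∅ := Finset.card_eq_zero.mp (hcard 0 (Nat.zero_le _))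
      rw [this]; simpa [hg'] using hg0
    | succ v ih =>
      intro hv
      obtain ⟨i, hi, he, _⟩ := hstep v (by omega)
      have h1 := ih (by omega)
      have h2 : g' (Mv (v + 1)) = g' (Mv v) + w (Mv (v + 1)) i := by
        rw [he]
        simp only [hg', hw, wt]
        rw [← Finset.add_sum_erase _ _ hi]
        ring
      rw [h2]
      have := hw0 _ i hi
      linarith
  let P : ℕ → ℝ := fun v => Psi g κ β (Mv v)
  have hPdef : ∀ v, v ≤ n → (v : ℝ) * P v = ∑ i ∈ Mv v, w (Mv v) i := by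
    intro v hv
    simp only [P, Psi]
    rw [hcard v hv]
    rcases Nat.eq_zero_or_pos v with h0 | h0
    · subst h0
      have : Mv 0 = ∅ := Finset.card_eq_zero.mp (hcard 0 (Nat.zero_le _))
      rw [this]; simp
    · have : (v : ℝ) ≠ 0 := by positivity
      rw [mul_div_cancel₀ _ this, hw]
  have hPnn : ∀ v, v ≤ n → 0 ≤ P v := by
    intro v _
    exact div_nonneg (Finset.sum_nonneg fun i hi => hw0 _ i hi) (Nat.cast_nonneg _)
  have hstep1 : ∀ v, v < n → P (v + 1) ≤ g' (Mv (v + 1)) - g' (Mv v) ∧ (1 ≤ v → P v ≤ P (v + 1)) := by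
    intro v hv
    obtain ⟨i, hi, he, hm⟩ := hstep v hv
    have h2 : g' (Mv (v + 1)) - g' (Mv v) = w (Mv (v + 1)) i := by
      rw [he]
      simp only [hg', hw, wt]
      rw [← Finset.add_sum_erase _ _ hi]
      ring
    have h3 := hPdef (v + 1) (by omega)
    have hv1 : (0 : ℝ) < ((v + 1 : ℕ) : ℝ) := by positivity
    have h4 : ∑ j ∈ Mv (v + 1), w (Mv (v + 1)) j ≤ ((v + 1 : ℕ) : ℝ) * w (Mv (v + 1)) i := by
      calc ∑ j ∈ Mv (v + 1), w (Mv (v + 1)) j ≤ ∑ j ∈ Mv (v + 1), w (Mv (v + 1)) i :=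
            Finset.sum_le_sum fun j hj => hm j hj
        _ = _ := by rw [Finset.sum_const, hcard _ (by omega), nsmul_eq_mul]
    have h5 : P (v + 1) ≤ w (Mv (v + 1)) i := by
      rw [← h3] at h4
      exact le_of_mul_le_mul_left h4 hv1
    refine ⟨by rw [h2]; exact h5, fun hv1' => ?_⟩
    have hv0 : (0 : ℝ) < (v : ℝ) := by exact_mod_cast hv1'
    have h6 := hPdef v (by omega)
    have h7 : ∑ j ∈ Mv v, w (Mv v) j ≤ ∑ j ∈ Mv v, w (Mv (v + 1)) j := by
      refine Finset.sum_le_sum fun j hj => hwmono _ _ ?_ j hj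
      rw [he]; exact Finset.erase_subset _ _
    have h8 : ∑ j ∈ Mv v, w (Mv (v + 1)) j = ∑ j ∈ Mv (v + 1), w (Mv (v + 1)) j - w (Mv (v + 1)) i := by
      rw [← Finset.add_sum_erase _ _ hi, ← he]; ring
    rw [← h6, h8, ← h3] at h7
    push_cast at h7
    have h9 : (v : ℝ) * P v ≤ v * P (v + 1) := by linarith
    exact le_of_mul_le_mul_left h9 hv0
  have hPmono : ∀ a b, 1 ≤ a → a ≤ b → b ≤ n → P a ≤ P b := by
    intro a b ha hab
    induction b, hab using Nat.le_induction with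
    | base => intro _; exact le_rfl
    | succ b hb ih =>
      intro hbn
      exact (ih (by omega)).trans ((hstep1 b (by omega)).2 (by omega))
  have hgrow : ∀ a b, 1 ≤ a → a ≤ b → b ≤ n → ((b : ℝ) - a) * P a ≤ g' (Mv b) - g' (Mv a) := by
    intro a b ha hab
    induction b, hab using Nat.le_induction with
    | base => intro _; simp
    | succ b hb ih =>
      intro hbn
      have h1 := ih (by omega)
      have h2 := (hstep1 b (by omega)).1
      have h3 := hPmono a (b + 1) ha (by omega) hbn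
      push_cast
      nlinarith
  set D := B + β * K with hD
  have hP0 : P n ≤ D := by
    have h1 := hPdef n le_rfl
    have h2 : ∑ i ∈ Mv n, w (Mv n) i ≤ n * D := by
      rw [hMn]
      simp only [hw, wt]
      rw [Finset.sum_add_distrib, ← Finset.mul_sum]
      have h3 : ∑ i : Fin n, (g Finset.univ - g (Finset.univ.erase i)) ≤ n * B := by
        calc _ ≤ ∑ i : Fin n, B := Finset.sum_le_sum fun i hi => heB _ i hi
          _ = n * B := by rw [Finset.sum_const, Finset.card_univ, Fintype.card_fin, nsmul_eq_mul]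
      have h4 : β * ∑ i, κ i ≤ β * (K * n) := mul_le_mul_of_nonneg_left hκ hβ.le
      rw [hD]; nlinarith
    rw [← h1] at h2
    exact le_of_mul_le_mul_left h2 hnr
  have hD0 : 0 ≤ D := (hPnn n le_rfl).trans hP0
  -- scales
  have hN1 : ∀ q, q ≤ Q → 1 ≤ n / T ^ q := by
    intro q hq
    rw [Nat.one_le_div_iff (pow_pos (by omega) _)]
    exact le_trans (Nat.pow_le_pow_right hT hq) hn
  have hNn : ∀ q, n / T ^ q ≤ n := fun q => Nat.div_le_self _ _
  have hpig : ∃ q ∈ Finset.range Q, P (n / T ^ q) - P (n / T ^ (q + 1)) ≤ D / Q := by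
    have hQr : (0 : ℝ) < Q := Nat.cast_pos.mpr hQ
    apply Finset.exists_le_of_sum_le (Finset.nonempty_range_iff.mpr hQ.ne')
    rw [Finset.sum_range_sub', Finset.sum_const, Finset.card_range, nsmul_eq_mul]
    have h1 : (Q : ℝ) * (D / Q) = D := by field_simp
    rw [h1, pow_zero, Nat.div_one]
    have := hPnn (n / T ^ Q) (hNn Q)
    linarith
  obtain ⟨q, hq, hqd⟩ := hpig
  rw [Finset.mem_range] at hq
  refine ⟨q, hq, Mv (n / T ^ q), hcard _ (hNn q), ?_, ?_⟩
  · set N := n / T ^ q with hN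
    have hN' : n / T ^ (q + 1) = N / T := by
      rw [hN, Nat.div_div_eq_div_mul, pow_succ]
    rw [hN'] at hqd
    have h1 := hgrow (N / T) N (by rw [← hN']; exact hN1 _ (by omega)) (Nat.div_le_self _ _) (hNn q)
    have h2 := hgnn (N / T) ((Nat.div_le_self _ _).trans (hNn q))
    have h3 := hPdef N (hNn q)
    have h4 : ∑ i ∈ Mv N, (g (Mv N) - g ((Mv N).erase i)) - g (Mv N) = N * P N - g' (Mv N) := by
      rw [h3]
      simp only [hw, wt, hg']
      rw [Finset.sum_add_distrib, ← Finset.mul_sum]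
      ring
    rw [h4, hcard _ (hNn q)]
    have hNT : ((N / T : ℕ) : ℝ) ≤ N / T := Nat.cast_div_le
    have hNTN : ((N / T : ℕ) : ℝ) ≤ N := by exact_mod_cast Nat.div_le_self N T
    have hNT0 : (0 : ℝ) ≤ ((N / T : ℕ) : ℝ) := Nat.cast_nonneg _
    have hPN : P N ≤ D := (hPmono N n (hN1 q (by omega)) (hNn q) le_rfl).trans hP0
    have hPN0 := hPnn N (hNn q)
    have hN0 : (0 : ℝ) ≤ N := Nat.cast_nonneg _
    have hDQ : 0 ≤ D / Q := div_nonneg hD0 (Nat.cast_nonneg _)
    have h5 : ((N : ℝ) - ((N / T : ℕ) : ℝ)) * (P N - D / Q) ≤ g' (Mv N) := by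
      have h6 : ((N : ℝ) - ((N / T : ℕ) : ℝ)) * (P N - D / Q) ≤
          ((N : ℝ) - ((N / T : ℕ) : ℝ)) * P (N / T) :=
        mul_le_mul_of_nonneg_left (by linarith) (by linarith)
      linarith
    have h6 : ((N / T : ℕ) : ℝ) * P N ≤ (N / T) * D :=
      mul_le_mul hNT hPN hPN0 (by positivity)
    have h7 : ((N : ℝ) - ((N / T : ℕ) : ℝ)) * (D / Q) ≤ N * (D / Q) :=
      mul_le_mul_of_nonneg_right (by linarith) hDQ
    have h8 : (N : ℝ) * (D * (1 / T + 1 / Q)) = N / T * D + N * (D / Q) := by ring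
    rw [h8]
    nlinarith
  · set N := n / T ^ q with hN
    have h3 := hPdef N (hNn q)
    have hPN : P N ≤ D := (hPmono N n (hN1 q (by omega)) (hNn q) le_rfl).trans hP0
    rw [hcard _ (hNn q)]
    have h4 : β * ∑ i ∈ Mv N, κ i ≤ N * D := by
      have h5 : β * ∑ i ∈ Mv N, κ i ≤ ∑ i ∈ Mv N, w (Mv N) i := by
        simp only [hw, wt]
        rw [Finset.sum_add_distrib, ← Finset.mul_sum]
        have : 0 ≤ ∑ i ∈ Mv N, (g (Mv N) - g ((Mv N).erase i)) :=
          Finset.sum_nonneg fun i hi => he0 _ i hi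
        linarith
      rw [← h3] at h5
      have := mul_le_mul_of_nonneg_left hPN (Nat.cast_nonneg (α := ℝ) N)
      linarith
    have h6 : (N : ℝ) * (K + B / β) = (N * D) / β := by
      rw [hD]; field_simp; ring
    rw [h6, le_div_iff₀ hβ]
    linarith

end Pool.Agent.KN
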