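import Pool.Agent.KN.Avg
import Pool.Agent.KN.Num
import Pool.Agent.KN.Reg

/-! Choice of the set `M` and of the players. -/

namespace Pool.Agent.KN

open Finset Pool.Agent.SemRO

variable {n R : ℕ} {c : Fin R → (Fin n → Bool) → Fin n → Option Bool} {W : Finset (Fin n → Bool)}

/-- sum over all sets of players, normalised -/
noncomputable def gT (W : Finset (Fin n → Bool)) (c : Fin R → (Fin n → Bool) → Fin n → Option Bool)
    (M : Finset (Fin n)) : ℝ := (∑ S : Finset (Fin R), Gs W c M S) / W.card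

lemma sum_rd (z : Fin n → Bool) : ∑ i, (rd c z i).card = ∑ j, (dom (c j z)).card := by
  classical
  unfold rd dom
  simp only [Finset.card_filter]
  exact Finset.sum_comm

theorem exists_M (hW : W.Nonempty) (k : ℕ) (hR : 0 < R)
    (hlen : ∀ z ∈ W, ∀ j, (dom (c j z)).card * R ≤ k * n) {η : ℝ} (T : ℕ) (hT1 : 1 ≤ T)
    (hT : 4 * (2 ^ R * Real.log 2) / T ≤ η) (hn : T ^ T ≤ n) :
    ∃ M : Finset (Fin n), n / T ^ T ≤ M.card ∧ (∀ S, TC W c M S ≤ η * (W.card * M.card)) ∧
      ∑ z ∈ W, ∑ i ∈ M, ((rd c z i).card : ℝ) ≤ (2 * ((k : ℝ) + 1)) * (W.card * M.card) := by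
  classical
  have hWc : (0 : ℝ) < W.card := Nat.cast_pos.mpr (Finset.card_pos.mpr hW)
  set B : ℝ := 2 ^ R * Real.log 2 with hB
  have hBpos : 0 < B := mul_pos (by positivity) (Real.log_pos (by norm_num))
  set K : ℝ := (k : ℝ) + 1 with hK
  have hKpos : 0 < K := by positivity
  let κ : Fin n → ℝ := fun i => (∑ z ∈ W, ((rd c z i).card : ℝ)) / W.card
  have hdiff : ∀ M : Finset (Fin n), ∀ i, gT W c M - gT W c (M.erase i) =
      (∑ S : Finset (Fin R), (Gs W c M S - Gs W c (M.erase i) S)) / W.card := by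
    intro M i
    unfold gT
    rw [Finset.sum_sub_distrib]; ring
  have hcardS : (Fintype.card (Finset (Fin R)) : ℝ) = 2 ^ R := by
    rw [Fintype.card_finset, Fintype.card_fin]; push_cast; rfl
  have hreg := regularity (n := n) (gT W c) κ B K (B / K) T T
    (by
      unfold gT
      exact div_nonneg (Finset.sum_nonneg fun S _ => Gs_nonneg _ _) hWc.le)
    (by
      intro M i _
      rw [hdiff]
      apply div_nonneg _ hWc.le
      refine Finset.sum_nonneg fun S _ => ?_
      have := Gs_mono_M (W := W) (c := c) (Finset.erase_subset i M) S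
      linarith)
    (by
      intro M i _
      rw [hdiff, div_le_iff₀ hWc]
      calc ∑ S : Finset (Fin R), (Gs W c M S - Gs W c (M.erase i) S)
          ≤ ∑ S : Finset (Fin R), W.card * Real.log 2 := Finset.sum_le_sum fun S _ => Gs_diff_le i
        _ = B * W.card := by
            rw [Finset.sum_const, Finset.card_univ, nsmul_eq_mul, hcardS, hB]; ring)
    (by
      intro M M' h i hi
      rw [hdiff, hdiff]
      exact div_le_div_of_nonneg_right (Finset.sum_le_sum fun S _ => Gs_super h S hi) hWc.le)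
    (fun i => div_nonneg (Finset.sum_nonneg fun z _ => Nat.cast_nonneg _) hWc.le)
    (by
      simp only [κ]
      rw [← Finset.sum_div, div_le_iff₀ hWc, Finset.sum_comm]
      have h1 : ∀ z ∈ W, ∑ i, ((rd c z i).card : ℝ) ≤ k * n := by
        intro z hz
        have h2 : ∑ i, (rd c z i).card ≤ k * n := by
          rw [sum_rd]
          have h3 : (∑ j, (dom (c j z)).card) * R ≤ R * (k * n) := by
            rw [Finset.sum_mul]
            calc ∑ j, (dom (c j z)).card * R ≤ ∑ j : Fin R, k * n :=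
                  Finset.sum_le_sum fun j _ => hlen z hz j
              _ = R * (k * n) := by rw [Finset.sum_const, Finset.card_univ, Fintype.card_fin, smul_eq_mul]
          have h4 : R * (∑ j, (dom (c j z)).card) ≤ R * (k * n) := by rw [mul_comm]; exact h3
          exact Nat.le_of_mul_le_mul_left h4 hR
        exact_mod_cast h2
      calc ∑ z ∈ W, ∑ i, ((rd c z i).card : ℝ) ≤ ∑ z ∈ W, ((k : ℝ) * n) := Finset.sum_le_sum h1
        _ = W.card * (k * n) := by rw [Finset.sum_const, nsmul_eq_mul]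
        _ ≤ K * n * W.card := by
            have : (0 : ℝ) ≤ n := Nat.cast_nonneg _
            rw [hK]; nlinarith)
    (div_pos hBpos hKpos) hT1 (by omega) hn
  obtain ⟨q, hq, M, hMc, h1, h2⟩ := hreg
  refine ⟨M, ?_, ?_, ?_⟩
  · rw [hMc]
    exact Nat.div_le_div_left (Nat.pow_le_pow_right hT1 hq.le) (pow_pos (by omega) _)
  · intro S
    have h3 : (B + B / K * K) * (1 / (T : ℝ) + 1 / T) ≤ η := by
      rw [div_mul_cancel₀ _ hKpos.ne']
      calc (B + B) * (1 / (T : ℝ) + 1 / T) = 4 * B / T := by ring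
        _ ≤ η := hT
    have h4 : ∑ i ∈ M, (gT W c M - gT W c (M.erase i)) - gT W c M =
        (∑ S : Finset (Fin R), TC W c M S) / W.card := by
      have h5 : ∑ i ∈ M, (gT W c M - gT W c (M.erase i)) =
          (∑ S : Finset (Fin R), ∑ i ∈ M, (Gs W c M S - Gs W c (M.erase i) S)) / W.card := by
        rw [Finset.sum_comm, Finset.sum_div]
        exact Finset.sum_congr rfl fun i _ => hdiff M i
      rw [h5]
      unfold gT TC
      rw [Finset.sum_sub_distrib]; ring
    rw [h4, div_le_iff₀ hWc] at h1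
    have h5 : TC W c M S ≤ ∑ S : Finset (Fin R), TC W c M S :=
      Finset.single_le_sum (f := fun S => TC W c M S) (fun S _ => TC_nonneg M S) (Finset.mem_univ S)
    have h6 : (M.card : ℝ) * ((B + B / K * K) * (1 / (T : ℝ) + 1 / T)) ≤ M.card * η :=
      mul_le_mul_of_nonneg_left h3 (Nat.cast_nonneg _)
    have h7 := mul_le_mul_of_nonneg_right h6 hWc.le
    calc TC W c M S ≤ _ := h5
      _ ≤ _ := h1
      _ ≤ _ := h7
      _ = _ := by ring
  · have h3 : K + B / (B / K) = 2 * K := by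
      have : B / (B / K) = K := by field_simp
      rw [this]; ring
    rw [h3] at h2
    simp only [κ] at h2
    rw [← Finset.sum_div, div_le_iff₀ hWc, Finset.sum_comm] at h2
    calc _ ≤ _ := h2
      _ = _ := by ring

/-- the set of revealed players -/
theorem exists_S (hsub : ∀ z ∈ W, ∀ j, Sub (c j z) z)
    (huniq : ∀ z ∈ W, ∀ z' ∈ W, ∀ j, Sub (c j z') z → Sub (c j z) z' → c j z = c j z')
    (hW : W.Nonempty) (M : Finset (Fin n)) (hM : M.Nonempty) {m : ℕ} (hm : 1 ≤ m) (hR : R = m ^ 2)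
    {f k2 δ η : ℝ} (hδ0 : 0 < δ) (hδ1 : δ ≤ 1 / 2) (hη0 : 0 ≤ η)
    (hη : ∀ S, TC W c M S ≤ η * (W.card * M.card))
    (hk : ∑ z ∈ W, ∑ i ∈ M, ((rd c z i).card : ℝ) ≤ k2 * (W.card * M.card))
    (hζ : 2 * R * η + 4 * δ * k2 + R / δ * η ≤ Real.exp (-f) / 2)
    (hstart : 0.69 * (W.card * M.card) ≤ Gs W c M ∅)
    (hrec : ∀ (A : ℕ → ℝ) (ζ : ℝ),
      ζ ≤ Real.exp (-f) / 2 → 0.69 ≤ A 0 →
      (∀ t < m ^ 2, ∀ L ≤ m ^ 2, ∀ l : ℝ, 0 < l → l ≤ 1 / 2 →
      ((m : ℝ) ^ 2 - t) * (A t - A (t + 1)) ≤ 2 * L * A t + (-Real.log l + 1) *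
        ((((m : ℝ) ^ 2 - t) / (m : ℝ) ^ 2) ^ L * k2) + (m : ℝ) ^ 2 * Real.binEntropy l + ζ) →
      Real.exp (-f) ≤ A (m ^ 2 - m)) :
    ∃ S : Finset (Fin R), Sᶜ.card = m ∧ Real.exp (-f) * (W.card * M.card) ≤ Gs W c M S := by
  classical
  have hWc : (0 : ℝ) < W.card := Nat.cast_pos.mpr (Finset.card_pos.mpr hW)
  have hMc : (0 : ℝ) < M.card := Nat.cast_pos.mpr (Finset.card_pos.mpr hM)
  have hD : (0 : ℝ) < W.card * M.card := mul_pos hWc hMc
  have hRm : (R : ℝ) = (m : ℝ) ^ 2 := by rw [hR]; push_cast; rfl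
  have h1 := hrec (Aav W c M) (2 * R * η + 4 * δ * k2 + R / δ * η) hζ
    (by
      unfold Aav
      rw [Finset.powersetCard_zero, Finset.sum_singleton, Nat.choose_zero_right, Nat.cast_one, one_mul,
        le_div_iff₀ hD]
      exact hstart)
    (by
      intro t ht L hL l hl0 hl1
      have ht' : t < R := by rw [hR]; exact ht
      have h2 := avg_step hδ0 hδ1 hsub huniq hW M hM t L ht' hl0 hl1 hη hk
      rw [← hRm]
      refine h2.trans ?_
      have hL' : (L : ℝ) ≤ R := by rw [hRm]; exact_mod_cast hL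
      have h3 : 2 * (L : ℝ) * η ≤ 2 * R * η := by gcongr
      linarith)
  have hmm : m ≤ m ^ 2 := by nlinarith
  unfold Aav at h1
  have hch : (0 : ℝ) < R.choose (m ^ 2 - m) := by
    exact_mod_cast Nat.choose_pos (by rw [hR]; omega)
  rw [le_div_iff₀ (mul_pos hch hD)] at h1
  have hcardU : (((Finset.univ : Finset (Fin R)).powersetCard (m ^ 2 - m)).card : ℝ) =
      R.choose (m ^ 2 - m) := by
    rw [Finset.card_powersetCard, Finset.card_univ, Fintype.card_fin]
  have h4 : ∑ S ∈ (Finset.univ : Finset (Fin R)).powersetCard (m ^ 2 - m),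
      Real.exp (-f) * (W.card * M.card) ≤
      ∑ S ∈ (Finset.univ : Finset (Fin R)).powersetCard (m ^ 2 - m), Gs W c M S := by
    rw [Finset.sum_const, nsmul_eq_mul, hcardU]
    linarith
  obtain ⟨S, hS, h5⟩ := Finset.exists_le_of_sum_le
    (by
      rw [← Finset.card_pos]
      have h6 := hch
      rw [← hcardU] at h6
      exact_mod_cast h6) h4
  refine ⟨S, ?_, h5⟩
  rw [Finset.card_compl, Fintype.card_fin, (Finset.mem_powersetCard.mp hS).2, hR]
  omega

/-- lower bound for a ratio of binomial coefficients -/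
lemma choose_lower (p a : ℕ) (x : ℝ) (hx0 : 0 ≤ x) (hx1 : x ≤ 1) : ∀ T : ℕ, T ≤ p →
    (a : ℝ) ≤ (1 - x) * ((p : ℝ) - T) → a + T ≤ p → x ^ T * (p.choose T : ℝ) ≤ ((p - a).choose T : ℝ) := by
  intro T
  induction T with
  | zero => intro _ _ _; simp
  | succ T ih =>
    intro hT hax haT
    have hax' : (a : ℝ) ≤ (1 - x) * ((p : ℝ) - T) := by
      refine hax.trans ?_
      apply mul_le_mul_of_nonneg_left _ (by linarith)
      push_cast; linarith
    have h1 := ih (by omega) hax' (by omega)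
    have h2 : ((p.choose (T + 1) : ℕ) : ℝ) * (T + 1) = p.choose T * ((p : ℝ) - T) := by
      have h := Nat.choose_succ_right_eq p T
      have h4 : ((p.choose (T + 1) * (T + 1) : ℕ) : ℝ) = ((p.choose T * (p - T) : ℕ) : ℝ) := by rw [h]
      push_cast [Nat.cast_sub (show T ≤ p by omega)] at h4
      exact h4
    have h3 : (((p - a).choose (T + 1) : ℕ) : ℝ) * (T + 1) = (p - a).choose T * ((p : ℝ) - a - T) := by
      have h := Nat.choose_succ_right_eq (p - a) T
      have h4 : (((p - a).choose (T + 1) * (T + 1) : ℕ) : ℝ) = (((p - a).choose T * (p - a - T) : ℕ) : ℝ) := by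
        rw [h]
      push_cast [Nat.cast_sub (show T ≤ p - a by omega), Nat.cast_sub (show a ≤ p by omega)] at h4
      exact h4
    have hT1 : (0 : ℝ) < (T : ℝ) + 1 := by positivity
    have hpT : (0 : ℝ) ≤ (p : ℝ) - T := by
      have : (T : ℝ) ≤ p := by exact_mod_cast (show T ≤ p by omega)
      linarith
    have h5 : x ^ (T + 1) * (p.choose (T + 1) : ℝ) * (T + 1) ≤
        (((p - a).choose (T + 1) : ℕ) : ℝ) * (T + 1) := by
      rw [h3]
      calc x ^ (T + 1) * (p.choose (T + 1) : ℝ) * (T + 1)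
          = (x ^ T * p.choose T) * (x * ((p : ℝ) - T)) := by
            rw [mul_assoc, h2]; ring
        _ ≤ ((p - a).choose T : ℝ) * (x * ((p : ℝ) - T)) :=
            mul_le_mul_of_nonneg_right h1 (mul_nonneg hx0 hpT)
        _ ≤ ((p - a).choose T : ℝ) * ((p : ℝ) - a - T) := by
            apply mul_le_mul_of_nonneg_left _ (Nat.cast_nonneg _)
            linarith
    exact le_of_mul_le_mul_right h5 hT1

end Pool.Agent.KN
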