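import Pool.Agent.KN.T
import Pool.Agent.SemRO.Ent

/-! Cost of reading a bit, and the entropy form of the key inequality in a class. -/

namespace Pool.Agent.KN

open Finset Pool.Agent.SemRO

/-- ideal cost of reading a bit whose value has probability `y` -/
noncomputable def hh (y : ℝ) : ℝ := -Real.log y + (1 - y) / y * (-Real.log (1 - y))

lemma x_log_sq {x : ℝ} (h0 : 0 < x) (h1 : x ≤ 1) : x * Real.log x ^ 2 ≤ (1 - x) ^ 2 := by
  set t : ℝ := -Real.log x / 2 with ht
  have hx : x = Real.exp (-t) * Real.exp (-t) := by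
    rw [← Real.exp_add, ht, show -(-Real.log x / 2) + -(-Real.log x / 2) = Real.log x by ring,
      Real.exp_log h0]
  have ht0 : 0 ≤ t := by
    have := Real.log_nonpos h0.le h1
    rw [ht]; linarith
  have hs : t ≤ Real.sinh t := Real.self_le_sinh_iff.mpr ht0
  rw [Real.sinh_eq] at hs
  have hl : Real.log x = -2 * t := by rw [ht]; ring
  have hpos : 0 < Real.exp (-t) := Real.exp_pos _
  have hinv : Real.exp t * Real.exp (-t) = 1 := by rw [← Real.exp_add]; simp
  have h2 : 2 * t * Real.exp (-t) ≤ 1 - x := by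
    have h3 : 2 * t * Real.exp (-t) ≤ (Real.exp t - Real.exp (-t)) * Real.exp (-t) :=
      mul_le_mul_of_nonneg_right (by linarith) hpos.le
    rw [sub_mul, hinv, ← hx] at h3
    exact h3
  have h4 : 0 ≤ 2 * t * Real.exp (-t) := by positivity
  calc x * Real.log x ^ 2 = (2 * t * Real.exp (-t)) ^ 2 := by rw [hl]; nth_rewrite 1 [hx]; ring
    _ ≤ (1 - x) ^ 2 := pow_le_pow_left₀ h4 h2 2

lemma cost_bound {y δ : ℝ} (hy0 : 0 < y) (hy1 : y < 1) (hδ0 : 0 < δ) (hδ1 : δ ≤ 1 / 2) :
    (1 - δ) * Real.log y - Real.log (1 - (1 - y) ^ (1 - δ)) ≤ δ * (hh y + 4 * δ) := by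
  set q : ℝ := 1 - y with hq
  have hq0 : 0 < q := by rw [hq]; linarith
  have hq1 : q < 1 := by rw [hq]; linarith
  have hyq : y = 1 - q := by rw [hq]; ring
  set s : ℝ := 1 - δ with hs
  have hs0 : 0 < s := by rw [hs]; linarith
  set a : ℝ := -Real.log q with ha
  have ha0 : 0 < a := by
    have := Real.log_neg hq0 hq1
    rw [ha]; linarith
  set x : ℝ := q ^ s with hx
  have hx0 : 0 < x := Real.rpow_pos_of_pos hq0 _
  have hx1 : x < 1 := Real.rpow_lt_one hq0.le hq1 hs0
  have hlx : Real.log x = - (s * a) := by rw [hx, Real.log_rpow hq0, ha]; ring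
  have hqx : q = x * q ^ δ := by
    rw [hx, ← Real.rpow_add hq0, hs]; simp
  have hqd : 1 - δ * a ≤ q ^ δ := by
    rw [Real.rpow_def_of_pos hq0]
    have := Real.add_one_le_exp (Real.log q * δ)
    rw [ha]; linarith
  have hxq : x - q ≤ x * (δ * a) := by
    have : x * (1 - δ * a) ≤ q := by
      rw [hqx]; exact mul_le_mul_of_nonneg_left hqd hx0.le
    linarith
  have hqlex : q ≤ x := by
    rw [hx]
    calc q = q ^ (1 : ℝ) := (Real.rpow_one q).symm
      _ ≤ q ^ s := Real.rpow_le_rpow_of_exponent_ge' hq0.le hq1.le hs0.le (by rw [hs]; linarith)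
  have h1x : 0 < 1 - x := by linarith
  have h1q : 0 < 1 - q := by linarith
  -- first step
  have step1 : Real.log y - Real.log (1 - x) ≤ δ * a * (x / (1 - x)) := by
    rw [← Real.log_div hy0.ne' h1x.ne']
    have h1 := Real.log_le_sub_one_of_pos (div_pos hy0 h1x)
    have h2 : y / (1 - x) - 1 = (x - q) / (1 - x) := by
      rw [hyq]; field_simp; ring
    rw [h2] at h1
    calc _ ≤ (x - q) / (1 - x) := h1
      _ ≤ (x * (δ * a)) / (1 - x) := by gcongr
      _ = _ := by ring
  -- second step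
  have hsq := x_log_sq hx0 hx1.le
  rw [hlx] at hsq
  have step2 : a * (x / (1 - x)) ≤ a * (q / (1 - q)) + 4 * δ := by
    have h1 : a * (x / (1 - x)) - a * (q / (1 - q)) = a * ((x - q) / ((1 - x) * (1 - q))) := by
      field_simp; ring
    have h2 : a * ((x - q) / ((1 - x) * (1 - q))) ≤ a * ((x * (δ * a)) / ((1 - x) * (1 - x))) := by
      apply mul_le_mul_of_nonneg_left _ ha0.le
      apply div_le_div₀ (by positivity) hxq (mul_pos h1x h1x)
      exact mul_le_mul_of_nonneg_left (by linarith) h1x.le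
    have h3 : a * ((x * (δ * a)) / ((1 - x) * (1 - x))) ≤ 4 * δ := by
      rw [mul_div_assoc', div_le_iff₀ (mul_pos h1x h1x)]
      have h4 : x * a ^ 2 ≤ 4 * (1 - x) ^ 2 := by
        have h5 : x * (-(s * a)) ^ 2 = s ^ 2 * (x * a ^ 2) := by ring
        rw [h5] at hsq
        have h6 : (1 / 4 : ℝ) ≤ s ^ 2 := by
          have : (1 / 2 : ℝ) ≤ s := by rw [hs]; linarith
          nlinarith
        have h7 : 0 ≤ x * a ^ 2 := by positivity
        nlinarith
      calc a * (x * (δ * a)) = δ * (x * a ^ 2) := by ring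
        _ ≤ δ * (4 * (1 - x) ^ 2) := mul_le_mul_of_nonneg_left h4 hδ0.le
        _ = 4 * δ * ((1 - x) * (1 - x)) := by ring
    linarith
  have step3 := mul_le_mul_of_nonneg_left step2 hδ0.le
  have e1 : hh y = -Real.log y + q / (1 - q) * a := by
    unfold hh; rw [← hq, ← ha, ← hyq]
  rw [e1]
  have e2 : (1 - δ) * Real.log y = Real.log y - δ * Real.log y := by ring
  rw [show s * Real.log y = Real.log y - δ * Real.log y by rw [hs]; ring]
  have e3 : δ * a * (x / (1 - x)) = δ * (a * (x / (1 - x))) := by ring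
  rw [e3] at step1
  have e4 : δ * (-Real.log y + q / (1 - q) * a + 4 * δ) =
    - (δ * Real.log y) + δ * (a * (q / (1 - q)) + 4 * δ) := by ring
  rw [e4]
  linarith

lemma hh_nonneg {y : ℝ} (hy0 : 0 < y) (hy1 : y ≤ 1) : 0 ≤ hh y := by
  unfold hh
  have h1 := Real.log_nonpos hy0.le hy1
  have h2 := Real.log_nonpos (show (0 : ℝ) ≤ 1 - y by linarith) (by linarith)
  have h3 : 0 ≤ (1 - y) / y := div_nonneg (by linarith) hy0.le
  have h4 := mul_nonneg h3 (show 0 ≤ -Real.log (1 - y) by linarith)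
  linarith

lemma hh_le {y : ℝ} (hy0 : 0 < y) (hy1 : y ≤ 1) : hh y ≤ -Real.log y + 1 := by
  unfold hh
  rcases eq_or_lt_of_le hy1 with h | h
  · rw [h]; simp
  have h1y : 0 < 1 - y := by linarith
  -- log (1/(1-y)) ≤ 1/(1-y) - 1 = y/(1-y)
  have h2 := Real.log_le_sub_one_of_pos (inv_pos.mpr h1y)
  rw [Real.log_inv] at h2
  have h3 : (1 - y)⁻¹ - 1 = y / (1 - y) := by field_simp; ring
  rw [h3] at h2
  have h4 : (1 - y) / y * (-Real.log (1 - y)) ≤ (1 - y) / y * (y / (1 - y)) :=
    mul_le_mul_of_nonneg_left h2 (div_nonneg h1y.le hy0.le)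
  have h5 : (1 - y) / y * (y / (1 - y)) = 1 := by field_simp
  linarith

/-- actual cost -/
noncomputable def cst (δ y : ℝ) : ℝ := if y = 1 then 0 else hh y + 4 * δ

lemma cst_nonneg {δ y : ℝ} (hδ : 0 ≤ δ) (hy0 : 0 < y) (hy1 : y ≤ 1) : 0 ≤ cst δ y := by
  unfold cst
  split_ifs
  · exact le_rfl
  · linarith [hh_nonneg hy0 hy1]

lemma cst_spec {y δ : ℝ} (hy0 : 0 < y) (hy1 : y ≤ 1) (hδ0 : 0 < δ) (hδ1 : δ ≤ 1 / 2) :
    (1 - δ) * Real.log y - Real.log (1 - (1 - y) ^ (1 - δ)) ≤ δ * cst δ y := by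
  unfold cst
  split_ifs with h
  · rw [h]
    simp [Real.zero_rpow (show (1 - δ) ≠ 0 by linarith)]
  · exact cost_bound hy0 (lt_of_le_of_ne hy1 h) hδ0 hδ1

variable {n : ℕ}

open Classical in
/-- marginal of a class -/
noncomputable def marg (G : Finset (Fin n → Bool)) (i : Fin n) (y : Bool) : ℝ :=
  ((G.filter (fun z => z i = y)).card : ℝ) / G.card

lemma marg_nonneg (G : Finset (Fin n → Bool)) (i : Fin n) (y : Bool) : 0 ≤ marg G i y :=
  div_nonneg (Nat.cast_nonneg _) (Nat.cast_nonneg _)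

lemma marg_sum {G : Finset (Fin n → Bool)} (hne : G.Nonempty) (i : Fin n) :
    marg G i false + marg G i true = 1 := by
  classical
  have hG : (0 : ℝ) < G.card := Nat.cast_pos.mpr (Finset.card_pos.mpr hne)
  unfold marg
  rw [← add_div, div_eq_one_iff_eq hG.ne']
  have h := Finset.card_filter_add_card_filter_not (s := G) (fun z => z i = false)
  have h2 : G.filter (fun z => ¬ z i = false) = G.filter (fun z => z i = true) := by
    apply Finset.filter_congr
    intro z _
    simp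
  rw [h2] at h
  exact_mod_cast h

lemma marg_pos {G : Finset (Fin n → Bool)} {z : Fin n → Bool} (hz : z ∈ G) (i : Fin n) :
    0 < marg G i (z i) := by
  classical
  unfold marg
  apply div_pos
  · exact Nat.cast_pos.mpr (Finset.card_pos.mpr ⟨z, Finset.mem_filter.mpr ⟨hz, rfl⟩⟩)
  · exact Nat.cast_pos.mpr (Finset.card_pos.mpr ⟨z, hz⟩)

lemma marg_not {G : Finset (Fin n → Bool)} (hne : G.Nonempty) (i : Fin n) (y : Bool) :
    marg G i (!y) = 1 - marg G i y := by
  have := marg_sum hne i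
  cases y <;> simp <;> linarith

lemma marg_le_one {G : Finset (Fin n → Bool)} (hne : G.Nonempty) (i : Fin n) (y : Bool) :
    marg G i y ≤ 1 := by
  have := marg_not hne i y
  have := marg_nonneg G i (!y)
  linarith

lemma prod_fac_eq {s : ℝ} {p : Fin n → Bool → ℝ} {c : Fin n → Option Bool} {z : Fin n → Bool}
    (h : Sub c z) :
    ∏ k, fac s (p k) (c k) = ∏ k ∈ dom c, ((1 - p k (!(z k)) ^ s) / p k (z k) ^ s) := by
  classical
  have h1 : ∏ k, fac s (p k) (c k) = ∏ k, (if k ∈ dom c then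
      ((1 - p k (!(z k)) ^ s) / p k (z k) ^ s) else 1) := by
    refine Finset.prod_congr rfl fun k _ => ?_
    cases hk : c k with
    | none =>
      have : k ∉ dom c := by simp [dom, hk]
      rw [if_neg this]; rfl
    | some y =>
      have : k ∈ dom c := by simp [dom, hk]
      rw [if_pos this, h k y hk]; rfl
  rw [h1, Finset.prod_ite_mem]
  simp

theorem T_class {δ : ℝ} (hδ0 : 0 < δ) (hδ1 : δ ≤ 1 / 2) (G : Finset (Fin n → Bool))
    (c : (Fin n → Bool) → Fin n → Option Bool) (hsub : ∀ z ∈ G, Sub (c z) z)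
    (hD : ∀ z ∈ G, ∀ z' ∈ G, Sub (c z') z → Sub (c z) z' → c z = c z') :
    δ * ∑ z ∈ G, (Real.log G.card - Real.log (fib G c z).card) ≤
      ∑ z ∈ G, ∑ i ∈ dom (c z), δ * cst δ (marg G i (z i)) +
      (1 - δ) * (∑ z ∈ G, ((∑ i, - Real.log (marg G i (z i))) - Real.log G.card)) := by
  classical
  rcases G.eq_empty_or_nonempty with rfl | hne
  · simp
  have hG : (0 : ℝ) < G.card := Nat.cast_pos.mpr (Finset.card_pos.mpr hne)
  set s : ℝ := 1 - δ with hs
  have hs0 : 0 < s := by rw [hs]; linarith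
  have hs1 : s ≤ 1 := by rw [hs]; linarith
  set p : Fin n → Bool → ℝ := marg G with hp
  have hp0 : ∀ i y, 0 ≤ p i y := marg_nonneg G
  have hp1 : ∀ i, p i false + p i true = 1 := marg_sum hne
  have hT := T_biased s hs0 hs1 n p hp0 hp1 (G.image c) (fun k => k)
    (fun k => G.filter (fun z => c z = k))
    (by
      intro k _ z hz
      obtain ⟨h1, h2⟩ := Finset.mem_filter.mp hz
      rw [← h2]; exact hsub z h1)
    (by
      intro k _ k' _ hkk z hz z' hz' ⟨h1, h2⟩
      obtain ⟨g1, g2⟩ := Finset.mem_filter.mp hz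
      obtain ⟨g1', g2'⟩ := Finset.mem_filter.mp hz'
      apply hkk
      rw [← g2, ← g2']
      apply hD z g1 z' g1'
      · rw [g2']; exact h1
      · rw [g2]; exact h2)
  let x : (Fin n → Bool) → ℝ := fun z => ∏ i, p i (z i)
  have hxpos : ∀ z ∈ G, 0 < x z := fun z hz => Finset.prod_pos fun i _ => marg_pos hz i
  let m : (Fin n → Option Bool) → ℝ := fun k => mass p (G.filter (fun z => c z = k))
  have hmpos : ∀ z ∈ G, 0 < m (c z) := by
    intro z hz
    apply Finset.sum_pos
    · intro w hw; exact hxpos w (Finset.mem_filter.mp hw).1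
    · exact ⟨z, Finset.mem_filter.mpr ⟨hz, rfl⟩⟩
  let Q : (Fin n → Option Bool) → ℝ := fun k => (∏ i, fac s (p i) (k i)) * m k ^ s
  have hfacpos : ∀ z ∈ G, ∀ i, 0 < (1 - p i (!(z i)) ^ s) := by
    intro z hz i
    have h1 : p i (!(z i)) < 1 := by
      rw [hp, marg_not hne]
      have := marg_pos hz i
      linarith
    have := Real.rpow_lt_one (hp0 i (!(z i))) h1 hs0
    linarith
  have hprodpos : ∀ z ∈ G, 0 < ∏ i, fac s (p i) (c z i) := by
    intro z hz
    rw [prod_fac_eq (hsub z hz)]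
    exact Finset.prod_pos fun i _ => div_pos (hfacpos z hz i) (Real.rpow_pos_of_pos (marg_pos hz i) _)
  have hQpos : ∀ z ∈ G, 0 < Q (c z) := fun z hz =>
    mul_pos (hprodpos z hz) (Real.rpow_pos_of_pos (hmpos z hz) _)
  let t : (Fin n → Bool) → ℝ := fun z => G.card * Q (c z) / (fib G c z).card
  have ht : ∀ z ∈ G, 0 < t z := fun z hz => div_pos (mul_pos hG (hQpos z hz)) (fib_pos' hz)
  have hts : ∑ z ∈ G, t z ≤ G.card := by
    have h1 := sum_div_fib G c (fun k => G.card * Q k)
    simp only [t]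
    rw [h1, ← Finset.mul_sum]
    calc (G.card : ℝ) * ∑ i ∈ G.image c, Q i ≤ G.card * 1 := mul_le_mul_of_nonneg_left hT hG.le
      _ = G.card := mul_one _
  have hg := gibbs G t ht hts
  have hlog : ∀ z ∈ G, Real.log (t z) = (Real.log G.card - Real.log (fib G c z).card) -
      (∑ i ∈ dom (c z), (s * Real.log (p i (z i)) - Real.log (1 - (1 - p i (z i)) ^ s))) +
      s * Real.log (m (c z)) := by
    intro z hz
    simp only [t]
    rw [Real.log_div (mul_pos hG (hQpos z hz)).ne' (fib_pos' hz).ne',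
      Real.log_mul hG.ne' (hQpos z hz).ne']
    simp only [Q]
    rw [Real.log_mul (hprodpos z hz).ne' (Real.rpow_pos_of_pos (hmpos z hz) _).ne',
      Real.log_rpow (hmpos z hz), prod_fac_eq (hsub z hz), Real.log_prod (fun i _ =>
        (div_pos (hfacpos z hz i) (Real.rpow_pos_of_pos (marg_pos hz i) _)).ne')]
    have h1 : ∀ i ∈ dom (c z), Real.log ((1 - p i (!(z i)) ^ s) / p i (z i) ^ s) =
        - (s * Real.log (p i (z i)) - Real.log (1 - (1 - p i (z i)) ^ s)) := by
      intro i _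
      rw [Real.log_div (hfacpos z hz i).ne' (Real.rpow_pos_of_pos (marg_pos hz i) _).ne',
        Real.log_rpow (marg_pos hz i), hp, marg_not hne]
      ring
    rw [Finset.sum_congr rfl h1, Finset.sum_neg_distrib]
    ring
  rw [Finset.sum_congr rfl hlog, Finset.sum_add_distrib, Finset.sum_sub_distrib, ← Finset.mul_sum] at hg
  -- Jensen
  have hJ : ∑ z ∈ G, (Real.log (fib G c z).card + ∑ i, Real.log (p i (z i))) ≤
      ∑ z ∈ G, Real.log (m (c z)) := by
    apply sum_le_of_fib G c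
    intro z hz
    have hfe : G.filter (fun w => c w = c z) = fib G c z := by
      ext w; simp [mem_fib]
    have hcard : (0 : ℝ) < (fib G c z).card := fib_pos' hz
    have hmz : m (c z) = ∑ w ∈ fib G c z, x w := by
      simp only [m, mass]; rw [hfe]
    have hg2 := gibbs (fib G c z) (fun w => x w * (fib G c z).card / m (c z))
      (fun w hw => div_pos (mul_pos (hxpos w (mem_fib.mp hw).1) hcard) (hmpos z hz))
      (by
        rw [← Finset.sum_div, ← Finset.sum_mul, ← hmz]
        rw [mul_comm, mul_div_assoc, div_self (hmpos z hz).ne', mul_one])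
    have hl2 : ∀ w ∈ fib G c z, Real.log (x w * (fib G c z).card / m (c z)) =
        (Real.log (fib G c w).card + ∑ i, Real.log (p i (w i))) - Real.log (m (c w)) := by
      intro w hw
      have hwG := (mem_fib.mp hw).1
      have hcw := (mem_fib.mp hw).2
      rw [Real.log_div (mul_pos (hxpos w hwG) hcard).ne' (hmpos z hz).ne',
        Real.log_mul (hxpos w hwG).ne' hcard.ne', fib_congr hcw, hcw]
      have : Real.log (x w) = ∑ i, Real.log (p i (w i)) := by
        simp only [x]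
        rw [Real.log_prod (fun i _ => (marg_pos hwG i).ne')]
      rw [this]; ring
    rw [Finset.sum_congr rfl hl2, Finset.sum_sub_distrib] at hg2
    linarith
  rw [Finset.sum_add_distrib] at hJ
  -- costs
  have hcost : ∑ z ∈ G, ∑ i ∈ dom (c z), (s * Real.log (p i (z i)) -
      Real.log (1 - (1 - p i (z i)) ^ s)) ≤ ∑ z ∈ G, ∑ i ∈ dom (c z), δ * cst δ (marg G i (z i)) := by
    refine Finset.sum_le_sum fun z hz => Finset.sum_le_sum fun i _ => ?_
    rw [hs, hp]
    exact cst_spec (marg_pos hz i) (marg_le_one hne i _) hδ0 hδ1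
  have hE : ∑ z ∈ G, (Real.log G.card - Real.log (fib G c z).card) =
      ∑ z ∈ G, Real.log (G.card : ℝ) - ∑ z ∈ G, Real.log ((fib G c z).card : ℝ) := Finset.sum_sub_distrib _ _
  have hF : ∑ z ∈ G, ((∑ i, - Real.log (marg G i (z i))) - Real.log G.card) =
      - ∑ z ∈ G, ∑ i, Real.log (p i (z i)) - ∑ z ∈ G, Real.log (G.card : ℝ) := by
    rw [Finset.sum_sub_distrib, ← Finset.sum_neg_distrib]
    congr 1
    refine Finset.sum_congr rfl fun z _ => ?_
    rw [Finset.sum_neg_distrib]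
  rw [hE] at hg ⊢
  rw [hF]
  generalize ∑ z ∈ G, Real.log (G.card : ℝ) = a1 at *
  generalize ∑ z ∈ G, Real.log ((fib G c z).card : ℝ) = a2 at *
  generalize ∑ z ∈ G, ∑ i, Real.log (p i (z i)) = a3 at *
  generalize ∑ z ∈ G, Real.log (m (c z)) = a4 at *
  generalize ∑ z ∈ G, ∑ i ∈ dom (c z), (s * Real.log (p i (z i)) -
      Real.log (1 - (1 - p i (z i)) ^ s)) = a5 at *
  generalize ∑ z ∈ G, ∑ i ∈ dom (c z), δ * cst δ (marg G i (z i)) = a6 at *
  have h7 : s * (a2 + a3) ≤ s * a4 := mul_le_mul_of_nonneg_left hJ hs0.le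
  have h8 : δ = 1 - s := by rw [hs]; ring
  rw [h8]
  nlinarith [h7, hg, hcost]

end Pool.Agent.KN
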