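import Pool.Agent.KN.Cond
import Pool.Agent.SemRO.Core

/-! The basic entropies: classes of inputs that agree off `M` and have the same certificates for the
players in `S`. -/

namespace Pool.Agent.KN

open Finset Pool.Agent.SemRO

variable {n R : ℕ}

/-- `z` with the coordinates in `M` erased -/
def off (M : Finset (Fin n)) (z : Fin n → Bool) : Fin n → Bool := fun i => if i ∈ M then false else z i

lemma off_eq_iff {M : Finset (Fin n)} {z w : Fin n → Bool} : off M w = off M z ↔ ∀ i, i ∉ M → w i = z i := by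
  constructor
  · intro h i hi
    have := congrFun h i
    simpa [off, hi] using this
  · intro h
    funext i
    unfold off
    split_ifs with hi
    · rfl
    · exact h i hi

/-- what is known: the coordinates off `M` and the certificates of the players in `S` -/
def uu (c : Fin R → (Fin n → Bool) → Fin n → Option Bool) (M : Finset (Fin n)) (S : Finset (Fin R))
    (z : Fin n → Bool) : (Fin n → Bool) × (Fin R → Option (Fin n → Option Bool)) :=
  (off M z, fun j => if j ∈ S then some (c j z) else none)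

variable {c : Fin R → (Fin n → Bool) → Fin n → Option Bool}

lemma uu_eq_iff {M : Finset (Fin n)} {S : Finset (Fin R)} {z w : Fin n → Bool} :
    uu c M S w = uu c M S z ↔ (∀ i, i ∉ M → w i = z i) ∧ ∀ j ∈ S, c j w = c j z := by
  unfold uu
  rw [Prod.mk.injEq, off_eq_iff]
  refine and_congr_right fun _ => ?_
  constructor
  · intro h j hj
    have := congrFun h j
    simpa [hj] using this
  · intro h
    funext j
    split_ifs with hj
    · rw [h j hj]
    · rfl

/-- `|W|` times the conditional entropy of the coordinates in `M` -/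
noncomputable def Gs (W : Finset (Fin n → Bool)) (c : Fin R → (Fin n → Bool) → Fin n → Option Bool)
    (M : Finset (Fin n)) (S : Finset (Fin R)) : ℝ :=
  ∑ z ∈ W, Real.log (fib W (uu c M S) z).card

/-- conditional probability of the `i`-th bit -/
noncomputable def qs (W : Finset (Fin n → Bool)) (c : Fin R → (Fin n → Bool) → Fin n → Option Bool)
    (M : Finset (Fin n)) (S : Finset (Fin R)) (i : Fin n) (z : Fin n → Bool) : ℝ :=
  qq W (uu c M S) i z

variable {W : Finset (Fin n → Bool)}

lemma fib_uu_erase {M : Finset (Fin n)} {S : Finset (Fin R)} {i : Fin n} (z : Fin n → Bool) :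
    fib W (fun x => (uu c M S x, x i)) z = fib W (uu c (M.erase i) S) z := by
  apply fib_eq_of_iff
  intro w _
  rw [Prod.mk.injEq, uu_eq_iff, uu_eq_iff]
  constructor
  · rintro ⟨⟨h1, h2⟩, h3⟩
    refine ⟨fun k hk => ?_, h2⟩
    by_cases hki : k = i
    · rw [hki]; exact h3
    · exact h1 k fun hkM => hk (Finset.mem_erase.mpr ⟨hki, hkM⟩)
  · rintro ⟨h1, h2⟩
    refine ⟨⟨fun k hk => h1 k fun hkM => hk (Finset.mem_of_mem_erase hkM), h2⟩, ?_⟩
    exact h1 i (Finset.notMem_erase i M)

lemma qs_eq {M : Finset (Fin n)} {S : Finset (Fin R)} {i : Fin n} (z : Fin n → Bool) :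
    qs W c M S i z = ((fib W (uu c (M.erase i) S) z).card : ℝ) / (fib W (uu c M S) z).card := by
  unfold qs
  rw [qq_eq, fib_uu_erase]

lemma qs_pos {M : Finset (Fin n)} {S : Finset (Fin R)} {z : Fin n → Bool} (hz : z ∈ W) (i : Fin n) :
    0 < qs W c M S i z := qq_pos hz i

lemma qs_le_one {M : Finset (Fin n)} {S : Finset (Fin R)} {z : Fin n → Bool} (hz : z ∈ W) (i : Fin n) :
    qs W c M S i z ≤ 1 := qq_le_one hz i

/-- a bit which is constant on the class is known -/
lemma qs_eq_one {M : Finset (Fin n)} {S : Finset (Fin R)} {z : Fin n → Bool} (hz : z ∈ W) {i : Fin n}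
    (h : ∀ w ∈ W, uu c M S w = uu c M S z → w i = z i) : qs W c M S i z = 1 := by
  unfold qs
  rw [qq_eq]
  have : fib W (fun x => (uu c M S x, x i)) z = fib W (uu c M S) z := by
    apply fib_eq_of_iff
    intro w hw
    rw [Prod.mk.injEq]
    exact ⟨fun h' => h'.1, fun h' => ⟨h', h w hw h'⟩⟩
  rw [this, div_self (fib_pos' hz).ne']

lemma qs_off {M : Finset (Fin n)} {S : Finset (Fin R)} {z : Fin n → Bool} (hz : z ∈ W) {i : Fin n}
    (hi : i ∉ M) : qs W c M S i z = 1 :=
  qs_eq_one hz fun _ _ h => (uu_eq_iff.mp h).1 i hi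

lemma qs_read {M : Finset (Fin n)} {S : Finset (Fin R)} {z : Fin n → Bool} (hz : z ∈ W) {i : Fin n}
    (hsub : ∀ z ∈ W, ∀ j, Sub (c j z) z) {j : Fin R} (hj : j ∈ S) (hi : i ∈ dom (c j z)) :
    qs W c M S i z = 1 := by
  apply qs_eq_one hz
  intro w hw h
  have h1 := (uu_eq_iff.mp h).2 j hj
  have h2 := mem_dom.mp hi
  cases hc : c j z i with
  | none => exact absurd hc h2
  | some y =>
    rw [hsub z hz j i y hc]
    rw [← h1] at hc
    exact hsub w hw j i y hc

lemma sum_neg_log_qs {M : Finset (Fin n)} {S : Finset (Fin R)} {i : Fin n} :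
    ∑ z ∈ W, - Real.log (qs W c M S i z) = Gs W c M S - Gs W c (M.erase i) S := by
  unfold Gs
  rw [← Finset.sum_sub_distrib]
  refine Finset.sum_congr rfl fun z hz => ?_
  rw [qs_eq, Real.log_div (fib_pos' hz).ne' (fib_pos' hz).ne']
  ring

lemma Gs_mono_M {M M' : Finset (Fin n)} (h : M' ⊆ M) (S : Finset (Fin R)) :
    Gs W c M' S ≤ Gs W c M S := by
  unfold Gs
  refine Finset.sum_le_sum fun z hz => ?_
  apply Real.log_le_log (fib_pos' hz)
  have : fib W (uu c M' S) z ⊆ fib W (uu c M S) z := by
    intro w hw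
    obtain ⟨h1, h2⟩ := mem_fib.mp hw
    refine mem_fib.mpr ⟨h1, ?_⟩
    rw [uu_eq_iff] at h2 ⊢
    exact ⟨fun i hi => h2.1 i fun hi' => hi (h hi'), h2.2⟩
  exact_mod_cast Finset.card_le_card this

lemma Gs_anti_S {M : Finset (Fin n)} {S S' : Finset (Fin R)} (h : S ⊆ S') :
    Gs W c M S' ≤ Gs W c M S := by
  unfold Gs
  refine Finset.sum_le_sum fun z hz => ?_
  apply Real.log_le_log (fib_pos' hz)
  have : fib W (uu c M S') z ⊆ fib W (uu c M S) z := by
    intro w hw
    obtain ⟨h1, h2⟩ := mem_fib.mp hw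
    refine mem_fib.mpr ⟨h1, ?_⟩
    rw [uu_eq_iff] at h2 ⊢
    exact ⟨h2.1, fun j hj => h2.2 j (h hj)⟩
  exact_mod_cast Finset.card_le_card this

lemma Gs_empty (S : Finset (Fin R)) : Gs W c ∅ S = 0 := by
  unfold Gs
  apply Finset.sum_eq_zero
  intro z hz
  have : fib W (uu c ∅ S) z = {z} := by
    ext w
    rw [mem_fib, uu_eq_iff, Finset.mem_singleton]
    constructor
    · rintro ⟨_, h, _⟩
      funext i; exact h i (Finset.notMem_empty i)
    · rintro rfl
      exact ⟨hz, fun _ _ => rfl, fun _ _ => rfl⟩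
  rw [this]; simp

lemma Gs_nonneg (M : Finset (Fin n)) (S : Finset (Fin R)) : 0 ≤ Gs W c M S := by
  rw [← Gs_empty (W := W) (c := c) S]
  exact Gs_mono_M (Finset.empty_subset _) S

/-- supermodularity -/
lemma Gs_super {M M' : Finset (Fin n)} (h : M' ⊆ M) (S : Finset (Fin R)) {i : Fin n} (hi : i ∈ M') :
    Gs W c M' S - Gs W c (M'.erase i) S ≤ Gs W c M S - Gs W c (M.erase i) S := by
  have h1 := ssa W (uu c M S) (fun x => x i) (fun x => off M' x)
  have e1 : ∑ z ∈ W, Real.log ((fib W (fun x => (uu c M S x, x i)) z).card : ℝ) =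
      Gs W c (M.erase i) S := by
    unfold Gs
    refine Finset.sum_congr rfl fun z _ => ?_
    rw [fib_uu_erase]
  have e2 : ∑ z ∈ W, Real.log ((fib W (fun x => (uu c M S x, off M' x)) z).card : ℝ) =
      Gs W c M' S := by
    unfold Gs
    refine Finset.sum_congr rfl fun z _ => ?_
    have : fib W (fun x => (uu c M S x, off M' x)) z = fib W (uu c M' S) z := by
      apply fib_eq_of_iff
      intro w _
      rw [Prod.mk.injEq, uu_eq_iff, uu_eq_iff, off_eq_iff]
      constructor
      · rintro ⟨⟨_, h2⟩, h3⟩; exact ⟨h3, h2⟩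
      · rintro ⟨h3, h2⟩; exact ⟨⟨fun k hk => h3 k fun hk' => hk (h hk'), h2⟩, h3⟩
    rw [this]
  have e3 : ∑ z ∈ W, Real.log ((fib W (fun x => (uu c M S x, (x i, off M' x))) z).card : ℝ) =
      Gs W c (M'.erase i) S := by
    unfold Gs
    refine Finset.sum_congr rfl fun z _ => ?_
    have : fib W (fun x => (uu c M S x, (x i, off M' x))) z = fib W (uu c (M'.erase i) S) z := by
      apply fib_eq_of_iff
      intro w _
      simp only [Prod.mk.injEq, uu_eq_iff, off_eq_iff]
      constructor
      · rintro ⟨⟨_, h2⟩, h4, h3⟩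
        refine ⟨fun k hk => ?_, h2⟩
        by_cases hki : k = i
        · rw [hki]; exact h4
        · exact h3 k fun hkM => hk (Finset.mem_erase.mpr ⟨hki, hkM⟩)
      · rintro ⟨h3, h2⟩
        refine ⟨⟨fun k hk => h3 k fun hk' => hk (h (Finset.mem_of_mem_erase hk')), h2⟩,
          h3 i (Finset.notMem_erase i M'), fun k hk => h3 k fun hk' => hk (Finset.mem_of_mem_erase hk')⟩
    rw [this]
  rw [Finset.sum_add_distrib, Finset.sum_add_distrib, e1, e2, e3] at h1
  have e4 : ∑ z ∈ W, Real.log ((fib W (uu c M S) z).card : ℝ) = Gs W c M S := rfl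
  rw [e4] at h1
  linarith

/-- total correlation -/
noncomputable def TC (W : Finset (Fin n → Bool)) (c : Fin R → (Fin n → Bool) → Fin n → Option Bool)
    (M : Finset (Fin n)) (S : Finset (Fin R)) : ℝ :=
  ∑ i ∈ M, (Gs W c M S - Gs W c (M.erase i) S) - Gs W c M S

lemma TC_eq (M : Finset (Fin n)) (S : Finset (Fin R)) :
    ∑ z ∈ W, ((∑ i, - Real.log (qs W c M S i z)) - Real.log (fib W (uu c M S) z).card) =
      TC W c M S := by
  unfold TC
  rw [Finset.sum_sub_distrib]
  have e4 : ∑ z ∈ W, Real.log ((fib W (uu c M S) z).card : ℝ) = Gs W c M S := rfl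
  rw [e4]
  congr 1
  rw [Finset.sum_comm]
  rw [← Finset.sum_subset (Finset.subset_univ M)]
  · refine Finset.sum_congr rfl fun i _ => ?_
    exact sum_neg_log_qs
  · intro i _ hi
    apply Finset.sum_eq_zero
    intro z hz
    rw [qs_off hz hi]; simp

lemma TC_nonneg (M : Finset (Fin n)) (S : Finset (Fin R)) : 0 ≤ TC W c M S := by
  rw [← TC_eq]
  have : ∑ z ∈ W, (0 : ℝ) ≤ ∑ z ∈ W, ((∑ i, - Real.log (qs W c M S i z)) -
      Real.log (fib W (uu c M S) z).card) := by
    apply sum_le_of_fib W (uu c M S)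
    intro z hz
    rw [Finset.sum_const_zero]
    set G := fib W (uu c M S) z with hGdef
    have hGw : ∀ w ∈ G, fib W (uu c M S) w = G := fun w hw => fib_congr (mem_fib.mp hw).2
    have h0 := tc_class_nonneg G
    refine h0.trans (le_of_eq ?_)
    refine Finset.sum_congr rfl fun w hw => ?_
    unfold qs qq
    rw [hGw w hw]
  simpa using this

lemma Gs_insert {M : Finset (Fin n)} {S : Finset (Fin R)} {j : Fin R} :
    Gs W c M S - Gs W c M (insert j S) =
      ∑ z ∈ W, (Real.log (fib W (uu c M S) z).card -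
        Real.log (fib W (fun x => (uu c M S x, c j x)) z).card) := by
  unfold Gs
  rw [← Finset.sum_sub_distrib]
  refine Finset.sum_congr rfl fun z _ => ?_
  have : fib W (fun x => (uu c M S x, c j x)) z = fib W (uu c M (insert j S)) z := by
    apply fib_eq_of_iff
    intro w _
    rw [Prod.mk.injEq, uu_eq_iff, uu_eq_iff]
    constructor
    · rintro ⟨⟨h1, h2⟩, h3⟩
      refine ⟨h1, fun k hk => ?_⟩
      rcases Finset.mem_insert.mp hk with rfl | hk
      · exact h3
      · exact h2 k hk
    · rintro ⟨h1, h2⟩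
      exact ⟨⟨h1, fun k hk => h2 k (Finset.mem_insert_of_mem hk)⟩, h2 j (Finset.mem_insert_self _ _)⟩
  rw [this]

/-- the key inequality for one player -/
lemma T_player {δ : ℝ} (hδ0 : 0 < δ) (hδ1 : δ ≤ 1 / 2)
    (hsub : ∀ z ∈ W, ∀ j, Sub (c j z) z)
    (huniq : ∀ z ∈ W, ∀ z' ∈ W, ∀ j, Sub (c j z') z → Sub (c j z) z' → c j z = c j z')
    (M : Finset (Fin n)) (S : Finset (Fin R)) (j : Fin R) :
    Gs W c M S - Gs W c M (insert j S) ≤
      ∑ z ∈ W, ∑ i ∈ dom (c j z), cst δ (qs W c M S i z) + (1 / δ) * TC W c M S := by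
  rw [Gs_insert, ← TC_eq]
  exact T_cond hδ0 hδ1 W (uu c M S) (c j) (fun z hz => hsub z hz j)
    (fun z hz z' hz' => huniq z hz z' hz' j)

/-! sums over a class -/

lemma class_sum (G : Finset (Fin n → Bool)) (i : Fin n) (f : ℝ → ℝ) :
    ∑ z ∈ G, f (marg G i (z i)) = G.card * (marg G i false * f (marg G i false) +
      marg G i true * f (marg G i true)) := by
  classical
  rcases G.eq_empty_or_nonempty with rfl | hne
  · simp
  have hG : (0 : ℝ) < G.card := Nat.cast_pos.mpr (Finset.card_pos.mpr hne)
  rw [← Finset.sum_filter_add_sum_filter_not G (fun z => z i = false)]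
  have h2 : G.filter (fun z => ¬ z i = false) = G.filter (fun z => z i = true) := by
    apply Finset.filter_congr
    intro z _
    simp
  rw [h2]
  have key : ∀ y : Bool, ∑ z ∈ G.filter (fun z => z i = y), f (marg G i (z i)) =
      G.card * (marg G i y * f (marg G i y)) := by
    intro y
    have : ∀ z ∈ G.filter (fun z => z i = y), f (marg G i (z i)) = f (marg G i y) := by
      intro z hz
      rw [(Finset.mem_filter.mp hz).2]
    rw [Finset.sum_congr rfl this, Finset.sum_const, nsmul_eq_mul]
    have : ((G.filter (fun z => z i = y)).card : ℝ) = G.card * marg G i y := by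
      unfold marg
      rw [mul_div_cancel₀ _ hG.ne']
    rw [this]; ring
  rw [key, key]; ring

lemma mul_hh {y : ℝ} (hy0 : 0 ≤ y) : y * hh y = Real.binEntropy y := by
  unfold hh Real.binEntropy
  rcases eq_or_lt_of_le hy0 with h | h
  · rw [← h]; simp
  · rw [Real.log_inv, Real.log_inv]
    field_simp

lemma class_hh (G : Finset (Fin n → Bool)) (i : Fin n) :
    ∑ z ∈ G, hh (marg G i (z i)) = 2 * ∑ z ∈ G, - Real.log (marg G i (z i)) := by
  rcases G.eq_empty_or_nonempty with rfl | hne
  · simp
  rw [class_sum G i hh, class_sum G i (fun y => - Real.log y), mul_hh (marg_nonneg _ _ _),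
    mul_hh (marg_nonneg _ _ _)]
  have h1 : marg G i true = 1 - marg G i false := by
    have := marg_sum hne i; linarith
  rw [h1, Real.binEntropy_one_sub]
  unfold Real.binEntropy
  rw [Real.log_inv, Real.log_inv]
  ring

lemma class_rare (G : Finset (Fin n → Bool)) (i : Fin n) {l : ℝ} (hl0 : 0 ≤ l) (hl : l ≤ 1 / 2) :
    ∑ z ∈ G, (if marg G i (z i) < l then hh (marg G i (z i)) else 0) ≤ G.card * Real.binEntropy l := by
  rcases G.eq_empty_or_nonempty with rfl | hne
  · simp
  have hG : (0 : ℝ) < G.card := Nat.cast_pos.mpr (Finset.card_pos.mpr hne)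
  rw [class_sum G i (fun y => if y < l then hh y else 0)]
  apply mul_le_mul_of_nonneg_left _ hG.le
  have h1 := marg_sum hne i
  have h0 := marg_nonneg G i false
  have h2 := marg_nonneg G i true
  have hb : 0 ≤ Real.binEntropy l := Real.binEntropy_nonneg hl0 (by linarith)
  have hm : ∀ y : ℝ, 0 ≤ y → y < l → Real.binEntropy y ≤ Real.binEntropy l := by
    intro y hy0 hyl
    apply (Real.binEntropy_strictMonoOn.monotoneOn)
    · constructor
      · exact hy0
      · norm_num; linarith
    · constructor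
      · exact hl0
      · norm_num; linarith
    · exact hyl.le
  by_cases ha : marg G i false < l
  · have hb' : ¬ marg G i true < l := by intro h; linarith
    rw [if_pos ha, if_neg hb', mul_hh h0, mul_zero, add_zero]
    exact hm _ h0 ha
  · rw [if_neg ha, mul_zero, zero_add]
    by_cases hb' : marg G i true < l
    · rw [if_pos hb', mul_hh h2]
      exact hm _ h2 hb'
    · rw [if_neg hb', mul_zero]; exact hb

lemma sum_hh {M : Finset (Fin n)} {S : Finset (Fin R)} (i : Fin n) :
    ∑ z ∈ W, hh (qs W c M S i z) ≤ 2 * (Gs W c M S - Gs W c (M.erase i) S) := by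
  rw [← sum_neg_log_qs, Finset.mul_sum]
  apply sum_le_of_fib W (uu c M S)
  intro z hz
  set G := fib W (uu c M S) z with hGdef
  have hGw : ∀ w ∈ G, fib W (uu c M S) w = G := fun w hw => fib_congr (mem_fib.mp hw).2
  have h := class_hh G i
  rw [Finset.mul_sum] at h
  refine le_of_eq ?_
  calc ∑ w ∈ G, hh (qs W c M S i w) = ∑ w ∈ G, hh (marg G i (w i)) := by
        refine Finset.sum_congr rfl fun w hw => ?_
        unfold qs qq; rw [hGw w hw]
    _ = ∑ w ∈ G, 2 * -Real.log (marg G i (w i)) := h
    _ = _ := by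
        refine Finset.sum_congr rfl fun w hw => ?_
        unfold qs qq; rw [hGw w hw]

lemma sum_rare {M : Finset (Fin n)} {S : Finset (Fin R)} (i : Fin n) {l : ℝ} (hl0 : 0 ≤ l)
    (hl : l ≤ 1 / 2) :
    ∑ z ∈ W, (if qs W c M S i z < l then hh (qs W c M S i z) else 0) ≤ W.card * Real.binEntropy l := by
  have : (W.card : ℝ) * Real.binEntropy l = ∑ z ∈ W, Real.binEntropy l := by
    rw [Finset.sum_const, nsmul_eq_mul]
  rw [this]
  apply sum_le_of_fib W (uu c M S)
  intro z hz
  set G := fib W (uu c M S) z with hGdef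
  have hGw : ∀ w ∈ G, fib W (uu c M S) w = G := fun w hw => fib_congr (mem_fib.mp hw).2
  have h := class_rare G i hl0 hl
  rw [Finset.sum_const, nsmul_eq_mul]
  refine (le_of_eq ?_).trans h
  refine Finset.sum_congr rfl fun w hw => ?_
  unfold qs qq; rw [hGw w hw]

/-- each bit has entropy at most `log 2` -/
lemma Gs_diff_le {M : Finset (Fin n)} {S : Finset (Fin R)} (i : Fin n) :
    Gs W c M S - Gs W c (M.erase i) S ≤ W.card * Real.log 2 := by
  rw [← sum_neg_log_qs]
  have : (W.card : ℝ) * Real.log 2 = ∑ z ∈ W, Real.log 2 := by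
    rw [Finset.sum_const, nsmul_eq_mul]
  rw [this]
  apply sum_le_of_fib W (uu c M S)
  intro z hz
  set G := fib W (uu c M S) z with hGdef
  have hGw : ∀ w ∈ G, fib W (uu c M S) w = G := fun w hw => fib_congr (mem_fib.mp hw).2
  have hne : G.Nonempty := ⟨z, self_mem_fib hz⟩
  have h := class_sum G i (fun y => - Real.log y)
  have e : ∑ w ∈ G, -Real.log (qs W c M S i w) = ∑ w ∈ G, -Real.log (marg G i (w i)) := by
    refine Finset.sum_congr rfl fun w hw => ?_
    unfold qs qq; rw [hGw w hw]
  rw [e, h, Finset.sum_const, nsmul_eq_mul]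
  apply mul_le_mul_of_nonneg_left _ (Nat.cast_nonneg _)
  have h1 : marg G i true = 1 - marg G i false := by
    have := marg_sum hne i; linarith
  have h2 : marg G i false * -Real.log (marg G i false) + marg G i true * -Real.log (marg G i true) =
      Real.binEntropy (marg G i false) := by
    unfold Real.binEntropy
    rw [Real.log_inv, Real.log_inv, h1]
  rw [h2]
  exact Real.binEntropy_le_log_two

/-- the entropy of `M` at the start -/
lemma Gs_start (M : Finset (Fin n)) (hW : W.Nonempty) :
    W.card * (Real.log W.card - (n - M.card) * Real.log 2) ≤ Gs W c M ∅ := by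
  classical
  have hWc : (0 : ℝ) < W.card := Nat.cast_pos.mpr (Finset.card_pos.mpr hW)
  have h2n : (0 : ℝ) < 2 ^ (n - M.card) := by positivity
  have hg := gibbs W (fun z => W.card / ((2 : ℝ) ^ (n - M.card) * (fib W (uu c M ∅) z).card))
    (fun z hz => div_pos hWc (mul_pos h2n (fib_pos' hz)))
    (by
      have h1 := sum_div_fib W (uu c M ∅) (fun _ => (W.card : ℝ) / 2 ^ (n - M.card))
      have h2 : ∀ z ∈ W, (W.card : ℝ) / ((2 : ℝ) ^ (n - M.card) * (fib W (uu c M ∅) z).card) =
          (W.card : ℝ) / 2 ^ (n - M.card) / (fib W (uu c M ∅) z).card := by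
        intro z _; rw [div_div]
      rw [Finset.sum_congr rfl h2, h1, Finset.sum_const, nsmul_eq_mul]
      have h3 : (W.image (uu c M ∅)).card ≤ 2 ^ (n - M.card) := by
        have h4 : (W.image (uu c M ∅)).card ≤
            (Fintype.piFinset (fun i : Fin n => if i ∈ M then ({false} : Finset Bool) else Finset.univ)).card := by
          apply Finset.card_le_card_of_injOn (fun p => p.1)
          · intro p hp
            obtain ⟨z, _, rfl⟩ := Finset.mem_image.mp hp
            simp only [Finset.mem_coe, Fintype.mem_piFinset]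
            intro i
            unfold uu off
            simp only
            split_ifs <;> simp
          · intro p hp q hq hpq
            obtain ⟨z, _, rfl⟩ := Finset.mem_image.mp hp
            obtain ⟨w, _, rfl⟩ := Finset.mem_image.mp hq
            simp only [uu] at hpq ⊢
            rw [hpq]
            simp
        refine h4.trans (le_of_eq ?_)
        rw [Fintype.card_piFinset]
        have h5 : ∀ i : Fin n, (if i ∈ M then ({false} : Finset Bool) else Finset.univ).card =
            if i ∈ M then 1 else 2 := by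
          intro i; split_ifs <;> simp
        rw [Finset.prod_congr rfl (fun i _ => h5 i), Finset.prod_ite, Finset.prod_const_one, one_mul,
          Finset.prod_const]
        congr 1
        have h6 : Finset.univ.filter (fun i => ¬ i ∈ M) = Mᶜ := by ext; simp
        rw [h6, Finset.card_compl, Fintype.card_fin]
      have h7 : ((W.image (uu c M ∅)).card : ℝ) ≤ 2 ^ (n - M.card) := by exact_mod_cast h3
      calc ((W.image (uu c M ∅)).card : ℝ) * ((W.card : ℝ) / 2 ^ (n - M.card))
          ≤ 2 ^ (n - M.card) * ((W.card : ℝ) / 2 ^ (n - M.card)) :=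
            mul_le_mul_of_nonneg_right h7 (by positivity)
        _ = W.card := by field_simp)
  have hMn : M.card ≤ n := by simpa using Finset.card_le_univ M
  have hl : ∀ z ∈ W, Real.log (W.card / ((2 : ℝ) ^ (n - M.card) * (fib W (uu c M ∅) z).card)) =
      (Real.log W.card - (n - M.card) * Real.log 2) - Real.log (fib W (uu c M ∅) z).card := by
    intro z hz
    rw [Real.log_div hWc.ne' (mul_pos h2n (fib_pos' hz)).ne', Real.log_mul h2n.ne' (fib_pos' hz).ne',
      Real.log_pow, Nat.cast_sub hMn]
    ring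
  rw [Finset.sum_congr rfl hl, Finset.sum_sub_distrib, Finset.sum_const, nsmul_eq_mul] at hg
  unfold Gs
  linarith

end Pool.Agent.KN
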