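import Pool.Agent.SemRO.Core

/-! Rectangle-free sets given by linearly many constraints on a constant number of variables. -/

namespace Pool.Agent.KN.Local

open Finset Pool.Agent.SemRO

variable {n : ℕ}

section Balls

lemma sum_pow_dist (x : ℝ) (z : Fin n → Bool) :
    ∑ y : Fin n → Bool, x ^ hammingDist y z = (1 + x) ^ n := by
  have h1 : ∀ y : Fin n → Bool, x ^ hammingDist y z = ∏ i, (if y i = z i then 1 else x) := by
    intro y
    rw [Finset.prod_ite]
    simp only [prod_const_one, one_mul, prod_const]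
    rfl
  simp_rw [h1]
  have h2 := Finset.prod_univ_sum (fun _ : Fin n => (univ : Finset Bool))
    (fun i b => if b = z i then (1 : ℝ) else x)
  rw [Fintype.piFinset_univ] at h2
  rw [← h2]
  have h3 : ∀ i : Fin n, ∑ b : Bool, (if b = z i then (1 : ℝ) else x) = 1 + x := by
    intro i
    rw [Fintype.sum_bool]
    cases z i <;> simp [add_comm]
  rw [Finset.prod_congr rfl fun i _ => h3 i]
  simp

lemma ball_card (x : ℝ) (hx : 0 < x) (hx1 : x ≤ 1) (z : Fin n → Bool) (D : ℕ) :
    ((univ.filter fun y : Fin n → Bool => hammingDist y z ≤ D).card : ℝ) * x ^ D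
      ≤ (1 + x) ^ n := by
  rw [← sum_pow_dist x z, ← nsmul_eq_mul, ← Finset.sum_const]
  calc ∑ _y ∈ univ.filter (fun y : Fin n → Bool => hammingDist y z ≤ D), x ^ D
      ≤ ∑ y ∈ univ.filter (fun y : Fin n → Bool => hammingDist y z ≤ D), x ^ hammingDist y z := by
        apply Finset.sum_le_sum
        intro y hy
        exact pow_le_pow_of_le_one hx.le hx1 (mem_filter.1 hy).2
    _ ≤ ∑ y : Fin n → Bool, x ^ hammingDist y z :=
        Finset.sum_le_sum_of_subset_of_nonneg (filter_subset _ _) fun y _ _ => by positivity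

lemma pick (P : Finset (Fin n → Bool)) (D V : ℕ)
    (hV : ∀ z : Fin n → Bool, (univ.filter fun y : Fin n → Bool => hammingDist y z ≤ D).card ≤ V)
    (t : ℕ) (h : t * V < P.card) :
    ∃ r : Fin t → (Fin n → Bool), (∀ i, r i ∈ P) ∧ ∀ i j, i ≠ j → D < hammingDist (r i) (r j) := by
  induction t with
  | zero => exact ⟨fun i => i.elim0, fun i => i.elim0, fun i => i.elim0⟩
  | succ t ih =>
    have ht : t * V < P.card := lt_of_le_of_lt (Nat.mul_le_mul_right _ (Nat.le_succ t)) h
    obtain ⟨r, hr, hd⟩ := ih ht
    have hU : (univ.biUnion fun i : Fin t =>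
        univ.filter fun y : Fin n → Bool => hammingDist y (r i) ≤ D).card ≤ t * V := by
      refine card_biUnion_le.trans ?_
      calc ∑ i : Fin t, (univ.filter fun y : Fin n → Bool => hammingDist y (r i) ≤ D).card
          ≤ ∑ _i : Fin t, V := Finset.sum_le_sum fun i _ => hV (r i)
        _ = t * V := by simp
    obtain ⟨p, hp, hpn⟩ : ∃ p ∈ P, p ∉ univ.biUnion fun i : Fin t =>
        univ.filter fun y : Fin n → Bool => hammingDist y (r i) ≤ D := by
      by_contra hcon
      push Not at hcon
      have := Finset.card_le_card (fun p hp => hcon p hp)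
      omega
    have hp' : ∀ i, D < hammingDist p (r i) := by
      intro i
      by_contra hle
      apply hpn
      simp only [mem_biUnion, mem_univ, mem_filter, true_and]
      exact ⟨i, by omega⟩
    refine ⟨Fin.cons p r, ?_, ?_⟩
    · intro i
      refine Fin.cases ?_ ?_ i
      · simpa using hp
      · intro j; simpa using hr j
    · intro i j
      refine Fin.cases ?_ ?_ i
      · refine Fin.cases ?_ ?_ j
        · intro h; exact absurd rfl h
        · intro j' _; simpa using hp' j'
      · intro i'
        refine Fin.cases ?_ ?_ j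
        · intro _; rw [hammingDist_comm]; simpa using hp' i'
        · intro j' hij
          simpa using hd i' j' (fun h => hij (by rw [h]))

end Balls

section Check

variable {w t : ℕ}

/-- a check: `w` indices and a predicate -/
abbrev Chk (n w : ℕ) : Type := (Fin w → Fin n) × ((Fin w → Bool) → Bool)

/-- the view of `x` through the indices `N` -/
def view (N : Fin w → Fin n) (x : Fin n → Bool) : Fin w → Bool := fun l => x (N l)

lemma card_chk : Fintype.card (Chk n w) = n ^ w * 2 ^ (2 ^ w) := by
  simp [Chk]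

/-- predicates that hold on `S` -/
lemma card_pred (S : Finset (Fin w → Bool)) :
    ((univ.filter fun h : (Fin w → Bool) → Bool => ∀ v ∈ S, h v = true).card) * 2 ^ S.card =
      2 ^ (2 ^ w) := by
  classical
  have h1 : (univ.filter fun h : (Fin w → Bool) → Bool => ∀ v ∈ S, h v = true) =
      Fintype.piFinset (fun v => if v ∈ S then ({true} : Finset Bool) else univ) := by
    ext h
    simp only [mem_filter, mem_univ, true_and, Fintype.mem_piFinset]
    constructor
    · intro hh v
      split_ifs with hv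
      · simp [hh v hv]
      · simp
    · intro hh v hv
      have := hh v
      rw [if_pos hv] at this
      simpa using this
  rw [h1, Fintype.card_piFinset]
  have h2 : ∀ v : Fin w → Bool, (if v ∈ S then ({true} : Finset Bool) else univ).card =
      if v ∈ S then 1 else 2 := by
    intro v; split_ifs <;> simp
  simp_rw [h2]
  rw [Finset.prod_ite]
  simp only [prod_const_one, one_mul, prod_const]
  rw [← pow_add]
  congr 1
  have h3 : (univ.filter fun v : Fin w → Bool => v ∉ S).card + S.card = 2 ^ w := by
    have h4 := Finset.card_filter_add_card_filter_not (s := (univ : Finset (Fin w → Bool)))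
      (fun v => v ∈ S)
    have h5 : (univ.filter fun v : Fin w → Bool => v ∈ S) = S := by ext; simp
    rw [h5] at h4
    simp only [card_univ, Fintype.card_pi, Fintype.card_bool, prod_const, card_univ,
      Fintype.card_fin] at h4
    omega
  exact h3

/-- index vectors that avoid a set -/
lemma card_avoid (E : Finset (Fin n)) :
    (univ.filter fun N : Fin w → Fin n => ∀ l, N l ∉ E).card = (n - E.card) ^ w := by
  classical
  have h1 : (univ.filter fun N : Fin w → Fin n => ∀ l, N l ∉ E) =
      Fintype.piFinset (fun _ : Fin w => Eᶜ) := by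
    ext N
    simp [Fintype.mem_piFinset]
  rw [h1, Fintype.card_piFinset]
  simp [card_compl]

/-- the points of the `t × t` rectangle -/
def pt (A : Finset (Fin n)) (r : Fin t → Fin n → Bool) (p : Fin t × Fin t) : Fin n → Bool :=
  mix A (r p.1) (r p.2)

/-- where two rows differ -/
def dA (A : Finset (Fin n)) (r : Fin t → Fin n → Bool) (i j : Fin t) : Finset (Fin n) :=
  univ.filter fun x => x ∈ A ∧ r i x ≠ r j x

/-- where two columns differ -/
def dB (A : Finset (Fin n)) (r : Fin t → Fin n → Bool) (i j : Fin t) : Finset (Fin n) :=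
  univ.filter fun x => x ∉ A ∧ r i x ≠ r j x

/-- the rows and the columns are far from each other -/
def Sep (D : ℕ) (A : Finset (Fin n)) (r : Fin t → Fin n → Bool) : Prop :=
  ∀ i j, i ≠ j → D ≤ (dA A r i j).card ∧ D ≤ (dB A r i j).card

/-- the check is passed by all points of the rectangle -/
def PassAll (A : Finset (Fin n)) (r : Fin t → Fin n → Bool) (c : Chk n w) : Prop :=
  ∀ p, c.2 (view c.1 (pt A r p)) = true

lemma view_inj (A : Finset (Fin n)) (r : Fin t → Fin n → Bool) (N : Fin w → Fin n)
    (h : ∀ i j, i ≠ j → (∃ l, N l ∈ dA A r i j) ∧ ∃ l, N l ∈ dB A r i j) :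
    Function.Injective fun p => view N (pt A r p) := by
  intro p q hpq
  have hv : ∀ l, pt A r p (N l) = pt A r q (N l) := fun l => congrFun hpq l
  apply Prod.ext
  · by_contra hne
    obtain ⟨l, hl⟩ := (h p.1 q.1 hne).1
    simp only [dA, mem_filter, mem_univ, true_and] at hl
    have := hv l
    simp only [pt, mix, if_pos hl.1] at this
    exact hl.2 this
  · by_contra hne
    obtain ⟨l, hl⟩ := (h p.2 q.2 hne).2
    simp only [dB, mem_filter, mem_univ, true_and] at hl
    have := hv l
    simp only [pt, mix, if_neg hl.1] at this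
    exact hl.2 this

open Classical in
lemma passAll_card (D : ℕ) (hD : D ≤ n) (A : Finset (Fin n)) (r : Fin t → Fin n → Bool)
    (hs : Sep D A r) :
    ((univ.filter fun c : Chk n w => PassAll A r c).card : ℝ) ≤
      (2 * t ^ 2 * (n - D : ℕ) ^ w) * 2 ^ (2 ^ w) + n ^ w * (2 ^ (2 ^ w) / 2 ^ (t ^ 2)) := by
  set bad : Finset (Fin w → Fin n) := univ.filter fun N => ∃ p : Fin t × Fin t, p.1 ≠ p.2 ∧
    ((∀ l, N l ∉ dA A r p.1 p.2) ∨ ∀ l, N l ∉ dB A r p.1 p.2) with hbad
  have hbadc : bad.card ≤ 2 * t ^ 2 * (n - D) ^ w := by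
    have hsub : bad ⊆ ((univ : Finset (Fin t × Fin t)).filter fun p => p.1 ≠ p.2).biUnion
        (fun p => (univ.filter fun N : Fin w → Fin n => ∀ l, N l ∉ dA A r p.1 p.2) ∪
          univ.filter fun N : Fin w → Fin n => ∀ l, N l ∉ dB A r p.1 p.2) := by
      intro N hN
      obtain ⟨p, hp, h⟩ := (mem_filter.1 hN).2
      rw [mem_biUnion]
      refine ⟨p, by simpa using hp, ?_⟩
      rw [mem_union, mem_filter, mem_filter]
      rcases h with h | h
      · exact Or.inl ⟨mem_univ _, h⟩
      · exact Or.inr ⟨mem_univ _, h⟩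
    refine (card_le_card hsub).trans (card_biUnion_le.trans ?_)
    calc ∑ p ∈ (univ : Finset (Fin t × Fin t)).filter (fun p => p.1 ≠ p.2),
          ((univ.filter fun N : Fin w → Fin n => ∀ l, N l ∉ dA A r p.1 p.2) ∪
          univ.filter fun N : Fin w → Fin n => ∀ l, N l ∉ dB A r p.1 p.2).card
        ≤ ∑ p ∈ (univ : Finset (Fin t × Fin t)).filter (fun p => p.1 ≠ p.2),
          2 * (n - D) ^ w := by
          apply Finset.sum_le_sum
          intro p hp
          have hp' := (mem_filter.1 hp).2
          refine (card_union_le _ _).trans ?_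
          rw [card_avoid, card_avoid, two_mul]
          have := hs p.1 p.2 hp'
          exact Nat.add_le_add (Nat.pow_le_pow_left (by omega) _)
            (Nat.pow_le_pow_left (by omega) _)
      _ ≤ ∑ p : Fin t × Fin t, 2 * (n - D) ^ w :=
          Finset.sum_le_sum_of_subset (filter_subset _ _)
      _ = 2 * t ^ 2 * (n - D) ^ w := by
          simp only [sum_const, card_univ, Fintype.card_prod, Fintype.card_fin, smul_eq_mul]
          ring
  -- split over the index vectors
  have h1 : (univ.filter fun c : Chk n w => PassAll A r c).card =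
      ∑ N : Fin w → Fin n, (univ.filter fun h : (Fin w → Bool) → Bool =>
        ∀ p, h (view N (pt A r p)) = true).card := by
    rw [← Finset.card_sigma]
    refine Finset.card_bij (fun c _ => ⟨c.1, c.2⟩) ?_ ?_ ?_
    · intro c hc
      simp only [mem_sigma, mem_univ, true_and, mem_filter]
      exact (mem_filter.1 hc).2
    · intro c _ d _ h
      simp only [Sigma.mk.injEq] at h
      exact Prod.ext h.1 (eq_of_heq h.2)
    · intro c hc
      simp only [mem_sigma, mem_univ, true_and, mem_filter] at hc
      exact ⟨(c.1, c.2), by simpa [PassAll] using hc, rfl⟩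
  have hle1 : ∀ N : Fin w → Fin n, (univ.filter fun h : (Fin w → Bool) → Bool =>
        ∀ p, h (view N (pt A r p)) = true).card ≤ 2 ^ (2 ^ w) := by
    intro N
    refine (card_le_univ _).trans ?_
    simp
  have hle2 : ∀ N : Fin w → Fin n, N ∉ bad → (((univ.filter fun h : (Fin w → Bool) → Bool =>
        ∀ p, h (view N (pt A r p)) = true).card : ℕ) : ℝ) ≤ 2 ^ (2 ^ w) / 2 ^ (t ^ 2) := by
    intro N hN
    have hinj := view_inj A r N (by
      intro i j hij
      by_contra hcon
      apply hN
      rw [hbad, mem_filter]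
      refine ⟨mem_univ _, (i, j), hij, ?_⟩
      by_contra h2
      push Not at h2
      exact hcon h2)
    set S : Finset (Fin w → Bool) := univ.image fun p => view N (pt A r p) with hS
    have hSc : S.card = t ^ 2 := by
      rw [hS, card_image_of_injective _ hinj]
      simp [sq]
    have h3 := card_pred S
    have h4 : (univ.filter fun h : (Fin w → Bool) → Bool =>
        ∀ p, h (view N (pt A r p)) = true) =
        univ.filter fun h : (Fin w → Bool) → Bool => ∀ v ∈ S, h v = true := by
      ext h
      simp only [mem_filter, mem_univ, true_and, hS, mem_image, forall_exists_index,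
        forall_apply_eq_imp_iff]
    rw [h4, le_div_iff₀ (by positivity), ← hSc]
    exact_mod_cast h3.le
  rw [h1]
  push_cast
  calc ∑ N : Fin w → Fin n, (((univ.filter fun h : (Fin w → Bool) → Bool =>
        ∀ p, h (view N (pt A r p)) = true).card : ℕ) : ℝ)
      ≤ ∑ N : Fin w → Fin n, ((if N ∈ bad then (2 : ℝ) ^ (2 ^ w) else 0) +
          2 ^ (2 ^ w) / 2 ^ (t ^ 2)) := by
        apply Finset.sum_le_sum
        intro N _
        by_cases hN : N ∈ bad
        · rw [if_pos hN]
          have := hle1 N
          have h5 : (((univ.filter fun h : (Fin w → Bool) → Bool =>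
            ∀ p, h (view N (pt A r p)) = true).card : ℕ) : ℝ) ≤ 2 ^ (2 ^ w) := by
            exact_mod_cast this
          have h6 : (0 : ℝ) ≤ 2 ^ (2 ^ w) / 2 ^ (t ^ 2) := by positivity
          linarith
        · rw [if_neg hN, zero_add]
          exact hle2 N hN
    _ = bad.card * 2 ^ (2 ^ w) + n ^ w * (2 ^ (2 ^ w) / 2 ^ (t ^ 2)) := by
        rw [Finset.sum_add_distrib]
        congr 1
        · rw [← Finset.sum_filter, Finset.sum_const, nsmul_eq_mul]
          congr 2
          simp
        · simp
    _ ≤ _ := by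
        gcongr
        exact_mod_cast hbadc

end Check


section Union

variable {w t m : ℕ}

/-- the inputs passing all checks -/
def fam (ω : Fin m → Chk n w) : Finset (Fin n → Bool) :=
  univ.filter fun x => ∀ k, (ω k).2 (view (ω k).1 x) = true

lemma mem_fam {ω : Fin m → Chk n w} {x : Fin n → Bool} :
    x ∈ fam ω ↔ ∀ k, (ω k).2 (view (ω k).1 x) = true := by
  simp [fam]

lemma card_pass (x : Fin n → Bool) :
    (univ.filter fun c : Chk n w => c.2 (view c.1 x) = true).card * 2 =
      Fintype.card (Chk n w) := by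
  have h1 : (univ.filter fun c : Chk n w => c.2 (view c.1 x) = true).card =
      ∑ N : Fin w → Fin n, (univ.filter fun h : (Fin w → Bool) → Bool =>
        h (view N x) = true).card := by
    rw [← Finset.card_sigma]
    refine Finset.card_bij (fun c _ => ⟨c.1, c.2⟩) ?_ ?_ ?_
    · intro c hc
      simp only [mem_sigma, mem_univ, true_and, mem_filter]
      exact (mem_filter.1 hc).2
    · intro c _ d _ h
      simp only [Sigma.mk.injEq] at h
      exact Prod.ext h.1 (eq_of_heq h.2)
    · intro c hc
      simp only [mem_sigma, mem_univ, true_and, mem_filter] at hc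
      exact ⟨(c.1, c.2), by simpa using hc, rfl⟩
  rw [h1, Finset.sum_mul, card_chk]
  have h2 : ∀ N : Fin w → Fin n, (univ.filter fun h : (Fin w → Bool) → Bool =>
        h (view N x) = true).card * 2 = 2 ^ (2 ^ w) := by
    intro N
    have := card_pred ({view N x} : Finset (Fin w → Bool))
    simpa using this
  rw [Finset.sum_congr rfl fun N _ => h2 N]
  simp

lemma sum_fam : (∑ ω : Fin m → Chk n w, (fam ω).card) * 2 ^ m =
    2 ^ n * Fintype.card (Chk n w) ^ m := by
  classical
  have h1 : ∑ ω : Fin m → Chk n w, (fam ω).card =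
      ∑ x : Fin n → Bool, (univ.filter fun ω : Fin m → Chk n w => x ∈ fam ω).card := by
    simp_rw [card_eq_sum_ones, Finset.sum_filter]
    rw [Finset.sum_comm' (s := univ) (t := fun ω => fam ω) (t' := univ)
      (s' := fun x => univ.filter fun ω : Fin m → Chk n w => x ∈ fam ω)]
    · simp_rw [Finset.sum_filter]
    · intro ω x; simp
  rw [h1, Finset.sum_mul]
  have h2 : ∀ x : Fin n → Bool,
      (univ.filter fun ω : Fin m → Chk n w => x ∈ fam ω).card * 2 ^ m =
      Fintype.card (Chk n w) ^ m := by
    intro x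
    have h3 : (univ.filter fun ω : Fin m → Chk n w => x ∈ fam ω) =
        Fintype.piFinset fun _ : Fin m =>
          univ.filter fun c : Chk n w => c.2 (view c.1 x) = true := by
      ext ω
      simp [mem_fam, Fintype.mem_piFinset]
    rw [h3, Fintype.card_piFinset, prod_const, card_univ, Fintype.card_fin, ← mul_pow, card_pass]
  rw [Finset.sum_congr rfl fun x _ => h2 x]
  simp

open Classical in
lemma exists_good (D κ : ℕ) (hD : D ≤ n)
    (hβ : 2 * (t : ℝ) ^ 2 * (n - D : ℕ) ^ w * 2 ^ κ + n ^ w * (2 ^ κ / 2 ^ (t ^ 2)) ≤ n ^ w)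
    (hn : 0 < n) (hκ : n + n * t + (m + 1) < κ * m) :
    ∃ ω : Fin m → Chk n w,
      (∀ (A : Finset (Fin n)) (r : Fin t → Fin n → Bool), Sep D A r →
        ∃ k, ¬ PassAll A r (ω k)) ∧ 2 ^ n ≤ (fam ω).card * 2 ^ (m + 1) := by
  by_contra hcon
  push Not at hcon
  set Ch : ℝ := (Fintype.card (Chk n w) : ℝ) with hCh
  have hChpos : 0 < Ch := by
    rw [hCh, card_chk]
    have : 0 < n ^ w := pow_pos hn w
    positivity
  -- one rectangle
  have hone : ∀ (A : Finset (Fin n)) (r : Fin t → Fin n → Bool), Sep D A r →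
      ((univ.filter fun ω : Fin m → Chk n w => ∀ k, PassAll A r (ω k)).card : ℝ) ≤
        (Ch / 2 ^ κ) ^ m := by
    intro A r hs
    have h3 : (univ.filter fun ω : Fin m → Chk n w => ∀ k, PassAll A r (ω k)) =
        Fintype.piFinset fun _ : Fin m => univ.filter fun c : Chk n w => PassAll A r c := by
      ext ω
      simp [Fintype.mem_piFinset]
    rw [h3, Fintype.card_piFinset, prod_const, card_univ, Fintype.card_fin]
    push_cast
    refine pow_le_pow_left₀ (by positivity) ((passAll_card D hD A r hs).trans ?_) _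
    rw [le_div_iff₀ (by positivity), hCh, card_chk]
    push_cast
    have h4 : (0 : ℝ) ≤ 2 ^ (2 ^ w) := by positivity
    have h5 := mul_le_mul_of_nonneg_right hβ h4
    have h6 : (2 * (t : ℝ) ^ 2 * ((n - D : ℕ) : ℝ) ^ w * 2 ^ 2 ^ w +
        (n : ℝ) ^ w * (2 ^ 2 ^ w / 2 ^ t ^ 2)) * 2 ^ κ
        = (2 * (t : ℝ) ^ 2 * ((n - D : ℕ) : ℝ) ^ w * 2 ^ κ + (n : ℝ) ^ w * (2 ^ κ / 2 ^ (t ^ 2))) *
            2 ^ (2 ^ w) := by ring
    rw [h6]
    exact h5
  -- the bad families
  set Bad : Finset (Fin m → Chk n w) := univ.filter fun ω =>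
    ∃ (A : Finset (Fin n)) (r : Fin t → Fin n → Bool), Sep D A r ∧ ∀ k, PassAll A r (ω k)
    with hBad
  have hBadc : (Bad.card : ℝ) ≤ 2 ^ (n + n * t) * (Ch / 2 ^ κ) ^ m := by
    have hsub : Bad ⊆ ((univ : Finset (Finset (Fin n) × (Fin t → Fin n → Bool))).filter
        fun p => Sep D p.1 p.2).biUnion
        (fun p => univ.filter fun ω : Fin m → Chk n w => ∀ k, PassAll p.1 p.2 (ω k)) := by
      intro ω hω
      obtain ⟨A, r, hs, h⟩ := (mem_filter.1 hω).2
      rw [mem_biUnion]
      exact ⟨(A, r), by simpa using hs, by simpa using h⟩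
    have h1 : (Bad.card : ℝ) ≤ ∑ p ∈ (univ : Finset (Finset (Fin n) × (Fin t → Fin n → Bool))).filter
        (fun p => Sep D p.1 p.2), ((univ.filter fun ω : Fin m → Chk n w =>
          ∀ k, PassAll p.1 p.2 (ω k)).card : ℝ) := by
      exact_mod_cast (card_le_card hsub).trans card_biUnion_le
    refine h1.trans ?_
    calc ∑ p ∈ (univ : Finset (Finset (Fin n) × (Fin t → Fin n → Bool))).filter
            (fun p => Sep D p.1 p.2), ((univ.filter fun ω : Fin m → Chk n w =>
              ∀ k, PassAll p.1 p.2 (ω k)).card : ℝ)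
        ≤ ∑ p ∈ (univ : Finset (Finset (Fin n) × (Fin t → Fin n → Bool))).filter
          (fun p => Sep D p.1 p.2), (Ch / 2 ^ κ) ^ m := by
          apply Finset.sum_le_sum
          intro p hp
          exact hone p.1 p.2 (mem_filter.1 hp).2
      _ ≤ ∑ _p ∈ (univ : Finset (Finset (Fin n) × (Fin t → Fin n → Bool))), (Ch / 2 ^ κ) ^ m :=
          Finset.sum_le_sum_of_subset_of_nonneg (filter_subset _ _) fun _ _ _ => by positivity
      _ = 2 ^ (n + n * t) * (Ch / 2 ^ κ) ^ m := by
          simp only [sum_const, card_univ, Fintype.card_prod, Fintype.card_finset,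
            Fintype.card_fin, nsmul_eq_mul, Fintype.card_pi, Fintype.card_bool, prod_const]
          push_cast
          ring
  -- average size
  have hsum : (∑ ω : Fin m → Chk n w, ((fam ω).card : ℝ)) * 2 ^ m = 2 ^ n * Ch ^ m := by
    have := sum_fam (n := n) (w := w) (m := m)
    rw [hCh]
    exact_mod_cast this
  have hle : ∀ ω : Fin m → Chk n w, ((fam ω).card : ℝ) ≤
      (if ω ∈ Bad then (2 : ℝ) ^ n else 0) + 2 ^ n / 2 ^ (m + 1) := by
    intro ω
    by_cases hω : ω ∈ Bad
    · rw [if_pos hω]
      have h1 : (fam ω).card ≤ 2 ^ n := by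
        refine (card_le_univ _).trans ?_
        simp
      have h2 : ((fam ω).card : ℝ) ≤ 2 ^ n := by exact_mod_cast h1
      have h3 : (0 : ℝ) ≤ 2 ^ n / 2 ^ (m + 1) := by positivity
      linarith
    · rw [if_neg hω, zero_add, le_div_iff₀ (by positivity)]
      have h1 : ∀ (A : Finset (Fin n)) (r : Fin t → Fin n → Bool), Sep D A r →
          ∃ k, ¬ PassAll A r (ω k) := by
        intro A r hs
        by_contra h2
        push Not at h2
        exact hω (by rw [hBad, mem_filter]; exact ⟨mem_univ _, A, r, hs, h2⟩)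
      have h2 := hcon ω h1
      exact_mod_cast h2.le
  have h5 : (∑ ω : Fin m → Chk n w, ((fam ω).card : ℝ)) ≤
      Bad.card * 2 ^ n + Ch ^ m * (2 ^ n / 2 ^ (m + 1)) := by
    refine (Finset.sum_le_sum fun ω _ => hle ω).trans ?_
    rw [Finset.sum_add_distrib]
    apply add_le_add
    · rw [Finset.sum_ite_mem, univ_inter, Finset.sum_const, nsmul_eq_mul]
    · rw [Finset.sum_const, nsmul_eq_mul, card_univ, Fintype.card_fun, Fintype.card_fin]
      push_cast
      rw [hCh]
  have h6 : Ch ^ m * 2 ^ n ≤ (Bad.card * 2 ^ n + Ch ^ m * (2 ^ n / 2 ^ (m + 1))) * 2 ^ m := by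
    have := mul_le_mul_of_nonneg_right h5 (by positivity : (0 : ℝ) ≤ 2 ^ m)
    rw [hsum] at this
    linarith
  have h7 : Ch ^ m ≤ Bad.card * 2 ^ (m + 1) := by
    have h2n : (0 : ℝ) < 2 ^ n := by positivity
    have h8 : (Bad.card * 2 ^ n + Ch ^ m * (2 ^ n / 2 ^ (m + 1))) * 2 ^ m =
        2 ^ n * (Bad.card * 2 ^ m + Ch ^ m / 2) := by
      rw [pow_succ]
      field_simp
    rw [h8] at h6
    have h9 : Ch ^ m ≤ Bad.card * 2 ^ m + Ch ^ m / 2 := by
      have : 2 ^ n * Ch ^ m ≤ 2 ^ n * (Bad.card * 2 ^ m + Ch ^ m / 2) := by linarith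
      exact le_of_mul_le_mul_left this h2n
    rw [pow_succ]
    linarith
  have h10 : Ch ^ m ≤ 2 ^ (n + n * t) * (Ch / 2 ^ κ) ^ m * 2 ^ (m + 1) :=
    h7.trans (mul_le_mul_of_nonneg_right hBadc (by positivity))
  rw [div_pow, ← pow_mul] at h10
  have hCm : 0 < Ch ^ m := by positivity
  have h11 : (2 : ℝ) ^ (κ * m) ≤ 2 ^ (n + n * t + (m + 1)) := by
    have h12 : 2 ^ (n + n * t) * (Ch ^ m / 2 ^ (κ * m)) * 2 ^ (m + 1) =
        Ch ^ m * (2 ^ (n + n * t + (m + 1)) / 2 ^ (κ * m)) := by
      rw [pow_add _ (n + n * t)]; ring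
    rw [h12] at h10
    have h13 : (1 : ℝ) ≤ 2 ^ (n + n * t + (m + 1)) / 2 ^ (κ * m) := by
      have : Ch ^ m * 1 ≤ Ch ^ m * (2 ^ (n + n * t + (m + 1)) / 2 ^ (κ * m)) := by
        rw [mul_one]; exact h10
      exact le_of_mul_le_mul_left this hCm
    rwa [one_le_div (by positivity)] at h13
  have h14 := (pow_le_pow_iff_right₀ (by norm_num : (1 : ℝ) < 2)).1 h11
  omega

end Union

section Rect

variable {w t m : ℕ}

/-- no rectangle with far rows and columns, so no large rectangle -/
lemma rectFree_of_good (D V L : ℕ) (ω : Fin m → Chk n w)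
    (hV : ∀ z : Fin n → Bool, (univ.filter fun y : Fin n → Bool => hammingDist y z ≤ D).card ≤ V)
    (hL : t * V < L)
    (hω : ∀ (A : Finset (Fin n)) (r : Fin t → Fin n → Bool), Sep (D + 1) A r →
      ∃ k, ¬ PassAll A r (ω k)) :
    RectFree (fam ω : Set (Fin n → Bool)) L := by
  intro A u v hu hv
  by_contra hcon
  push Not at hcon
  let z0 : Fin n → Bool := fun _ => false
  let P : Finset (Fin n → Bool) := univ.image fun i : Fin L => mix A (u i) z0
  let Q : Finset (Fin n → Bool) := univ.image fun j : Fin L => mix A z0 (v j)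
  have hPc : P.card = L := by
    rw [card_image_of_injective, card_univ, Fintype.card_fin]
    intro i j hij
    by_contra hne
    obtain ⟨x, hx, hxx⟩ := hu i j hne
    have := congrFun hij x
    simp only [mix, if_pos hx] at this
    exact hxx this
  have hQc : Q.card = L := by
    rw [card_image_of_injective, card_univ, Fintype.card_fin]
    intro i j hij
    by_contra hne
    obtain ⟨x, hx, hxx⟩ := hv i j hne
    have := congrFun hij x
    simp only [mix, if_neg hx] at this
    exact hxx this
  obtain ⟨r1, hr1, hd1⟩ := pick P D V hV t (by omega)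
  obtain ⟨r2, hr2, hd2⟩ := pick Q D V hV t (by omega)
  have h1 : ∀ i x, x ∉ A → r1 i x = false := by
    intro i x hx
    obtain ⟨a, _, ha⟩ := mem_image.1 (hr1 i)
    rw [← ha]; simp [mix, hx, z0]
  have h2 : ∀ i x, x ∈ A → r2 i x = false := by
    intro i x hx
    obtain ⟨a, _, ha⟩ := mem_image.1 (hr2 i)
    rw [← ha]; simp [mix, hx, z0]
  let r : Fin t → Fin n → Bool := fun i => mix A (r1 i) (r2 i)
  have hsep : Sep (D + 1) A r := by
    intro i j hij
    constructor
    · refine (hd1 i j hij).trans_le (card_le_card ?_)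
      intro x hx
      have hx' := (mem_filter.1 hx).2
      have hxA : x ∈ A := by
        by_contra hxA
        exact hx' (by rw [h1 i x hxA, h1 j x hxA])
      simp only [dA, mem_filter, mem_univ, true_and]
      exact ⟨hxA, by simpa [r, mix, hxA] using hx'⟩
    · refine (hd2 i j hij).trans_le (card_le_card ?_)
      intro x hx
      have hx' := (mem_filter.1 hx).2
      have hxA : x ∉ A := by
        intro hxA
        exact hx' (by rw [h2 i x hxA, h2 j x hxA])
      simp only [dB, mem_filter, mem_univ, true_and]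
      exact ⟨hxA, by simpa [r, mix, hxA] using hx'⟩
  obtain ⟨k, hk⟩ := hω A r hsep
  apply hk
  intro p
  obtain ⟨a, _, ha⟩ := mem_image.1 (hr1 p.1)
  obtain ⟨b, _, hb⟩ := mem_image.1 (hr2 p.2)
  have hpt : pt A r p = mix A (u a) (v b) := by
    funext x
    by_cases hx : x ∈ A
    · have := congrFun ha x
      simp only [mix, if_pos hx] at this
      simp [pt, mix, hx, r, ← this]
    · have := congrFun hb x
      simp only [mix, if_neg hx] at this
      simp [pt, mix, hx, r, ← this]
  have h3 := hcon a b
  rw [← hpt] at h3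
  exact (mem_fam.1 (by simpa using h3)) k

end Rect

end Pool.Agent.KN.Local
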