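import Pool.Agent.KN.Local

/-! Dense rectangle-free CNFs of constant width and linear size: choice of parameters. -/

namespace Pool.Agent.KN.Local

open Finset Pool.Agent.SemRO

theorem exists_local (ε : ℝ) (hε : 0 < ε) (hε1 : ε ≤ 1) :
    ∃ w n0 : ℕ, ∀ n ≥ n0, ∃ m : ℕ, m ≤ n ∧ ∃ ω : Fin m → Chk n w,
      (2 : ℝ) ^ n * Real.exp (-(ε * n)) ≤ (fam ω).card ∧
      RectFree (fam ω : Set (Fin n → Bool)) ⌊Real.exp (ε * n)⌋₊ := by
  set x : ℝ := ε / 4 with hxdef
  have hx : 0 < x := by positivity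
  have hx4 : x ≤ 1 / 4 := by rw [hxdef]; linarith
  set lg : ℝ := -Real.log x with hlgdef
  have hlg : 1 < lg := by
    have h1 : Real.log x ≤ Real.log (1 / 4) := Real.log_le_log hx hx4
    have h2 : Real.log (1 / 4 : ℝ) = -(2 * Real.log 2) := by
      rw [one_div, Real.log_inv, show (4 : ℝ) = 2 ^ 2 by norm_num, Real.log_pow]
      push_cast; ring
    have h3 := Real.log_two_gt_d9
    rw [hlgdef]; linarith
  set δ : ℝ := x / lg with hδdef
  have hδ : 0 < δ := by positivity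
  have hδx : δ ≤ x := div_le_self hx.le hlg.le
  have hδlg : δ * lg = x := by rw [hδdef]; field_simp
  set t : ℕ := ⌈8 / ε⌉₊ + 4 with htdef
  have ht8 : 8 / ε + 4 ≤ (t : ℝ) := by
    rw [htdef]; push_cast
    have := Nat.le_ceil (8 / ε)
    linarith
  have ht4 : (4 : ℝ) ≤ t := by
    have : 0 < 8 / ε := by positivity
    linarith
  set κ : ℕ := ⌈4 * ((t : ℝ) + 3) / ε⌉₊ + 1 with hκdef
  have hκ1 : 4 * ((t : ℝ) + 3) / ε + 1 ≤ (κ : ℝ) := by
    rw [hκdef]; push_cast
    have := Nat.le_ceil (4 * ((t : ℝ) + 3) / ε)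
    linarith
  have hκ2 : (κ : ℝ) ≤ 4 * ((t : ℝ) + 3) / ε + 2 := by
    rw [hκdef]; push_cast
    have := (Nat.ceil_lt_add_one (by positivity : (0 : ℝ) ≤ 4 * ((t : ℝ) + 3) / ε)).le
    linarith
  have hκt : κ + 1 ≤ t ^ 2 := by
    have h1 : (κ : ℝ) + 1 ≤ (t : ℝ) ^ 2 := by
      have h2 : (t : ℝ) * (8 / ε + 4) ≤ t * t := mul_le_mul_of_nonneg_left ht8 (by positivity)
      have h3 : 4 * ((t : ℝ) + 3) / ε ≤ t * (8 / ε) := by
        rw [mul_div_assoc', div_le_div_iff_of_pos_right hε]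
        linarith
      nlinarith
    exact_mod_cast h1
  obtain ⟨w, hw⟩ := exists_pow_lt_of_lt_one (x := (1 : ℝ) / (4 * t ^ 2 * 2 ^ κ)) (by positivity)
    (show (1 - δ) < 1 by linarith)
  refine ⟨w, ⌈4 / ε⌉₊ + ⌈2 * Real.log (t + 1) / ε⌉₊, fun n hn => ?_⟩
  have hn4 : 4 / ε ≤ (n : ℝ) := by
    have h1 : ⌈4 / ε⌉₊ ≤ n := by omega
    exact (Nat.le_ceil _).trans (by exact_mod_cast h1)
  have hnl : 2 * Real.log (t + 1) / ε ≤ (n : ℝ) := by
    have h1 : ⌈2 * Real.log (t + 1) / ε⌉₊ ≤ n := by omega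
    exact (Nat.le_ceil _).trans (by exact_mod_cast h1)
  have hεn : 4 ≤ ε * n := by
    have := (div_le_iff₀ hε).1 hn4
    linarith
  have hn1 : (4 : ℝ) ≤ n := by
    have : ε * n ≤ 1 * n := mul_le_mul_of_nonneg_right hε1 (by positivity)
    linarith
  set m : ℕ := ⌊ε * n / 2⌋₊ with hmdef
  have hm1 : (m : ℝ) ≤ ε * n / 2 := Nat.floor_le (by positivity)
  have hm2 : ε * n / 4 ≤ (m : ℝ) := by
    have := (Nat.lt_floor_add_one (ε * n / 2))
    rw [← hmdef] at this
    linarith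
  have hmn : (m : ℝ) ≤ n := by
    have : ε * n ≤ 1 * n := mul_le_mul_of_nonneg_right hε1 (by positivity)
    linarith
  set D : ℕ := ⌊δ * n⌋₊ with hDdef
  have hD1 : (D : ℝ) ≤ δ * n := Nat.floor_le (by positivity)
  have hD2 : δ * n < (D : ℝ) + 1 := Nat.lt_floor_add_one _
  have hDn : D + 1 ≤ n := by
    have h1 : (D : ℝ) + 1 ≤ n := by
      have : δ * n ≤ 1 / 4 * n := mul_le_mul_of_nonneg_right (hδx.trans hx4) (by positivity)
      linarith
    exact_mod_cast h1
  have hβ : 2 * (t : ℝ) ^ 2 * (n - (D + 1) : ℕ) ^ w * 2 ^ κ + n ^ w * (2 ^ κ / 2 ^ (t ^ 2)) ≤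
      n ^ w := by
    have h1 : ((n - (D + 1) : ℕ) : ℝ) ≤ n * (1 - δ) := by
      rw [Nat.cast_sub hDn]; push_cast; linarith
    have h2 : ((n - (D + 1) : ℕ) : ℝ) ^ w ≤ n ^ w * (1 / (4 * t ^ 2 * 2 ^ κ)) := by
      calc ((n - (D + 1) : ℕ) : ℝ) ^ w ≤ (n * (1 - δ)) ^ w :=
            pow_le_pow_left₀ (by positivity) h1 _
        _ = n ^ w * (1 - δ) ^ w := mul_pow _ _ _
        _ ≤ n ^ w * (1 / (4 * t ^ 2 * 2 ^ κ)) := mul_le_mul_of_nonneg_left hw.le (by positivity)
    have h3 : 2 * (t : ℝ) ^ 2 * (n - (D + 1) : ℕ) ^ w * 2 ^ κ ≤ n ^ w * (1 / 2) := by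
      have e1 : 2 * (t : ℝ) ^ 2 * ((n : ℝ) ^ w * (1 / (4 * t ^ 2 * 2 ^ κ))) * 2 ^ κ =
          (n : ℝ) ^ w * (1 / 2) := by
        have : (t : ℝ) ≠ 0 := by positivity
        field_simp
        norm_num
      rw [← e1]
      exact mul_le_mul_of_nonneg_right (mul_le_mul_of_nonneg_left h2 (by positivity))
        (by positivity)
    have h4 : (2 : ℝ) ^ κ / 2 ^ (t ^ 2) ≤ 1 / 2 := by
      rw [div_le_div_iff₀ (by positivity) (by norm_num), one_mul, ← pow_succ]
      exact pow_le_pow_right₀ (by norm_num) hκt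
    have h5 : (n : ℝ) ^ w * (2 ^ κ / 2 ^ (t ^ 2)) ≤ n ^ w * (1 / 2) :=
      mul_le_mul_of_nonneg_left h4 (by positivity)
    linarith
  have hκm : n + n * t + (m + 1) < κ * m := by
    have h1 : (n : ℝ) + n * t + (m + 1) < κ * m := by
      have h2 : (4 * ((t : ℝ) + 3) / ε + 1) * (ε * n / 4) ≤ κ * m :=
        mul_le_mul hκ1 hm2 (by positivity) (by positivity)
      have h3 : (4 * ((t : ℝ) + 3) / ε + 1) * (ε * n / 4) = (t + 3) * n + ε * n / 4 := by
        field_simp
      rw [h3] at h2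
      nlinarith
    exact_mod_cast h1
  obtain ⟨ω, hω1, hω2⟩ := exists_good (n := n) (w := w) (t := t) (m := m) (D + 1) κ hDn hβ
    (by omega) hκm
  refine ⟨m, by exact_mod_cast hmn, ω, ?_, ?_⟩
  · -- density
    have h1 : (2 : ℝ) ^ n ≤ (fam ω).card * 2 ^ (m + 1) := by exact_mod_cast hω2
    have h2 : (2 : ℝ) ^ (m + 1) ≤ Real.exp (ε * n) := by
      have h3 : (2 : ℝ) ^ (m + 1) = Real.exp ((m + 1 : ℕ) * Real.log 2) := by
        rw [Real.exp_nat_mul, Real.exp_log (by norm_num)]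
      rw [h3]
      apply Real.exp_le_exp.2
      have h4 := Real.log_two_lt_d9
      have h5 : ((m + 1 : ℕ) : ℝ) * Real.log 2 ≤ ((m + 1 : ℕ) : ℝ) * 1 :=
        mul_le_mul_of_nonneg_left (by linarith) (by positivity)
      push_cast at h5 ⊢
      linarith
    have h3 : (2 : ℝ) ^ n ≤ (fam ω).card * Real.exp (ε * n) :=
      h1.trans (mul_le_mul_of_nonneg_left h2 (by positivity))
    rw [Real.exp_neg, ← div_eq_mul_inv, div_le_iff₀ (Real.exp_pos _)]
    exact h3
  · refine rectFree_of_good D ⌊Real.exp (ε * n / 2)⌋₊ _ ω ?_ ?_ hω1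
    · intro z
      apply Nat.le_floor
      have h1 := ball_card x hx (by linarith) z D
      have h2 : x ^ D = Real.exp (-(D * lg)) := by
        rw [hlgdef, show -((D : ℝ) * -Real.log x) = D * Real.log x by ring, Real.exp_nat_mul,
          Real.exp_log hx]
      have h3 : (1 + x) ^ n ≤ Real.exp (x * n) := by
        rw [mul_comm, Real.exp_nat_mul]
        exact pow_le_pow_left₀ (by positivity) (by linarith [Real.add_one_le_exp x]) _
      rw [h2] at h1
      have h4 := h1.trans h3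
      have h5 : Real.exp (D * lg) ≤ Real.exp (x * n) := by
        apply Real.exp_le_exp.2
        calc (D : ℝ) * lg ≤ δ * n * lg := mul_le_mul_of_nonneg_right hD1 (by linarith)
          _ = δ * lg * n := by ring
          _ = x * n := by rw [hδlg]
      rw [Real.exp_neg, ← div_eq_mul_inv, div_le_iff₀ (Real.exp_pos _)] at h4
      refine h4.trans ?_
      calc Real.exp (x * n) * Real.exp (D * lg) ≤ Real.exp (x * n) * Real.exp (x * n) :=
            mul_le_mul_of_nonneg_left h5 (Real.exp_pos _).le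
        _ = Real.exp (ε * n / 2) := by
            rw [← Real.exp_add]; congr 1; rw [hxdef]; ring
    · rw [← Nat.succ_le_iff]
      apply Nat.le_floor
      push_cast
      have hE : (t : ℝ) + 1 ≤ Real.exp (ε * n / 2) := by
        rw [← Real.log_le_iff_le_exp (by positivity)]
        have := (div_le_iff₀ hε).1 hnl
        linarith
      have h1 : ((⌊Real.exp (ε * n / 2)⌋₊ : ℕ) : ℝ) ≤ Real.exp (ε * n / 2) :=
        Nat.floor_le (Real.exp_pos _).le
      have h2 : Real.exp (ε * n) = Real.exp (ε * n / 2) * Real.exp (ε * n / 2) := by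
        rw [← Real.exp_add]; congr 1; ring
      rw [h2]
      have h3 : (t : ℝ) * ((⌊Real.exp (ε * n / 2)⌋₊ : ℕ) : ℝ) ≤ t * Real.exp (ε * n / 2) :=
        mul_le_mul_of_nonneg_left h1 (by positivity)
      nlinarith

/-- the CNF of a system of checks: one clause for every forbidden pattern -/
noncomputable def cnf {n w m : ℕ} (ω : Fin m → Chk n w) : List (List (Fin n × Bool)) :=
  (List.finRange m).flatMap fun k =>
    ((univ.filter fun y : Fin w → Bool => (ω k).2 y = false).toList.map fun y =>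
      (List.finRange w).map fun l => ((ω k).1 l, !y l))

lemma cnf_length {n w m : ℕ} (ω : Fin m → Chk n w) : (cnf ω).length ≤ 2 ^ w * m := by
  unfold cnf
  rw [List.length_flatMap]
  have h1 : ∀ k ∈ List.finRange m, (((univ.filter fun y : Fin w → Bool =>
      (ω k).2 y = false).toList.map fun y =>
        (List.finRange w).map fun l => ((ω k).1 l, !y l))).length ≤ 2 ^ w := by
    intro k _
    rw [List.length_map, Finset.length_toList]
    refine (card_le_univ _).trans ?_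
    simp
  calc _ ≤ (List.map (fun _ => 2 ^ w) (List.finRange m)).sum := List.sum_le_sum h1
    _ = 2 ^ w * m := by simp [mul_comm]

lemma cnf_width {n w m : ℕ} (ω : Fin m → Chk n w) : ∀ c ∈ cnf ω, c.length ≤ w := by
  intro c hc
  unfold cnf at hc
  rw [List.mem_flatMap] at hc
  obtain ⟨k, _, hc⟩ := hc
  rw [List.mem_map] at hc
  obtain ⟨y, _, rfl⟩ := hc
  simp

lemma cnf_iff {n w m : ℕ} (ω : Fin m → Chk n w) (x : Fin n → Bool) :
    (∀ c ∈ cnf ω, ∃ l ∈ c, x l.1 = l.2) ↔ x ∈ fam ω := by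
  rw [mem_fam]
  constructor
  · intro h k
    by_contra hk
    rw [Bool.not_eq_true] at hk
    obtain ⟨l, hl, hx⟩ := h ((List.finRange w).map fun l => ((ω k).1 l, !(view (ω k).1 x) l)) (by
      unfold cnf
      rw [List.mem_flatMap]
      refine ⟨k, List.mem_finRange k, ?_⟩
      rw [List.mem_map]
      exact ⟨view (ω k).1 x, by simpa using hk, rfl⟩)
    rw [List.mem_map] at hl
    obtain ⟨j, _, rfl⟩ := hl
    simp [view] at hx
  · intro h c hc
    unfold cnf at hc
    rw [List.mem_flatMap] at hc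
    obtain ⟨k, _, hc⟩ := hc
    rw [List.mem_map] at hc
    obtain ⟨y, hy, rfl⟩ := hc
    have hy' : (ω k).2 y = false := by simpa using hy
    have hne : view (ω k).1 x ≠ y := by
      intro h2
      have := h k
      rw [h2, hy'] at this
      exact absurd this (by simp)
    obtain ⟨j, hj⟩ := Function.ne_iff.1 hne
    refine ⟨((ω k).1 j, !y j), ?_, ?_⟩
    · rw [List.mem_map]; exact ⟨j, List.mem_finRange j, rfl⟩
    · simp only [view] at hj
      exact Bool.eq_not.2 hj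

/-- Dense CNFs of constant width and linear size without large rectangles. -/
theorem exists_cnf (ε : ℝ) (hε : 0 < ε) : ∃ w C n0 : ℕ, ∀ n ≥ n0,
    ∃ Φ : List (List (Fin n × Bool)), Φ.length ≤ C * n ∧ (∀ c ∈ Φ, c.length ≤ w) ∧
      ∃ F : Finset (Fin n → Bool), (∀ x, x ∈ F ↔ ∀ c ∈ Φ, ∃ l ∈ c, x l.1 = l.2) ∧
      (2 : ℝ) ^ n * Real.exp (-(ε * n)) ≤ F.card ∧
      ∀ L : ℕ, ⌊Real.exp (ε * n)⌋₊ ≤ L → RectFree (F : Set (Fin n → Bool)) L := by
  obtain ⟨w, n0, h⟩ := exists_local (min ε 1) (lt_min hε one_pos) (min_le_right _ _)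
  refine ⟨w, 2 ^ w, n0, fun n hn => ?_⟩
  obtain ⟨m, hm, ω, h1, h2⟩ := h n hn
  refine ⟨cnf ω, (cnf_length ω).trans (Nat.mul_le_mul_left _ hm), cnf_width ω, fam ω,
    fun x => (cnf_iff ω x).symm, ?_, ?_⟩
  · refine le_trans ?_ h1
    apply mul_le_mul_of_nonneg_left _ (by positivity)
    apply Real.exp_le_exp.2
    have := mul_le_mul_of_nonneg_right (min_le_left ε 1) (Nat.cast_nonneg (α := ℝ) n)
    linarith
  · intro L hL A u v hu hv
    have hle : ⌊Real.exp (min ε 1 * n)⌋₊ ≤ L := by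
      refine le_trans (Nat.floor_le_floor ?_) hL
      apply Real.exp_le_exp.2
      exact mul_le_mul_of_nonneg_right (min_le_left ε 1) (Nat.cast_nonneg (α := ℝ) n)
    obtain ⟨i, j, hij⟩ := h2 A (fun i => u (Fin.castLE hle i)) (fun i => v (Fin.castLE hle i))
      (fun i j hne => hu _ _ (fun h => hne (Fin.castLE_injective hle h)))
      (fun i j hne => hv _ _ (fun h => hne (Fin.castLE_injective hle h)))
    exact ⟨_, _, hij⟩

end Pool.Agent.KN.Local
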