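import Pool.Agent.KN.Gs

/-! The stage inequality: what the unrevealed players know. -/

namespace Pool.Agent.KN

open Finset Pool.Agent.SemRO

variable {n R : ℕ} {c : Fin R → (Fin n → Bool) → Fin n → Option Bool} {W : Finset (Fin n → Bool)}

/-- the players reading `i` at `z` -/
def rd (c : Fin R → (Fin n → Bool) → Fin n → Option Bool) (z : Fin n → Bool) (i : Fin n) :
    Finset (Fin R) := Finset.univ.filter (fun j => c j z i ≠ none)

lemma mem_rd {z : Fin n → Bool} {i : Fin n} {j : Fin R} : j ∈ rd c z i ↔ i ∈ dom (c j z) := by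
  simp [rd, dom]

open Classical in
/-- reads of heavy coordinates none of whose readers is in `S` -/
noncomputable def Hv (W : Finset (Fin n → Bool)) (c : Fin R → (Fin n → Bool) → Fin n → Option Bool)
    (M : Finset (Fin n)) (S : Finset (Fin R)) (L : ℕ) : ℝ :=
  ∑ z ∈ W, ∑ i ∈ M, if L < (rd c z i).card ∧ Disjoint (rd c z i) S then ((rd c z i).card : ℝ) else 0

lemma card_rd_le (z : Fin n → Bool) (i : Fin n) : (rd c z i).card ≤ R := by
  simpa using Finset.card_le_univ (rd c z i)

theorem stage {δ : ℝ} (hδ0 : 0 < δ) (hδ1 : δ ≤ 1 / 2)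
    (hsub : ∀ z ∈ W, ∀ j, Sub (c j z) z)
    (huniq : ∀ z ∈ W, ∀ z' ∈ W, ∀ j, Sub (c j z') z → Sub (c j z) z' → c j z = c j z')
    (M : Finset (Fin n)) (S : Finset (Fin R)) (L : ℕ) {l : ℝ} (hl0 : 0 < l) (hl1 : l ≤ 1 / 2) :
    ∑ j ∈ Sᶜ, (Gs W c M S - Gs W c M (insert j S)) ≤
      2 * L * (Gs W c M S + TC W c M S) + (-Real.log l + 1) * Hv W c M S L +
      R * (W.card * M.card * Real.binEntropy l) + 4 * δ * ∑ z ∈ W, ∑ i ∈ M, ((rd c z i).card : ℝ) +
      R / δ * TC W c M S := by
  classical
  have hTC := TC_nonneg (W := W) (c := c) M S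
  have h1 : ∑ j ∈ Sᶜ, (Gs W c M S - Gs W c M (insert j S)) ≤
      ∑ j ∈ Sᶜ, (∑ z ∈ W, ∑ i ∈ dom (c j z), cst δ (qs W c M S i z) + (1 / δ) * TC W c M S) :=
    Finset.sum_le_sum fun j _ => T_player hδ0 hδ1 hsub huniq M S j
  rw [Finset.sum_add_distrib, Finset.sum_const, nsmul_eq_mul] at h1
  have h2 : (Sᶜ.card : ℝ) * (1 / δ * TC W c M S) ≤ R / δ * TC W c M S := by
    have : (Sᶜ.card : ℝ) ≤ R := by
      have := Finset.card_le_univ Sᶜ
      rw [Fintype.card_fin] at this
      exact_mod_cast this
    calc (Sᶜ.card : ℝ) * (1 / δ * TC W c M S) ≤ R * (1 / δ * TC W c M S) := by gcongr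
      _ = R / δ * TC W c M S := by ring
  rw [Finset.sum_comm] at h1
  -- pointwise bound
  have hG0 : 0 ≤ -Real.log l + 1 := by
    have := Real.log_nonpos hl0.le (by linarith)
    linarith
  have h3 : ∀ z ∈ W, ∑ j ∈ Sᶜ, ∑ i ∈ dom (c j z), cst δ (qs W c M S i z) ≤
      ∑ i ∈ M, (L * hh (qs W c M S i z) + (-Real.log l + 1) *
        (if L < (rd c z i).card ∧ Disjoint (rd c z i) S then ((rd c z i).card : ℝ) else 0) +
        R * (if qs W c M S i z < l then hh (qs W c M S i z) else 0) + 4 * δ * ((rd c z i).card : ℝ)) := by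
    intro z hz
    have e1 : ∑ j ∈ Sᶜ, ∑ i ∈ dom (c j z), cst δ (qs W c M S i z) =
        ∑ i : Fin n, (((rd c z i).filter (fun j => j ∉ S)).card : ℝ) * cst δ (qs W c M S i z) := by
      have : ∀ j ∈ Sᶜ, ∑ i ∈ dom (c j z), cst δ (qs W c M S i z) =
          ∑ i : Fin n, if j ∈ rd c z i then cst δ (qs W c M S i z) else 0 := by
        intro j _
        rw [← Finset.sum_filter]
        apply Finset.sum_congr _ (fun _ _ => rfl)
        ext i
        simp [mem_rd]
      rw [Finset.sum_congr rfl this, Finset.sum_comm]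
      refine Finset.sum_congr rfl fun i _ => ?_
      rw [← Finset.sum_filter, Finset.sum_const, nsmul_eq_mul]
      congr 2
      apply congrArg
      ext j
      simp only [Finset.mem_filter, Finset.mem_compl]
      tauto
    rw [e1]
    have e2 : ∑ i ∈ M, (((rd c z i).filter (fun j => j ∉ S)).card : ℝ) * cst δ (qs W c M S i z) =
        ∑ i : Fin n, (((rd c z i).filter (fun j => j ∉ S)).card : ℝ) * cst δ (qs W c M S i z) := by
      apply Finset.sum_subset (Finset.subset_univ M)
      intro i _ hi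
      rw [qs_off hz hi]
      simp [cst]
    rw [← e2]
    refine Finset.sum_le_sum fun i hi => ?_
    have hq0 := qs_pos (c := c) (M := M) (S := S) hz i
    have hq1 := qs_le_one (c := c) (M := M) (S := S) hz i
    have hh0 := hh_nonneg hq0 hq1
    have hr0 : (0 : ℝ) ≤ (rd c z i).card := Nat.cast_nonneg _
    have hRr : ((rd c z i).card : ℝ) ≤ R := by exact_mod_cast card_rd_le z i
    have hrare0 : (0 : ℝ) ≤ (if qs W c M S i z < l then hh (qs W c M S i z) else 0) := by
      split_ifs
      · exact hh0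
      · exact le_rfl
    have hR0 : (0 : ℝ) ≤ R := Nat.cast_nonneg _
    have hL0 : (0 : ℝ) ≤ L := Nat.cast_nonneg _
    by_cases hdis : Disjoint (rd c z i) S
    · have e3 : (rd c z i).filter (fun j => j ∉ S) = rd c z i := by
        apply Finset.filter_true_of_mem
        intro j hj
        exact Finset.disjoint_left.mp hdis hj
      rw [e3]
      have h4 : ((rd c z i).card : ℝ) * cst δ (qs W c M S i z) ≤
          (rd c z i).card * (hh (qs W c M S i z) + 4 * δ) := by
        apply mul_le_mul_of_nonneg_left _ hr0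
        unfold cst
        split_ifs
        · linarith
        · exact le_rfl
      refine h4.trans ?_
      by_cases hL : L < (rd c z i).card
      · rw [if_pos ⟨hL, hdis⟩]
        by_cases hq : qs W c M S i z < l
        · rw [if_pos hq]
          have h5 : ((rd c z i).card : ℝ) * hh (qs W c M S i z) ≤ R * hh (qs W c M S i z) :=
            mul_le_mul_of_nonneg_right hRr hh0
          have h6 := mul_nonneg hL0 hh0
          have h7 := mul_nonneg hG0 hr0
          nlinarith
        · rw [if_neg hq]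
          push Not at hq
          have h5 : hh (qs W c M S i z) ≤ -Real.log l + 1 := by
            have h6 := hh_le hq0 hq1
            have h7 := Real.log_le_log hl0 hq
            linarith
          have h6 : ((rd c z i).card : ℝ) * hh (qs W c M S i z) ≤ (rd c z i).card * (-Real.log l + 1) :=
            mul_le_mul_of_nonneg_left h5 hr0
          have h8 := mul_nonneg hL0 hh0
          nlinarith
      · rw [if_neg (fun h => hL h.1)]
        push Not at hL
        have h5 : ((rd c z i).card : ℝ) * hh (qs W c M S i z) ≤ L * hh (qs W c M S i z) :=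
          mul_le_mul_of_nonneg_right (by exact_mod_cast hL) hh0
        have h6 := mul_nonneg hR0 hrare0
        nlinarith
    · have hq : qs W c M S i z = 1 := by
        rw [Finset.not_disjoint_iff] at hdis
        obtain ⟨j, hj, hjS⟩ := hdis
        exact qs_read hz hsub hjS (mem_rd.mp hj)
      rw [if_neg (fun h => hdis h.2)]
      have : (((rd c z i).filter (fun j => j ∉ S)).card : ℝ) * cst δ (qs W c M S i z) = 0 := by
        rw [hq]; simp [cst]
      rw [this]
      have h6 := mul_nonneg hR0 hrare0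
      have h8 := mul_nonneg hL0 hh0
      have h9 : 0 ≤ 4 * δ * ((rd c z i).card : ℝ) := by positivity
      linarith
  have h4 := Finset.sum_le_sum h3
  -- evaluate the right-hand side
  have e5 : ∑ z ∈ W, ∑ i ∈ M, (L * hh (qs W c M S i z) + (-Real.log l + 1) *
        (if L < (rd c z i).card ∧ Disjoint (rd c z i) S then ((rd c z i).card : ℝ) else 0) +
        R * (if qs W c M S i z < l then hh (qs W c M S i z) else 0) + 4 * δ * ((rd c z i).card : ℝ)) =
      L * ∑ i ∈ M, ∑ z ∈ W, hh (qs W c M S i z) + (-Real.log l + 1) * Hv W c M S L +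
      R * ∑ i ∈ M, ∑ z ∈ W, (if qs W c M S i z < l then hh (qs W c M S i z) else 0) +
      4 * δ * ∑ z ∈ W, ∑ i ∈ M, ((rd c z i).card : ℝ) := by
    unfold Hv
    rw [Finset.sum_comm (s := M) (t := W), Finset.sum_comm (s := M) (t := W)]
    simp only [Finset.sum_add_distrib, ← Finset.mul_sum]
  rw [e5] at h4
  have h6 : ∑ i ∈ M, ∑ z ∈ W, hh (qs W c M S i z) ≤ 2 * (Gs W c M S + TC W c M S) := by
    calc ∑ i ∈ M, ∑ z ∈ W, hh (qs W c M S i z)
        ≤ ∑ i ∈ M, 2 * (Gs W c M S - Gs W c (M.erase i) S) := Finset.sum_le_sum fun i _ => sum_hh i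
      _ = 2 * (Gs W c M S + TC W c M S) := by
          rw [← Finset.mul_sum]; unfold TC; ring
  have h7 : ∑ i ∈ M, ∑ z ∈ W, (if qs W c M S i z < l then hh (qs W c M S i z) else 0) ≤
      W.card * M.card * Real.binEntropy l := by
    calc ∑ i ∈ M, ∑ z ∈ W, (if qs W c M S i z < l then hh (qs W c M S i z) else 0)
        ≤ ∑ i ∈ M, W.card * Real.binEntropy l := Finset.sum_le_sum fun i _ => sum_rare i hl0.le hl1
      _ = _ := by rw [Finset.sum_const, nsmul_eq_mul]; ring
  have h8 := mul_le_mul_of_nonneg_left h6 (Nat.cast_nonneg (α := ℝ) L)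
  have h9 := mul_le_mul_of_nonneg_left h7 (Nat.cast_nonneg (α := ℝ) R)
  linarith

end Pool.Agent.KN
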