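import Pool.Agent.SemRO.T

/-! The key inequality for biased product measures. -/

namespace Pool.Agent.KN

open Finset Pool.Agent.SemRO

/-- measure of a set of points under the product measure with marginals `p` -/
noncomputable def mass {n : ℕ} (p : Fin n → Bool → ℝ) (G : Finset (Fin n → Bool)) : ℝ :=
  ∑ z ∈ G, ∏ i, p i (z i)

/-- factor of a coordinate -/
noncomputable def fac (s : ℝ) (p : Bool → ℝ) : Option Bool → ℝ
  | none => 1
  | some y => (1 - p (!y) ^ s) / p y ^ s

lemma mass_nonneg {n : ℕ} {p : Fin n → Bool → ℝ} (hp0 : ∀ i y, 0 ≤ p i y)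
    (G : Finset (Fin n → Bool)) : 0 ≤ mass p G :=
  Finset.sum_nonneg fun z _ => Finset.prod_nonneg fun i _ => hp0 i (z i)

lemma mass_mono {n : ℕ} {p : Fin n → Bool → ℝ} (hp0 : ∀ i y, 0 ≤ p i y)
    {G H : Finset (Fin n → Bool)} (h : G ⊆ H) : mass p G ≤ mass p H :=
  Finset.sum_le_sum_of_subset_of_nonneg h fun z _ _ => Finset.prod_nonneg fun i _ => hp0 i (z i)

lemma mass_slices {n : ℕ} (p : Fin (n + 1) → Bool → ℝ) (G : Finset (Fin (n + 1) → Bool)) :
    mass p G = p 0 false * mass (Fin.tail p) (slice false G) +
      p 0 true * mass (Fin.tail p) (slice true G) := by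
  classical
  have hinj : ∀ b : Bool, Function.Injective (fun z : Fin n → Bool => (Fin.cons b z : Fin (n + 1) → Bool)) := by
    intro b z w h
    exact Fin.cons_right_injective (α := fun _ => Bool) b h
  have h : G = (slice false G).image (fun z => (Fin.cons false z : Fin (n + 1) → Bool)) ∪
      (slice true G).image (fun z => (Fin.cons true z : Fin (n + 1) → Bool)) := by
    ext w
    simp only [mem_union, mem_image, SemRO.mem_slice]
    constructor
    · intro hw
      cases hb : w 0
      · left
        refine ⟨Fin.tail w, ?_, ?_⟩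
        · rw [← hb, Fin.cons_self_tail]; exact hw
        · rw [← hb, Fin.cons_self_tail]
      · right
        refine ⟨Fin.tail w, ?_, ?_⟩
        · rw [← hb, Fin.cons_self_tail]; exact hw
        · rw [← hb, Fin.cons_self_tail]
    · rintro (⟨z, hz, rfl⟩ | ⟨z, hz, rfl⟩) <;> exact hz
  have hdisj : Disjoint ((slice false G).image (fun z => (Fin.cons false z : Fin (n + 1) → Bool)))
      ((slice true G).image (fun z => (Fin.cons true z : Fin (n + 1) → Bool))) := by
    rw [Finset.disjoint_left]
    intro w h1 h2
    simp only [mem_image] at h1 h2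
    obtain ⟨z, _, rfl⟩ := h1
    obtain ⟨z', _, h'⟩ := h2
    have := congrFun h' 0
    simp at this
  unfold mass
  conv_lhs => rw [h]
  rw [Finset.sum_union hdisj, Finset.sum_image (fun x _ y _ hxy => hinj _ hxy),
    Finset.sum_image (fun x _ y _ hxy => hinj _ hxy), Finset.mul_sum, Finset.mul_sum]
  congr 1
  · refine Finset.sum_congr rfl fun z _ => ?_
    rw [Fin.prod_univ_succ]
    simp [Fin.tail]
  · refine Finset.sum_congr rfl fun z _ => ?_
    rw [Fin.prod_univ_succ]
    simp [Fin.tail]

/-- two-point inequality -/
lemma two_point {s p q a b : ℝ} (hs0 : 0 < s) (hs1 : s ≤ 1) (hp : 0 ≤ p) (hq : 0 ≤ q)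
    (hpq : p + q = 1) (hb : 0 ≤ b) (hab : b ≤ a) :
    (p * a + q * b) ^ s ≤ p ^ s * a ^ s + (1 - p ^ s) * b ^ s := by
  have ha : 0 ≤ a := hb.trans hab
  rcases eq_or_lt_of_le hb with h0 | hbpos
  · rw [← h0, mul_zero, add_zero, Real.mul_rpow hp ha, Real.zero_rpow hs0.ne']
    simp
  -- the four points `p b ≤ b, p a ≤ p a + q b`
  have hq' : q = 1 - p := by linarith
  have hx : p * b ∈ Set.Ici (0 : ℝ) := mul_nonneg hp hb
  have hy : p * a + q * b ∈ Set.Ici (0 : ℝ) := add_nonneg (mul_nonneg hp ha) (mul_nonneg hq hb)
  have hc := Real.concaveOn_rpow hs0.le hs1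
  set D : ℝ := p * a + q * b - p * b with hD
  have hD0 : D = q * b + p * (a - b) := by rw [hD]; ring
  rcases eq_or_lt_of_le (show 0 ≤ D by rw [hD0]; exact add_nonneg (mul_nonneg hq hb) (mul_nonneg hp (by linarith))) with hDz | hDpos
  · -- then q b = 0
    have : q * b = 0 := by
      have h1 : 0 ≤ q * b := mul_nonneg hq hb
      have h2 : 0 ≤ p * (a - b) := mul_nonneg hp (by linarith)
      linarith
    have hq0 : q = 0 := by
      rcases mul_eq_zero.mp this with h | h
      · exact h
      · exact absurd h hbpos.ne'
    have hp1 : p = 1 := by linarith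
    rw [hq0, hp1]
    simp
  -- b = (1-t) (p b) + t (pa+qb), p a = t (p b) + (1-t) (pa + qb) with t = q b / D
  set t : ℝ := q * b / D with ht
  have ht0 : 0 ≤ t := div_nonneg (mul_nonneg hq hb) hDpos.le
  have ht1 : 0 ≤ 1 - t := by
    rw [sub_nonneg, ht, div_le_one hDpos, hD0]
    have := mul_nonneg hp (show 0 ≤ a - b by linarith)
    linarith
  have htD : t * D = q * b := by rw [ht]; field_simp
  have h1 := hc.2 hx hy ht1 ht0 (by ring)
  have h2 := hc.2 hx hy ht0 ht1 (by ring)
  simp only [smul_eq_mul] at h1 h2
  have e1 : (1 - t) * (p * b) + t * (p * a + q * b) = b := by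
    have : (1 - t) * (p * b) + t * (p * a + q * b) = p * b + t * D := by rw [hD]; ring
    rw [this, htD]
    rw [hq']; ring
  have e2 : t * (p * b) + (1 - t) * (p * a + q * b) = p * a := by
    have : t * (p * b) + (1 - t) * (p * a + q * b) = p * a + q * b - t * D := by rw [hD]; ring
    rw [this, htD]; ring
  rw [e1] at h1
  rw [e2, Real.mul_rpow hp ha] at h2
  rw [Real.mul_rpow hp hb] at h1 h2
  nlinarith [h1, h2]

/-- The key inequality for product measures, in its indexed form. -/
theorem T_biased {ι : Type*} (s : ℝ) (hs0 : 0 < s) (hs1 : s ≤ 1) :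
    ∀ (n : ℕ) (p : Fin n → Bool → ℝ), (∀ i y, 0 ≤ p i y) → (∀ i, p i false + p i true = 1) →
      ∀ (I : Finset ι) (c : ι → Fin n → Option Bool) (G : ι → Finset (Fin n → Bool)),
      (∀ i ∈ I, ∀ z ∈ G i, Sub (c i) z) →
      (∀ i ∈ I, ∀ j ∈ I, i ≠ j → ∀ z ∈ G i, ∀ z' ∈ G j, ¬ (Sub (c j) z ∧ Sub (c i) z')) →
      ∑ i ∈ I, (∏ k, fac s (p k) (c i k)) * mass p (G i) ^ s ≤ 1 := by
  classical
  intro n
  induction n with
  | zero =>
    intro p hp0 hp1 I c G _ hD
    by_cases hex : ∃ i ∈ I, (G i).Nonempty
    · obtain ⟨i, hi, hne⟩ := hex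
      rw [Finset.sum_eq_single_of_mem i hi]
      · have hg : (G i).card ≤ 1 := by
          calc (G i).card ≤ Fintype.card (Fin 0 → Bool) := Finset.card_le_univ _
            _ = 1 := by simp
        have hg' : ((G i).card : ℝ) ≤ 1 := by exact_mod_cast hg
        have hm : mass p (G i) = (G i).card := by
          unfold mass; simp
        rw [hm]
        simp only [Finset.univ_eq_empty, Finset.prod_empty, one_mul]
        exact Real.rpow_le_one (Nat.cast_nonneg _) hg' hs0.le
      · intro j hj hji
        have : G j = ∅ := by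
          by_contra hne'
          obtain ⟨z', hz'⟩ := Finset.nonempty_iff_ne_empty.mpr hne'
          obtain ⟨z, hz⟩ := hne
          refine hD i hi j hj (fun h => hji h.symm) z hz z' hz' ⟨?_, ?_⟩
          · intro k; exact k.elim0
          · intro k; exact k.elim0
        rw [this]
        simp [mass, Real.zero_rpow hs0.ne']
    · push Not at hex
      rw [Finset.sum_eq_zero]
      · norm_num
      · intro i hi
        rw [hex i hi]
        simp [mass, Real.zero_rpow hs0.ne']
  | succ n ih =>
    intro p hp0 hp1 I c G hsub hD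
    have hp0' : ∀ i y, 0 ≤ Fin.tail p i y := fun i y => hp0 i.succ y
    have hp1' : ∀ i, Fin.tail p i false + Fin.tail p i true = 1 := fun i => hp1 i.succ
    have hle1 : ∀ i y, p i y ≤ 1 := by
      intro i y
      have h1 := hp1 i
      have h2 := hp0 i false
      have h3 := hp0 i true
      cases y <;> linarith
    have hs_le1 : ∀ i y, p i y ^ s ≤ 1 := fun i y => Real.rpow_le_one (hp0 i y) (hle1 i y) hs0.le
    have hs_nn : ∀ i y, 0 ≤ p i y ^ s := fun i y => Real.rpow_nonneg (hp0 i y) _
    have hfac_nn : ∀ (i : Fin (n + 1)) (o : Option Bool), 0 ≤ fac s (p i) o := by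
      intro i o
      cases o with
      | none => exact zero_le_one
      | some y => exact div_nonneg (by linarith [hs_le1 i (!y)]) (hs_nn i y)
    set w0 : ℝ := 1 - p 0 true ^ s with hw0
    set w1 : ℝ := 1 - p 0 false ^ s with hw1
    set ws : ℝ := p 0 false ^ s + p 0 true ^ s - 1 with hws
    have hw0n : 0 ≤ w0 := by rw [hw0]; linarith [hs_le1 0 true]
    have hw1n : 0 ≤ w1 := by rw [hw1]; linarith [hs_le1 0 false]
    have hself : ∀ x : ℝ, 0 ≤ x → x ≤ 1 → x ≤ x ^ s := by
      intro x hx0 hx1
      calc x = x ^ (1 : ℝ) := (Real.rpow_one x).symm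
        _ ≤ x ^ s := Real.rpow_le_rpow_of_exponent_ge' hx0 hx1 hs0.le hs1
    have hwsn : 0 ≤ ws := by
      have h1 := hself _ (hp0 0 false) (hle1 0 false)
      have h2 := hself _ (hp0 0 true) (hle1 0 true)
      have h3 := hp1 0
      rw [hws]; linarith
    have hwsum : w0 + w1 + ws = 1 := by rw [hw0, hw1, hws]; ring
    let I0 := I.filter (fun i => c i 0 ≠ some true)
    let I1 := I.filter (fun i => c i 0 ≠ some false)
    let Is := I.filter (fun i => c i 0 = none)
    have A0 := ih (Fin.tail p) hp0' hp1' I0 (fun i => Fin.tail (c i)) (fun i => slice false (G i))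
      (by
        intro i hi z hz
        have := hsub i (Finset.mem_filter.mp hi).1 _ (SemRO.mem_slice.mp hz)
        exact (sub_cons.mp this).2)
      (by
        intro i hi j hj hij z hz z' hz' ⟨h1, h2⟩
        refine hD i (Finset.mem_filter.mp hi).1 j (Finset.mem_filter.mp hj).1 hij _ (SemRO.mem_slice.mp hz) _
          (SemRO.mem_slice.mp hz') ⟨sub_cons.mpr ⟨?_, h1⟩, sub_cons.mpr ⟨?_, h2⟩⟩
        · intro b hb
          cases b
          · rfl
          · exact absurd hb (Finset.mem_filter.mp hj).2
        · intro b hb
          cases b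
          · rfl
          · exact absurd hb (Finset.mem_filter.mp hi).2)
    have A1 := ih (Fin.tail p) hp0' hp1' I1 (fun i => Fin.tail (c i)) (fun i => slice true (G i))
      (by
        intro i hi z hz
        have := hsub i (Finset.mem_filter.mp hi).1 _ (SemRO.mem_slice.mp hz)
        exact (sub_cons.mp this).2)
      (by
        intro i hi j hj hij z hz z' hz' ⟨h1, h2⟩
        refine hD i (Finset.mem_filter.mp hi).1 j (Finset.mem_filter.mp hj).1 hij _ (SemRO.mem_slice.mp hz) _
          (SemRO.mem_slice.mp hz') ⟨sub_cons.mpr ⟨?_, h1⟩, sub_cons.mpr ⟨?_, h2⟩⟩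
        · intro b hb
          cases b
          · exact absurd hb (Finset.mem_filter.mp hj).2
          · rfl
        · intro b hb
          cases b
          · exact absurd hb (Finset.mem_filter.mp hi).2
          · rfl)
    have As := ih (Fin.tail p) hp0' hp1' Is (fun i => Fin.tail (c i))
      (fun i => slice false (G i) ∪ slice true (G i))
      (by
        intro i hi z hz
        rcases Finset.mem_union.mp hz with hz | hz
        · exact (sub_cons.mp (hsub i (Finset.mem_filter.mp hi).1 _ (SemRO.mem_slice.mp hz))).2
        · exact (sub_cons.mp (hsub i (Finset.mem_filter.mp hi).1 _ (SemRO.mem_slice.mp hz))).2)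
      (by
        intro i hi j hj hij z hz z' hz' ⟨h1, h2⟩
        have key : ∀ b b' : Bool, (Fin.cons b z : Fin (n + 1) → Bool) ∈ G i →
            (Fin.cons b' z' : Fin (n + 1) → Bool) ∈ G j → False := by
          intro b b' hz hz'
          refine hD i (Finset.mem_filter.mp hi).1 j (Finset.mem_filter.mp hj).1 hij _ hz _
            hz' ⟨sub_cons.mpr ⟨?_, h1⟩, sub_cons.mpr ⟨?_, h2⟩⟩
          · intro b hb
            rw [(Finset.mem_filter.mp hj).2] at hb; exact absurd hb (by simp)
          · intro b hb
            rw [(Finset.mem_filter.mp hi).2] at hb; exact absurd hb (by simp)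
        rcases Finset.mem_union.mp hz with hz | hz <;> rcases Finset.mem_union.mp hz' with hz' | hz' <;>
          exact key _ _ (SemRO.mem_slice.mp hz) (SemRO.mem_slice.mp hz'))
    simp only [I0, I1, Is, Finset.sum_filter] at A0 A1 As
    have main : ∀ i ∈ I, (∏ k, fac s (p k) (c i k)) * mass p (G i) ^ s ≤
        w0 * (if c i 0 ≠ some true then (∏ k, fac s (Fin.tail p k) (Fin.tail (c i) k)) *
            mass (Fin.tail p) (slice false (G i)) ^ s else 0) +
        w1 * (if c i 0 ≠ some false then (∏ k, fac s (Fin.tail p k) (Fin.tail (c i) k)) *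
            mass (Fin.tail p) (slice true (G i)) ^ s else 0) +
        ws * (if c i 0 = none then (∏ k, fac s (Fin.tail p k) (Fin.tail (c i) k)) *
            mass (Fin.tail p) (slice false (G i) ∪ slice true (G i)) ^ s else 0) := by
      intro i hi
      have hms := mass_slices p (G i)
      have hprod : (∏ k, fac s (p k) (c i k)) = fac s (p 0) (c i 0) *
          ∏ k, fac s (Fin.tail p k) (Fin.tail (c i) k) := by
        rw [Fin.prod_univ_succ]; rfl
      have hPn : 0 ≤ ∏ k, fac s (Fin.tail p k) (Fin.tail (c i) k) :=
        Finset.prod_nonneg fun k _ => hfac_nn k.succ _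
      set P := ∏ k, fac s (Fin.tail p k) (Fin.tail (c i) k) with hP
      have ha0 := mass_nonneg hp0' (slice false (G i))
      have hb0 := mass_nonneg hp0' (slice true (G i))
      match hc0 : c i 0 with
      | some true =>
        have he : slice false (G i) = ∅ := by
          ext z
          simp only [SemRO.mem_slice, Finset.notMem_empty, iff_false]
          intro hz
          have := (sub_cons.mp (hsub i hi _ hz)).1 true hc0
          exact absurd this (by simp)
        rw [hprod, hc0, hms, he]
        rw [if_neg (show ¬ ((some true : Option Bool) ≠ some true) by simp),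
          if_pos (show (some true : Option Bool) ≠ some false by simp),
          if_neg (show ¬ ((some true : Option Bool) = none) by simp), mul_zero, mul_zero, zero_add, add_zero]
        have hm0 : mass (Fin.tail p) ∅ = 0 := by simp [mass]
        rw [hm0, mul_zero, zero_add, Real.mul_rpow (hp0 0 true) hb0]
        have hle : fac s (p 0) (some true) * p 0 true ^ s ≤ w1 := by
          unfold fac
          simp only [Bool.not_true]
          rcases eq_or_lt_of_le (hs_nn 0 true) with h | h
          · rw [← h, mul_zero]; exact hw1n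
          · rw [div_mul_cancel₀ _ h.ne']
        calc fac s (p 0) (some true) * P * (p 0 true ^ s * mass (Fin.tail p) (slice true (G i)) ^ s)
            = (fac s (p 0) (some true) * p 0 true ^ s) * (P * mass (Fin.tail p) (slice true (G i)) ^ s) := by
              ring
          _ ≤ w1 * (P * mass (Fin.tail p) (slice true (G i)) ^ s) :=
              mul_le_mul_of_nonneg_right hle (mul_nonneg hPn (Real.rpow_nonneg hb0 _))
      | some false =>
        have he : slice true (G i) = ∅ := by
          ext z
          simp only [SemRO.mem_slice, Finset.notMem_empty, iff_false]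
          intro hz
          have := (sub_cons.mp (hsub i hi _ hz)).1 false hc0
          exact absurd this (by simp)
        rw [hprod, hc0, hms, he]
        rw [if_pos (show (some false : Option Bool) ≠ some true by simp),
          if_neg (show ¬ ((some false : Option Bool) ≠ some false) by simp),
          if_neg (show ¬ ((some false : Option Bool) = none) by simp), mul_zero, mul_zero, add_zero, add_zero]
        have hm0 : mass (Fin.tail p) ∅ = 0 := by simp [mass]
        rw [hm0, mul_zero, add_zero, Real.mul_rpow (hp0 0 false) ha0]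
        have hle : fac s (p 0) (some false) * p 0 false ^ s ≤ w0 := by
          unfold fac
          simp only [Bool.not_false]
          rcases eq_or_lt_of_le (hs_nn 0 false) with h | h
          · rw [← h, mul_zero]; exact hw0n
          · rw [div_mul_cancel₀ _ h.ne']
        calc fac s (p 0) (some false) * P * (p 0 false ^ s * mass (Fin.tail p) (slice false (G i)) ^ s)
            = (fac s (p 0) (some false) * p 0 false ^ s) * (P * mass (Fin.tail p) (slice false (G i)) ^ s) := by
              ring
          _ ≤ w0 * (P * mass (Fin.tail p) (slice false (G i)) ^ s) :=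
              mul_le_mul_of_nonneg_right hle (mul_nonneg hPn (Real.rpow_nonneg ha0 _))
      | none =>
        rw [hprod, hc0, hms]
        rw [if_pos (show (none : Option Bool) ≠ some true by intro h; cases h),
          if_pos (show (none : Option Bool) ≠ some false by intro h; cases h),
          if_pos (show (none : Option Bool) = none from rfl)]
        set a : ℝ := mass (Fin.tail p) (slice false (G i)) with ha
        set b : ℝ := mass (Fin.tail p) (slice true (G i)) with hb
        set u : ℝ := mass (Fin.tail p) (slice false (G i) ∪ slice true (G i)) with hu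
        have hua : a ≤ u := mass_mono hp0' Finset.subset_union_left
        have hub : b ≤ u := mass_mono hp0' Finset.subset_union_right
        have key : (p 0 false * a + p 0 true * b) ^ s ≤ w0 * a ^ s + w1 * b ^ s + ws * u ^ s := by
          rcases le_total b a with hle | hle
          · have h1 := two_point hs0 hs1 (hp0 0 false) (hp0 0 true) (hp1 0) hb0 hle
            have h2 : a ^ s ≤ u ^ s := Real.rpow_le_rpow ha0 hua hs0.le
            have h3 : ws * a ^ s ≤ ws * u ^ s := mul_le_mul_of_nonneg_left h2 hwsn
            have h4 : w0 * a ^ s + w1 * b ^ s + ws * a ^ s =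
              p 0 false ^ s * a ^ s + (1 - p 0 false ^ s) * b ^ s := by rw [hw0, hw1, hws]; ring
            linarith
          · have h1 := two_point hs0 hs1 (hp0 0 true) (hp0 0 false) (by rw [add_comm]; exact hp1 0) ha0 hle
            have h2 : b ^ s ≤ u ^ s := Real.rpow_le_rpow hb0 hub hs0.le
            have h3 : ws * b ^ s ≤ ws * u ^ s := mul_le_mul_of_nonneg_left h2 hwsn
            have h4 : w0 * a ^ s + w1 * b ^ s + ws * b ^ s =
              p 0 true ^ s * b ^ s + (1 - p 0 true ^ s) * a ^ s := by rw [hw0, hw1, hws]; ring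
            have h5 : p 0 false * a + p 0 true * b = p 0 true * b + p 0 false * a := by ring
            rw [h5]
            linarith
        calc fac s (p 0) none * P * (p 0 false * a + p 0 true * b) ^ s
            = P * (p 0 false * a + p 0 true * b) ^ s := by unfold fac; ring
          _ ≤ P * (w0 * a ^ s + w1 * b ^ s + ws * u ^ s) := mul_le_mul_of_nonneg_left key hPn
          _ = _ := by ring
    calc ∑ i ∈ I, (∏ k, fac s (p k) (c i k)) * mass p (G i) ^ s
        ≤ ∑ i ∈ I, _ := Finset.sum_le_sum main
      _ = w0 * ∑ i ∈ I, (if c i 0 ≠ some true then (∏ k, fac s (Fin.tail p k) (Fin.tail (c i) k)) *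
            mass (Fin.tail p) (slice false (G i)) ^ s else 0) +
        w1 * ∑ i ∈ I, (if c i 0 ≠ some false then (∏ k, fac s (Fin.tail p k) (Fin.tail (c i) k)) *
            mass (Fin.tail p) (slice true (G i)) ^ s else 0) +
        ws * ∑ i ∈ I, (if c i 0 = none then (∏ k, fac s (Fin.tail p k) (Fin.tail (c i) k)) *
            mass (Fin.tail p) (slice false (G i) ∪ slice true (G i)) ^ s else 0) := by
          rw [Finset.sum_add_distrib, Finset.sum_add_distrib, Finset.mul_sum, Finset.mul_sum,
            Finset.mul_sum]
      _ ≤ w0 * 1 + w1 * 1 + ws * 1 := by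
          exact add_le_add (add_le_add (mul_le_mul_of_nonneg_left A0 hw0n)
            (mul_le_mul_of_nonneg_left A1 hw1n)) (mul_le_mul_of_nonneg_left As hwsn)
      _ = 1 := by rw [mul_one, mul_one, mul_one]; exact hwsum

end Pool.Agent.KN
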